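import Pool.Agent.R602.UU.Suc

/-!
# Piece ALE: the alephs of the model
-/

set_option autoImplicit false
set_option linter.all false

namespace Pool.Agent.R602.UU

open Pool.Agent.W868 Pool.Agent.W868.PName Pool.Agent.R598.SY Cardinal
open ZFSet (pair)

variable [Base]

open SucAux

theorem ale_main (hO : S_ORD) (hG : S_GR) (hR : S_CRD) (hL : S_CLS) : S_ALE := by
  intro hb0
  refine (((hO.and hG).and (hR.and hL)).of ∅ Set.countable_empty ?_)
  rintro π - - ⟨⟨hO, hG⟩, hR, hL⟩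
  have hkp : ∀ n, InfCard (sys.Ms π) (π.val (ck (kp n).ord)) := fun n =>
    (hR _ (aleph0_le_kp n) (hG.kp n)).1 (Or.inr (Or.inl ⟨n, rfl⟩))
  have hb : bt 0 = ℵ₀ := hb0
  -- the successor step
  have key : ∀ (d : Cardinal.{0}) (n : ℕ), ck d.ord ∈ π.N →
      InfCard (sys.Ms π) (π.val (ck d.ord)) → ℵ₀ ≤ d → d < kp n →
      (∀ m, d < kp m → n ≤ m) → IsSucc (sys.Ms π) (π.val (ck d.ord)) (π.val (ck (kp n).ord)) := by
    intro d n hdN hd hd0 hdn hm
    refine ⟨hd, hkp n, (hO.lt _ _ hdN (hG.kp n)).2 (Cardinal.ord_lt_ord.2 hdn), ?_⟩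
    intro ν hν hdν
    obtain ⟨c, hc0, hcN, rfl, hc⟩ := hL ν hν
    have hdc : d < c := Cardinal.ord_lt_ord.1 ((hO.lt _ _ hdN hcN).1 hdν)
    refine sub_of_le hO (hG.kp n) hcN (Cardinal.ord_le_ord.2 ?_)
    rcases hc with hc | ⟨m, rfl⟩ | hc
    · rw [hb] at hc
      exact absurd (hdc.trans_le hc) (not_lt.2 hd0)
    · exact kp_strictMono.monotone (hm m hdc)
    · exact (kp_lt_lam n).le.trans hc
  intro n
  induction n with
  | zero =>
    refine ⟨ZFSet.omega, rfl, ?_⟩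
    have hω : (ℵ₀ : Cardinal.{0}).ord = Ordinal.omega0 := Cardinal.ord_aleph0
    have hN : ck (ℵ₀ : Cardinal.{0}).ord ∈ π.N := by rw [hω]; exact hO.om.1
    have h1 := key ℵ₀ 0 hN ((hR _ le_rfl hN).1 (Or.inl hb.ge)) le_rfl
      (by rw [← hb]; exact bt_lt_kp 0) (fun m _ => Nat.zero_le m)
    rw [hω, hO.om.2] at h1
    exact h1
  | succ n ih =>
    refine ⟨_, ih, ?_⟩
    refine key (kp n) (n + 1) (hG.kp n) (hkp n) (aleph0_le_kp n) (kp_lt_succ n) fun m hm => ?_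
    exact kp_strictMono.lt_iff_lt.1 hm

end Pool.Agent.R602.UU
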