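import Pool.Agent.R602.UU.Defs

/-!
# Cardinal arithmetic
-/

set_option autoImplicit false
set_option linter.all false

namespace Pool.Agent.R602.UU

open Cardinal

variable [Base]

theorem bt_mono {m n : ℕ} (h : m ≤ n) : bt m ≤ bt n := by
  induction h with
  | refl => exact le_rfl
  | step _ ih => exact ih.trans (bt_lt_succ _).le

theorem bt_lt_lam (n : ℕ) : bt n < lam :=
  (bt_lt_succ n).trans_le (le_ciSup (Cardinal.bddAbove_range _) (n + 1))

theorem kp_le (n : ℕ) : kp n ≤ bt (n + 1) := Order.succ_le_of_lt (bt_lt_succ n)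

theorem bt_lt_kp (n : ℕ) : bt n < kp n := Order.lt_succ _

theorem kp_lt_lam (n : ℕ) : kp n < lam := (kp_le n).trans_lt (bt_lt_lam _)

theorem kp_lt_kp {m n : ℕ} (h : m < n) : kp m < kp n :=
  ((kp_le m).trans (bt_mono h)).trans_lt (bt_lt_kp n)

theorem aleph0_le_kp (n : ℕ) : ℵ₀ ≤ kp n := (aleph0_le_bt n).trans (bt_lt_kp n).le

theorem aleph0_le_lam : ℵ₀ ≤ lam := (aleph0_le_bt 0).trans (bt_lt_lam 0).le

theorem kp_regular (n : ℕ) : (kp n).IsRegular := Cardinal.isRegular_succ (aleph0_le_bt n)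

theorem exists_of_lt_lam {c : Cardinal.{0}} (h : c < lam) : ∃ n, c < bt n := by
  by_contra hc
  push Not at hc
  exact absurd h (not_lt.2 (ciSup_le' fun n => hc n))

/-- Below `lam` there are only the intervals. -/
theorem below_lam {c : Cardinal.{0}} (h : c < lam) : c ≤ bt 0 ∨ ∃ n, c = kp n ∨
    (kp n < c ∧ c ≤ bt (n + 1)) := by
  obtain ⟨n, hn⟩ := exists_of_lt_lam h
  have h1 : ∃ n, c ≤ bt n := ⟨n, hn.le⟩
  classical
  rcases hf : Nat.find h1 with _ | m
  · left
    have h2 := Nat.find_spec h1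
    rwa [hf] at h2
  · right
    have h2 := Nat.find_spec h1
    rw [hf] at h2
    have h3 : ¬ c ≤ bt m := Nat.find_min h1 (by omega)
    have h4 : kp m ≤ c := Order.succ_le_of_lt (not_le.1 h3)
    rcases h4.eq_or_lt with h5 | h5
    · exact ⟨m, Or.inl h5.symm⟩
    · exact ⟨m, Or.inr ⟨h5, h2⟩⟩

theorem mk_X : #X = lam := by
  rw [Cardinal.mk_toType, Cardinal.card_ord]

theorem aleph0_ord_lt {c : Cardinal.{0}} (h : ℵ₀ < c) : Ordinal.omega0 < c.ord := by
  rw [← Cardinal.ord_aleph0]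
  exact Cardinal.ord_lt_ord.2 h

end Pool.Agent.R602.UU
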