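import Pool.Agent.R602.UU.Defs

/-!
# Functions of the model into regular cardinals are bounded
-/

set_option autoImplicit false
set_option linter.all false

namespace Pool.Agent.R602.UU

open Pool.Agent.W868 Pool.Agent.W868.PName Pool.Agent.R598.SY Cardinal
open ZFSet (pair)

variable [Base]

namespace Bnd

/-! ### Conditions -/

theorem lo_val (n : ℕ) (p : P) (m : ℕ) (x : X) :
    (lo n p).1 m x = if m < n then p.1 m x else none := rfl

theorem mix_val (n : ℕ) (r p : P) (m : ℕ) (x : X) :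
    (mix n r p).1 m x = if m < n then r.1 m x else p.1 m x := rfl

theorem le_mix {n : ℕ} {s q : P} (h : s ≤ q) : s ≤ mix n s q := by
  intro m x b hb
  rw [mix_val] at hb
  by_cases hm : m < n
  · rwa [if_pos hm] at hb
  · rw [if_neg hm] at hb
    exact h m x b hb

theorem mix_mono {n : ℕ} {s q q' : P} (h : q' ≤ q) : mix n s q' ≤ mix n s q := by
  intro m x b hb
  rw [mix_val] at hb ⊢
  by_cases hm : m < n
  · rwa [if_pos hm] at hb ⊢
  · rw [if_neg hm] at hb ⊢
    exact h m x b hb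

theorem mix_le_lo {n : ℕ} {s q : P} : mix n s q ≤ lo n s := by
  intro m x b hb
  rw [lo_val] at hb
  rw [mix_val]
  by_cases hm : m < n
  · rwa [if_pos hm] at hb ⊢
  · rw [if_neg hm] at hb
    cases hb

theorem mix_le {n : ℕ} {s q : P} (h : q ≤ lo n s) : mix n q s ≤ s := by
  intro m x b hb
  rw [mix_val]
  by_cases hm : m < n
  · rw [if_pos hm]
    refine h m x b ?_
    rwa [lo_val, if_pos hm]
  · rwa [if_neg hm]

theorem mix_zero (s q : P) : mix 0 s q = q := by
  refine Subtype.ext (funext fun m => funext fun x => ?_)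
  change (mix 0 s q).1 m x = q.1 m x
  rw [mix_val, if_neg (Nat.not_lt_zero m)]

theorem join {r r' : P} (h : ∀ m x b, r.1 m x = some b → r'.1 m x ≠ some (!b)) :
    ∃ t, t ≤ r ∧ t ≤ r' := by
  refine ⟨⟨fun m x => (r.1 m x).or (r'.1 m x), fun m => ?_⟩, ?_, ?_⟩
  · have h1 : {x | (r.1 m x).or (r'.1 m x) ≠ none} ⊆
        {x | r.1 m x ≠ none} ∪ {x | r'.1 m x ≠ none} := by
      intro x hx
      by_contra h2
      have h3 : r.1 m x = none := by
        by_contra h4
        exact h2 (Or.inl h4)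
      have h5 : r'.1 m x = none := by
        by_contra h4
        exact h2 (Or.inr h4)
      refine hx ?_
      change (r.1 m x).or (r'.1 m x) = none
      rw [h3, h5]
      rfl
    calc #{x // (r.1 m x).or (r'.1 m x) ≠ none}
        ≤ #(({x | r.1 m x ≠ none} ∪ {x | r'.1 m x ≠ none} : Set X)) := Cardinal.mk_le_mk_of_subset h1
      _ ≤ #({x | r.1 m x ≠ none} : Set X) + #({x | r'.1 m x ≠ none} : Set X) :=
          Cardinal.mk_union_le _ _
      _ ≤ bt m + bt m := add_le_add (r.2 m) (r'.2 m)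
      _ = bt m := Cardinal.add_eq_self (aleph0_le_bt m)
  · intro m x b hb
    change (r.1 m x).or (r'.1 m x) = some b
    rw [hb]
    rfl
  · intro m x b hb
    change (r.1 m x).or (r'.1 m x) = some b
    cases hr : r.1 m x with
    | none => exact hb
    | some c =>
      have h1 := h m x c hr
      rw [hb] at h1
      have h2 : c = b := by
        cases c <;> cases b <;> simp at h1 ⊢
      subst h2
      rfl

theorem mix_incomp {n : ℕ} {s s' q : P} (h : ¬ ∃ t, t ≤ mix n s q ∧ t ≤ mix n s' q) :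
    ∃ m < n, ∃ x b, (mix n s q).1 m x = some b ∧ (mix n s' q).1 m x = some (!b) := by
  by_contra hc
  refine h (join fun m x b hb hb' => ?_)
  by_cases hm : m < n
  · exact hc ⟨m, hm, x, b, hb, hb'⟩
  · rw [mix_val, if_neg hm] at hb hb'
    rw [hb] at hb'
    cases b <;> simp at hb'

/-! ### The values of the function -/

/-- Forced values. -/
def FM (f : PName P) (i j : Ordinal.{0}) (p : P) : Prop := Fmem (opN (ck i) (ck j)) f p

/-- The value is forced to be the least one. -/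
def R (f : PName P) (i j : Ordinal.{0}) (p : P) : Prop :=
  FM f i j p ∧ ∀ j' < j, ∀ q ≤ p, ¬ FM f i j' q

/-- The conditions that decide the value. -/
def D (f : PName P) (i : Ordinal.{0}) : Set P :=
  {p | (∃ j, R f i j p) ∨ ∀ q ≤ p, ∀ j, ¬ FM f i j q}

theorem FM.mono {f : PName P} {i j : Ordinal.{0}} {p q : P} (h : FM f i j p) (hq : q ≤ p) :
    FM f i j q := Fmem.mono h hq

theorem R.mono {f : PName P} {i j : Ordinal.{0}} {p q : P} (h : R f i j p) (hq : q ≤ p) :
    R f i j q := ⟨h.1.mono hq, fun j' hj' s hs => h.2 j' hj' s (hs.trans hq)⟩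

theorem D_open {f : PName P} {i : Ordinal.{0}} {p q : P} (hq : q ≤ p) (h : p ∈ D f i) :
    q ∈ D f i := by
  rcases h with ⟨j, hj⟩ | h
  · exact Or.inl ⟨j, hj.mono hq⟩
  · exact Or.inr fun s hs => h s (hs.trans hq)

theorem D_dense (f : PName P) (i : Ordinal.{0}) (p : P) : ∃ q ≤ p, q ∈ D f i := by
  by_cases h : ∃ j, ∃ q ≤ p, FM f i j q
  · have h0 : {j | ∃ q ≤ p, FM f i j q}.Nonempty := h
    have h1 := csInf_mem h0
    obtain ⟨q, hq, hf⟩ := h1
    refine ⟨q, hq, Or.inl ⟨_, hf, fun j' hj' s hs hfm => ?_⟩⟩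
    exact notMem_of_lt_csInf hj' (OrderBot.bddBelow _) ⟨s, hs.trans hq, hfm⟩
  · refine ⟨p, le_rfl, Or.inr fun q hq j hf => h ⟨j, q, hq, hf⟩⟩

theorem R_uniq {f : PName P} {i j j' : Ordinal.{0}} {p p' s : P} (h : R f i j p)
    (h' : R f i j' p') (hs : s ≤ p) (hs' : s ≤ p') : j = j' := by
  rcases lt_trichotomy j j' with h1 | h1 | h1
  · exact absurd (h.1.mono hs) (h'.2 j h1 s hs')
  · exact h1
  · exact absurd (h'.1.mono hs') (h.2 j' h1 s hs)

/-! ### Homogeneity -/

theorem top_ac (g : G) : sys.ac g ⊤ = ⊤ := sys.top g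

theorem fix_op (n : ℕ) (i j : Ordinal.{0}) : sys.Fix (H n) (opN (ck i) (ck j)) := by
  intro g _ p
  rw [act_opN (sys.top g)]
  unfold ck
  rw [act_check (sys.top g), act_check (sys.top g)]
  exact Feq.refl _ _

theorem D_lo (hH : S_HOM) {f : PName P} {n : ℕ} (hf : sys.Fix (H n) f) {i : Ordinal.{0}} {p : P}
    (h : p ∈ D f i) : lo n p ∈ D f i := by
  have hh : ∀ j q, FM f i j q → FM f i j (lo n q) := fun j q h1 =>
    hH n _ f (fix_op n i j) hf q h1
  have h2 : ∀ j q, q ≤ lo n p → FM f i j q → ∃ s ≤ p, FM f i j s := by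
    intro j q hq h1
    exact ⟨mix n q p, mix_le hq, (hh j q h1).mono mix_le_lo⟩
  rcases h with ⟨j, hj⟩ | h
  · refine Or.inl ⟨j, hh j p hj.1, fun j' hj' q hq h1 => ?_⟩
    obtain ⟨s, hs, h3⟩ := h2 j' q hq h1
    exact hj.2 j' hj' s hs h3
  · refine Or.inr fun q hq j h1 => ?_
    obtain ⟨s, hs, h3⟩ := h2 j q hq h1
    exact h s hs j h3

/-! ### Good conditions -/

/-- Good conditions. -/
def Good (n : ℕ) (f : PName P) (α : Ordinal.{0}) : Set P :=
  {q | ∀ i < α, ∀ s ≤ q, ∃ s' ≤ s, mix n s' q ∈ D f i}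

theorem Good_open {n : ℕ} {f : PName P} {α : Ordinal.{0}} {p q : P} (hp : p ∈ Good n f α)
    (hq : q ≤ p) : q ∈ Good n f α := by
  intro i hi s hs
  obtain ⟨s', hs', h1⟩ := hp i hi s (hs.trans hq)
  exact ⟨s', hs', D_open (mix_mono hq) h1⟩

theorem Good_dense (hK : S_KEY) (hH : S_HOM) {n k : ℕ} {f : PName P} {α : Ordinal.{0}}
    (hf : sys.Fix (H k) f) (h : k ≤ n ∨ α.card ≤ bt n) (p : P) : ∃ q ≤ p, q ∈ Good n f α := by
  rcases h with h | h
  · have hf' : sys.Fix (H n) f := Sys.Fix.mono (S := sys) hf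
      (fun g (hg : ∀ m < n, g m = 1) m hm => hg m (hm.trans_le h))
    refine ⟨p, le_rfl, fun i _ s _ => ?_⟩
    obtain ⟨s', hs', h1⟩ := D_dense f i s
    exact ⟨s', hs', D_open mix_le_lo (D_lo hH hf' h1)⟩
  · obtain ⟨q, hq, -, h1⟩ := hK n α.ToType (fun i => D f (Ordinal.typein (α := α.ToType) (· < ·) i))
      (by rwa [Cardinal.mk_toType]) (fun i p => D_dense _ _ _) (fun i p q hq hp => D_open hq hp) p
    refine ⟨q, hq, fun i hi s hs => ?_⟩
    obtain ⟨t, rfl⟩ := Ordinal.typein_surj (α := α.ToType) (· < ·) (o := i)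
      (by rwa [Ordinal.type_toType])
    exact h1 t s hs

/-! ### The number of values -/

/-- The possible values. -/
def Bi (n : ℕ) (f : PName P) (i : Ordinal.{0}) (q : P) (c : Cardinal.{0}) : Set c.ord.ToType :=
  {j | ∃ s ≤ q, R f i (Ordinal.typein (α := c.ord.ToType) (· < ·) j) (mix n s q)}

theorem card_Bi (hC : S_CC) (n : ℕ) (f : PName P) (i : Ordinal.{0}) (q : P) (c : Cardinal.{0}) :
    #(Bi n f i q c) ≤ bt n := by
  have h0 : ∀ j : Bi n f i q c, ∃ s ≤ q,
      R f i (Ordinal.typein (α := c.ord.ToType) (· < ·) j.1) (mix n s q) := fun j => j.2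
  choose s hs hR using h0
  have h1 : Function.Injective fun j : Bi n f i q c => mix n (s j) q := by
    intro j j' h
    have h2 := hR j'
    have h3 : mix n (s j) q = mix n (s j') q := h
    rw [← h3] at h2
    exact Subtype.ext (Ordinal.typein_injective (α := c.ord.ToType) (· < ·)
      (R_uniq (hR j) h2 le_rfl le_rfl))
  rw [← Cardinal.mk_range_eq _ h1]
  refine hC n _ ?_
  rintro _ ⟨j, rfl⟩ _ ⟨j', rfl⟩ hne
  refine mix_incomp ?_
  rintro ⟨t, ht, ht'⟩
  have h2 := R_uniq (hR j) (hR j') ht ht'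
  exact hne (by rw [Subtype.ext (Ordinal.typein_injective (α := c.ord.ToType) (· < ·) h2)])

theorem card_Bi_zero (f : PName P) (i : Ordinal.{0}) (q : P) (c : Cardinal.{0}) :
    #(Bi 0 f i q c) ≤ 1 := by
  rw [Cardinal.le_one_iff_subsingleton]
  refine ⟨fun j j' => ?_⟩
  obtain ⟨s, hs, h1⟩ := j.2
  obtain ⟨s', hs', h2⟩ := j'.2
  rw [mix_zero] at h1 h2
  exact Subtype.ext (Ordinal.typein_injective (α := c.ord.ToType) (· < ·)
    (R_uniq h1 h2 le_rfl le_rfl))

/-- The bound. -/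
def Spec (n : ℕ) (x z : PName P) (q : P) (β : Ordinal.{0}) : Prop :=
  ∀ (f : PName P) (α : Ordinal.{0}) (c : Cardinal.{0}), x = opN f (ck α) → z = ck c.ord →
    β < c.ord ∧ ∀ j < c.ord, (∃ i < α, ∃ s ≤ q, R f i j (mix n s q)) → j < β

theorem ck_inj {a b : Ordinal.{0}} (h : ck a = ck b) : a = b :=
  Ordinal.toZFSet_injective (check_injective h)

theorem exists_bound (hC : S_CC) {n : ℕ} {f : PName P} {α : Ordinal.{0}} {c : Cardinal.{0}}
    (hc : c.IsRegular) (hn : bt n < c ∨ n = 0) (hα : α.card < c) (q : P) :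
    ∃ β, Spec n (opN f (ck α)) (ck c.ord) q β := by
  classical
  let B : α.ToType → Set c.ord.ToType := fun i =>
    Bi n f (Ordinal.typein (α := α.ToType) (· < ·) i) q c
  have h1 : #(⋃ i, B i : Set c.ord.ToType) < c := by
    have h2 : ∃ μ, (∀ i, #(B i) ≤ μ) ∧ #α.ToType * μ < c := by
      rcases hn with hn | hn
      · refine ⟨bt n, fun i => card_Bi hC n f _ q c, ?_⟩
        rw [Cardinal.mk_toType]
        exact Cardinal.mul_lt_of_lt hc.aleph0_le hα hn
      · subst hn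
        refine ⟨1, fun i => card_Bi_zero f _ q c, ?_⟩
        rw [Cardinal.mk_toType, mul_one]
        exact hα
    obtain ⟨μ, h3, h4⟩ := h2
    refine lt_of_le_of_lt (Cardinal.mk_iUnion_le_sum_mk.trans
      (Cardinal.sum_le_sum _ (fun _ => μ) h3)) ?_
    rwa [Cardinal.sum_const']
  let β : Ordinal.{0} := ⨆ j : (⋃ i, B i : Set c.ord.ToType),
    Order.succ (Ordinal.typein (α := c.ord.ToType) (· < ·) j.1)
  have hlim : Order.IsSuccLimit c.ord := Cardinal.isSuccLimit_ord hc.aleph0_le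
  have hβ : β < c.ord := by
    refine Ordinal.iSup_lt_ord ?_ fun j => ?_
    · rw [hc.cof_ord]
      exact h1
    · exact hlim.succ_lt (Ordinal.typein_lt_self j.1)
  refine ⟨β, ?_⟩
  intro f' α' c' hx hz
  obtain ⟨rfl, h5⟩ := opN_inj hx
  have h6 := ck_inj h5
  subst h6
  have h7 : c = c' := Cardinal.ord_injective (ck_inj hz)
  subst h7
  refine ⟨hβ, fun j hj => ?_⟩
  rintro ⟨i, hi, s, hs, hR⟩
  obtain ⟨i, rfl⟩ := Ordinal.typein_surj (α := α.ToType) (· < ·) (o := i)
    (by rwa [Ordinal.type_toType])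
  obtain ⟨j, rfl⟩ := Ordinal.typein_surj (α := c.ord.ToType) (· < ·) (o := j)
    (by rwa [Ordinal.type_toType])
  have h8 : j ∈ ⋃ i, B i := Set.mem_iUnion.2 ⟨i, s, hs, hR⟩
  refine (Order.lt_succ _).trans_le ?_
  exact le_ciSup (f := fun j : (⋃ i, B i : Set c.ord.ToType) =>
    Order.succ (Ordinal.typein (α := c.ord.ToType) (· < ·) j.1)) (Ordinal.bddAbove_range _) ⟨j, h8⟩

/-! ### The rules -/

/-- Good conditions, as a function of names. -/
def fG (n : ℕ) (f y : PName P) (_ : P) : PName P :=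
  Sys.nm P {q | ∀ α, y = ck α → q ∈ Good n f α}

theorem fG_eq (n : ℕ) (f : PName P) (α : Ordinal.{0}) (p : P) :
    fG n f (ck α) p = Sys.nm P (Good n f α) := by
  unfold fG
  congr 1
  ext q
  constructor
  · intro h
    exact h α rfl
  · intro h α' h'
    rw [← ck_inj h']
    exact h

open Classical in
/-- The bound. -/
noncomputable def fB (n : ℕ) (x z : PName P) (q : P) : PName P :=
  if h : ∃ β, Spec n x z q β then ck h.choose else emp

/-- The conditions below a deciding mixture. -/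
def E (n : ℕ) (f : PName P) (i : Ordinal.{0}) (q : P) : Set P :=
  {t | ∃ s ≤ q, mix n s q ∈ D f i ∧ t ≤ mix n s q}

/-- Its name. -/
def fE (n : ℕ) (f y : PName P) (q : P) : PName P :=
  Sys.nm P {t | ∀ i, y = ck i → t ∈ E n f i q}

theorem fE_eq (n : ℕ) (f : PName P) (i : Ordinal.{0}) (q : P) :
    fE n f (ck i) q = Sys.nm P (E n f i q) := by
  unfold fE
  congr 1
  ext t
  constructor
  · intro h
    exact h i rfl
  · intro h i' h'
    rw [← ck_inj h']
    exact h

open Classical in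
/-- The value. -/
noncomputable def fJ (f y : PName P) (q : P) : PName P :=
  if h : ∃ j, ∃ i, y = ck i ∧ R f i j q then ck h.choose else emp

theorem fJ_eq {f : PName P} {i j : Ordinal.{0}} {q : P} (h : R f i j q) : fJ f (ck i) q = ck j := by
  have h1 : ∃ j, ∃ i', ck i = ck i' ∧ R f i' j q := ⟨j, i, rfl, h⟩
  unfold fJ
  rw [dif_pos h1]
  obtain ⟨i', hi', h2⟩ := h1.choose_spec
  rw [← ck_inj hi'] at h2
  rw [R_uniq h2 h le_rfl le_rfl]

end Bnd

open Bnd in
theorem bnd_main (hC : S_CC) (hK : S_KEY) (hH : S_HOM) (hO : S_ORD) : S_BND := by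
  refine Holds.of hO (Set.range (fun n => UU.rl2 (fG n)) ∪ (Set.range (fun n => UU.rl2 (fB n)) ∪
    (Set.range (fun n => UU.rl2 (fE n)) ∪ {UU.rl2 fJ})))
    ((Set.countable_range _).union ((Set.countable_range _).union ((Set.countable_range _).union
      (Set.countable_singleton _)))) ?_
  intro π hπ hcl hord f α c n k hf hfs hfk hα hc hreg hn hcard hk hfun
  -- a good condition
  obtain ⟨m, hm⟩ : ∃ m, π.g m ∈ Good n f α := by
    have h1 : fG n f (ck α) (π.g 0) ∈ π.N :=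
      hπ.rl2 (Or.inl ⟨n, rfl⟩) hf hα (π.gC 0)
    rw [fG_eq] at h1
    obtain ⟨m, h2 | h2⟩ := gen_nm h1 fun r hr s hs => Good_open hr hs
    · exact ⟨m, h2⟩
    · obtain ⟨r, hr, h3⟩ := Good_dense hK hH hfk hk (π.g m)
      exact absurd h3 (h2 r hr)
  -- the bound
  have hex := exists_bound hC (f := f) hreg hn hcard (π.g m)
  have h1 : fB n (opN f (ck α)) (ck c.ord) (π.g m) ∈ π.N :=
    hπ.rl2 (Or.inr (Or.inl ⟨n, rfl⟩)) (π.opN_mem hf hα) hc (π.gC m)
  unfold fB at h1
  rw [dif_pos hex] at h1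
  obtain ⟨hβ, hβ'⟩ := hex.choose_spec f α c rfl rfl
  refine ⟨hex.choose, hβ, h1, fun x y hxy => ?_⟩
  have h2 := hfun.1 hxy
  rw [ZFSet.pair_mem_prod] at h2
  obtain ⟨i, hi, hiN, rfl⟩ := (hord.mem α hα x).1 h2.1
  obtain ⟨j, hj, hjN, rfl⟩ := (hord.mem c.ord hc y).1 h2.2
  rw [hord.lt j _ hjN h1]
  refine hβ' j hj ⟨i, hi, ?_⟩
  -- the value is decided
  have hE : fE n f (ck i) (π.g m) ∈ π.N :=
    hπ.rl2 (Or.inr (Or.inr (Or.inl ⟨n, rfl⟩))) hf hiN (π.gC m)
  rw [fE_eq] at hE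
  obtain ⟨k', hk'⟩ : ∃ k', π.g k' ∈ E n f i (π.g m) := by
    obtain ⟨k', h3 | h3⟩ := gen_nm hE fun r ⟨s, hs, hs', hs''⟩ t ht =>
      ⟨s, hs, hs', ht.trans hs''⟩
    · exact ⟨k', h3⟩
    · exfalso
      obtain ⟨s', hs', h4⟩ := hm i hi (π.g (max k' m)) (π.g_le_right _ _)
      have h5 : s' ≤ π.g m := hs'.trans (π.g_le_right _ _)
      exact h3 s' (hs'.trans (π.g_le_left _ _)) ⟨s', h5, h4, le_mix h5⟩
  obtain ⟨s, hs, hsD, hks⟩ := hk'
  -- the function has this value
  have h3 : ∃ k1, FM f i j (π.g k1) := by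
    refine (π.val_mem_iff (π.opN_mem hiN hjN) hf).1 ?_
    rw [π.val_opN hiN hjN]
    exact hxy
  obtain ⟨k1, h3⟩ := h3
  rcases hsD with ⟨j', hj'⟩ | h4
  · have h5 := hj'.mono hks
    have h6 : fJ f (ck i) (π.g k') ∈ π.N :=
      hπ.rl2 (Or.inr (Or.inr (Or.inr rfl))) hf hiN (π.gC k')
    rw [fJ_eq h5] at h6
    have h7 : pair (π.val (ck i)) (π.val (ck j')) ∈ π.val f := by
      rw [← π.val_opN hiN h6]
      exact (π.val_mem_iff (π.opN_mem hiN h6) hf).2 ⟨k', h5.1⟩
    obtain ⟨w, -, hw⟩ := hfun.2 _ h2.1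
    have h8 : π.val (ck j') = π.val (ck j) := (hw _ h7).trans (hw _ hxy).symm
    have h9 := hord.inj j' j h6 hjN h8
    subst h9
    exact ⟨s, hs, hj'⟩
  · exact absurd (h3.mono (π.g_le_right k' k1)) (h4 _ ((π.g_le_left k' k1).trans hks) j)

end Pool.Agent.R602.UU
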