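import Pool.Agent.R602.UU.Defs

/-!
# Piece CC: the chain condition

The proof uses a dense family of `2 ^ κ` functions (Hewitt, Marczewski, Pondiczery) for the topology
generated by partial functions of size at most `κ`.
-/

set_option autoImplicit false
set_option linter.all false

namespace Pool.Agent.R602.UU
open Cardinal

namespace CcAux

/-- value of the function coded by `q` -/
def gf {K Y : Type} (Φ : Y → ((K → Bool) → Bool)) (q : (K → (K → Bool)) × (K → Option (K → Bool)))
    (y : Y) : Prop := ∃ k, q.2 k = some (fun j => Φ y (q.1 j))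

theorem dense_fun {K Y : Type} [Infinite K] (Φ : Y → ((K → Bool) → Bool))
    (hΦ : Function.Injective Φ) (s : Y → Option Bool) (hs : #{y // s y ≠ none} ≤ #K) :
    ∃ q : (K → (K → Bool)) × (K → Option (K → Bool)),
      (∀ y, s y = some true → gf Φ q y) ∧ (∀ y, s y = some false → ¬ gf Φ q y) := by
  classical
  obtain ⟨ε⟩ : Nonempty ({y // s y ≠ none} ↪ K) := (Cardinal.le_def _ _).1 hs
  have hpair : #({y // s y ≠ none} × {y // s y ≠ none}) ≤ #K := by
    simp only [Cardinal.mk_prod, Cardinal.lift_id]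
    calc #{y // s y ≠ none} * #{y // s y ≠ none} ≤ #K * #K := mul_le_mul' hs hs
      _ = #K := Cardinal.mul_eq_self (Cardinal.infinite_iff.1 inferInstance)
  obtain ⟨ε2⟩ : Nonempty (({y // s y ≠ none} × {y // s y ≠ none}) ↪ K) :=
    (Cardinal.le_def _ _).1 hpair
  let z : ({y // s y ≠ none} × {y // s y ≠ none}) → (K → Bool) := fun t =>
    if h : ∃ w, Φ t.1.1 w ≠ Φ t.2.1 w then h.choose else fun _ => true
  have hz : ∀ a b : {y // s y ≠ none}, a ≠ b → Φ a.1 (z (a, b)) ≠ Φ b.1 (z (a, b)) := by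
    intro a b hab
    have h : ∃ w, Φ a.1 w ≠ Φ b.1 w := by
      by_contra hc
      push Not at hc
      exact hab (Subtype.ext (hΦ (funext hc)))
    have h1 : z (a, b) = h.choose := dif_pos h
    rw [h1]
    exact h.choose_spec
  let ζ : K → (K → Bool) := Function.extend ε2 z (fun _ _ => true)
  let T : K → Option (K → Bool) := Function.extend ε
    (fun y => if s y.1 = some true then some (fun j => Φ y.1 (ζ j)) else none) (fun _ => none)
  have hTε : ∀ y, T (ε y) = if s y.1 = some true then some (fun j => Φ y.1 (ζ j)) else none :=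
    fun y => ε.injective.extend_apply _ _ y
  refine ⟨(ζ, T), ?_, ?_⟩
  · intro y hy
    have hy' : s y ≠ none := by rw [hy]; simp
    refine ⟨ε ⟨y, hy'⟩, ?_⟩
    show T (ε ⟨y, hy'⟩) = _
    rw [hTε, if_pos hy]
  · rintro y hy ⟨k, hk⟩
    have hy' : s y ≠ none := by rw [hy]; simp
    change T k = some (fun j => Φ y (ζ j)) at hk
    by_cases hke : ∃ a, ε a = k
    · obtain ⟨a, rfl⟩ := hke
      rw [hTε] at hk
      by_cases ha : s a.1 = some true
      · rw [if_pos ha] at hk
        have h1 : (fun j => Φ a.1 (ζ j)) = fun j => Φ y (ζ j) := Option.some.inj hk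
        have hne : a ≠ ⟨y, hy'⟩ := by
          rintro rfl
          rw [hy] at ha
          cases ha
        have h2 := congrFun h1 (ε2 (a, ⟨y, hy'⟩))
        have h3 : ζ (ε2 (a, ⟨y, hy'⟩)) = z (a, ⟨y, hy'⟩) := ε2.injective.extend_apply _ _ _
        simp only [h3] at h2
        exact hz a ⟨y, hy'⟩ hne h2
      · rw [if_neg ha] at hk
        cases hk
    · have h1 : T k = none := Function.extend_apply' _ _ _ hke
      rw [h1] at hk
      cases hk

theorem cc_abs {K Y I : Type} [Infinite K] (f : I → Y → Option Bool)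
    (hsz : ∀ i, #{y // f i y ≠ none} ≤ #K)
    (hinc : ∀ i j, i ≠ j → ∃ y b, f i y = some b ∧ f j y = some (!b)) : #I ≤ 2 ^ #K := by
  classical
  by_contra h
  rw [not_le] at h
  have hK : ℵ₀ ≤ #K := Cardinal.infinite_iff.1 inferInstance
  obtain ⟨J, hJ⟩ := (Cardinal.le_mk_iff_exists_set).1 (Order.succ_le_of_lt h)
  let Y' := {y : Y // ∃ i ∈ J, f i y ≠ none}
  have hY1 : #Y' ≤ #(Σ i : J, {y // f i.1 y ≠ none}) := by
    apply Cardinal.mk_le_of_surjective (f := fun t : (Σ i : J, {y // f i.1 y ≠ none}) =>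
      (⟨t.2.1, t.1.1, t.1.2, t.2.2⟩ : Y'))
    rintro ⟨y, i, hi, hy⟩
    exact ⟨⟨⟨i, hi⟩, ⟨y, hy⟩⟩, rfl⟩
  have hlt : (2 : Cardinal.{0}) ^ #K < 2 ^ ((2 : Cardinal.{0}) ^ #K) := Cardinal.cantor _
  have hKK : #K ≤ 2 ^ ((2 : Cardinal.{0}) ^ #K) := ((Cardinal.cantor #K).le).trans hlt.le
  have hY2 : #(Σ i : J, {y // f i.1 y ≠ none}) ≤ 2 ^ ((2 : Cardinal.{0}) ^ #K) := by
    rw [Cardinal.mk_sigma]
    calc Cardinal.sum (fun i : J => #{y // f i.1 y ≠ none})
        ≤ Cardinal.sum (fun _ : J => #K) := Cardinal.sum_le_sum _ _ (fun i => hsz i.1)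
      _ = #J * #K := by rw [Cardinal.sum_const']
      _ ≤ 2 ^ ((2 : Cardinal.{0}) ^ #K) * 2 ^ ((2 : Cardinal.{0}) ^ #K) := by
          apply mul_le_mul' _ hKK
          rw [hJ]
          exact Order.succ_le_of_lt hlt
      _ = 2 ^ ((2 : Cardinal.{0}) ^ #K) := Cardinal.mul_eq_self (hK.trans hKK)
  have hcard : #((K → Bool) → Bool) = 2 ^ ((2 : Cardinal.{0}) ^ #K) := by
    simp
  obtain ⟨Φ⟩ : Nonempty (Y' ↪ ((K → Bool) → Bool)) := by
    rw [← Cardinal.le_def, hcard]
    exact hY1.trans hY2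
  have hq : ∀ i : J, ∃ q : (K → (K → Bool)) × (K → Option (K → Bool)),
      (∀ y : Y', f i.1 y.1 = some true → gf Φ q y) ∧
      (∀ y : Y', f i.1 y.1 = some false → ¬ gf Φ q y) := by
    intro i
    apply dense_fun Φ Φ.injective (fun y : Y' => f i.1 y.1)
    refine le_trans ?_ (hsz i.1)
    exact Cardinal.mk_le_of_injective (f := fun t : {y : Y' // f i.1 y.1 ≠ none} =>
      (⟨t.1.1, t.2⟩ : {y // f i.1 y ≠ none})) (by
        intro a b hab
        have h1 : a.1.1 = b.1.1 := congrArg (fun t : {y // f i.1 y ≠ none} => t.1) hab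
        exact Subtype.ext (Subtype.ext h1))
  choose q hq1 hq2 using hq
  have hinj : Function.Injective q := by
    intro i j hij
    by_contra hne
    obtain ⟨y, b, h1, h2⟩ := hinc i.1 j.1 (fun h => hne (Subtype.ext h))
    have hy : ∃ i ∈ J, f i y ≠ none := ⟨i.1, i.2, by rw [h1]; simp⟩
    cases b
    · have h3 := hq2 i ⟨y, hy⟩ h1
      have h4 := hq1 j ⟨y, hy⟩ h2
      rw [hij] at h3
      exact h3 h4
    · have h3 := hq1 i ⟨y, hy⟩ h1
      have h4 := hq2 j ⟨y, hy⟩ h2
      rw [hij] at h3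
      exact h4 h3
  have hle := Cardinal.mk_le_of_injective hinj
  have hQ : #((K → (K → Bool)) × (K → Option (K → Bool))) ≤ 2 ^ #K := by
    have h1 : #(K → (K → Bool)) = 2 ^ #K := by
      simp only [Cardinal.mk_pi, Cardinal.prod_const, Cardinal.lift_id, Cardinal.mk_bool]
      rw [← Cardinal.power_mul, Cardinal.mul_eq_self hK]
    have h2 : #(K → Option (K → Bool)) ≤ 2 ^ #K := by
      have h3 : #(Option (K → Bool)) ≤ 2 ^ #K := by
        rw [Cardinal.mk_option]
        have h4 : #(K → Bool) = 2 ^ #K := by simp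
        rw [h4]
        exact (Cardinal.add_le_of_le (hK.trans (Cardinal.cantor _).le) le_rfl
          (Cardinal.one_le_aleph0.trans (hK.trans (Cardinal.cantor _).le)))
      calc #(K → Option (K → Bool)) = #(Option (K → Bool)) ^ #K := by simp
        _ ≤ (2 ^ #K) ^ #K := Cardinal.power_le_power_right h3
        _ = 2 ^ #K := by rw [← Cardinal.power_mul, Cardinal.mul_eq_self hK]
    rw [Cardinal.mk_prod, Cardinal.lift_id, Cardinal.lift_id, h1]
    calc 2 ^ #K * #(K → Option (K → Bool)) ≤ 2 ^ #K * 2 ^ #K := mul_le_mul_right h2 _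
      _ = 2 ^ #K := Cardinal.mul_eq_self (hK.trans (Cardinal.cantor _).le)
  have := hle.trans hQ
  rw [hJ] at this
  exact absurd this (not_le.2 (Order.lt_succ _))

end CcAux

variable [Base]

theorem bt_mono {m n : ℕ} (h : m ≤ n) : bt m ≤ bt n := by
  induction h with
  | refl => exact le_rfl
  | step _ ih => exact ih.trans (bt_lt_succ _).le

theorem cc_main : S_CC := by
  intro n A hA
  cases n with
  | zero =>
    have h1 : A.Subsingleton := by
      intro r hr r' hr'
      by_contra hne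
      obtain ⟨m, hm, -⟩ := hA r hr r' hr' hne
      exact absurd hm (Nat.not_lt_zero m)
    have h2 : #A ≤ 1 := Cardinal.mk_le_one_iff_set_subsingleton.2 h1
    exact h2.trans (Cardinal.one_le_aleph0.trans (aleph0_le_bt 0))
  | succ n =>
    show #A ≤ 2 ^ bt n
    have hK : #((bt n).out) = bt n := Cardinal.mk_out _
    haveI : Infinite (bt n).out := by
      rw [Cardinal.infinite_iff, hK]
      exact aleph0_le_bt n
    rw [← hK]
    apply CcAux.cc_abs (K := (bt n).out) (Y := Fin (n + 1) × X) (I := A)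
      (fun r y => r.1.1 y.1 y.2)
    · intro r
      have h1 : ∀ m : Fin (n + 1), Nonempty ({x : X // r.1.1 m x ≠ none} ↪ (bt n).out) := by
        intro m
        rw [← Cardinal.le_def, hK]
        exact (r.1.2 m).trans (bt_mono (Nat.lt_succ_iff.1 m.2))
      let e : ∀ m : Fin (n + 1), {x : X // r.1.1 m x ≠ none} ↪ (bt n).out := fun m => (h1 m).some
      have h2 : #{y : Fin (n + 1) × X // r.1.1 y.1 y.2 ≠ none} ≤ #(Fin (n + 1) × (bt n).out) := by
        apply Cardinal.mk_le_of_injective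
          (f := fun t => ((t.1.1, e t.1.1 ⟨t.1.2, t.2⟩) : Fin (n + 1) × (bt n).out))
        rintro ⟨⟨m, x⟩, hx⟩ ⟨⟨m', x'⟩, hx'⟩ hab
        have h3 : m = m' := congrArg Prod.fst hab
        subst h3
        have h4 : e m ⟨x, hx⟩ = e m ⟨x', hx'⟩ := congrArg Prod.snd hab
        have h5 := (e m).injective h4
        have h6 : x = x' := congrArg Subtype.val h5
        subst h6
        rfl
      refine h2.trans ?_
      rw [Cardinal.mk_prod, Cardinal.lift_id, Cardinal.lift_id, hK]
      have h7 : #(Fin (n + 1)) ≤ bt n := by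
        rw [Cardinal.mk_fin]
        exact (Cardinal.natCast_lt_aleph0.le).trans (aleph0_le_bt n)
      calc #(Fin (n + 1)) * bt n ≤ bt n * bt n := mul_le_mul' h7 le_rfl
        _ = bt n := Cardinal.mul_eq_self (aleph0_le_bt n)
    · intro i j hij
      obtain ⟨m, hm, x, b, h1, h2⟩ := hA i.1 i.2 j.1 j.2 (fun h => hij (Subtype.ext h))
      exact ⟨(⟨m, hm⟩, x), b, h1, h2⟩

end Pool.Agent.R602.UU
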