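import Pool.Agent.R602.UU.Defs

/-!
# The infinite cardinals of the model
-/

set_option autoImplicit false
set_option linter.all false

namespace Pool.Agent.R602.UU

open Pool.Agent.W868 Pool.Agent.W868.PName Pool.Agent.R598.SY Cardinal
open ZFSet (pair)

variable [Base]

namespace ClsAux

theorem exists_bt (c : Cardinal.{0}) (h0 : ¬ c ≤ bt 0) (hl : ¬ lam ≤ c) (hk : ¬ ∃ n, c = kp n) :
    ∃ m, kp m < c ∧ c ≤ bt (m + 1) := by
  classical
  have h1 : ∃ n, c ≤ bt n := by
    by_contra hcon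
    push Not at hcon
    apply hl
    exact ciSup_le' fun n => (hcon n).le
  have h2 := Nat.find_spec h1
  rcases hn : Nat.find h1 with _ | m
  · rw [hn] at h2
    exact absurd h2 h0
  · rw [hn] at h2
    have h3 : ¬ c ≤ bt m := Nat.find_min h1 (by omega)
    refine ⟨m, lt_of_le_of_ne ?_ (fun e => hk ⟨m, e.symm⟩), h2⟩
    exact Order.succ_le_of_lt (not_le.1 h3)

end ClsAux

open ClsAux in
theorem cls_main (hO : S_ORD) (hG : S_GR) (hL : S_COL) (hT : S_CTM) : S_CLS := by
  refine ((Holds.and hO hG).and hL).of ∅ Set.countable_empty fun π _ hc h => ?_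
  obtain ⟨⟨O, Gp⟩, L⟩ := h
  intro κ hκ
  obtain ⟨hκM, hκo, hκω, hκi⟩ := hκ
  obtain ⟨a, haN, rfl⟩ := O.surj κ hκM hκo
  have hωa : Ordinal.omega0 ≤ a := by
    by_contra hlt
    rw [not_le] at hlt
    have h1 : π.val (ck a) ∈ π.val (ck Ordinal.omega0) :=
      (O.lt a Ordinal.omega0 haN O.om.1).2 hlt
    rw [O.om.2] at h1
    exact lt_irrefl _ ((O.lt a a haN haN).1 (hκω h1))
  have hcN : ck a.card.ord ∈ π.N := Gp.cd a haN
  have haeq : a = a.card.ord := by
    rcases (Cardinal.ord_card_le a).lt_or_eq with hlt | heq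
    · exfalso
      have h1 : π.val (ck a.card.ord) ∈ π.val (ck a) := (O.lt _ _ hcN haN).2 hlt
      exact hκi _ h1 (Gp.inj a a.card.ord haN hcN (by rw [Cardinal.card_ord]))
    · exact heq.symm
  refine ⟨a.card, ?_, hcN, congrArg (fun b => π.val (ck b)) haeq, ?_⟩
  · have := Ordinal.card_le_card hωa
    rwa [Ordinal.card_omega0] at this
  · by_contra hcon
    push Not at hcon
    obtain ⟨h0, hk, hl⟩ := hcon
    obtain ⟨m, hm1, hm2⟩ := exists_bt a.card (not_le.2 h0) (not_le.2 hl)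
      (by rintro ⟨n, hn⟩; exact hk n hn)
    obtain ⟨f, hfM, hf⟩ := L m
    have hkN := Gp.kp m
    have hbN := Gp.bt (m + 1)
    have hlt : (kp m).ord < a := by
      rw [haeq]
      exact Cardinal.ord_lt_ord.2 hm1
    have hmem : π.val (ck (kp m).ord) ∈ π.val (ck a) := (O.lt _ _ hkN haN).2 hlt
    have hsub : π.val (ck a) ⊆ π.val (ck (bt (m + 1)).ord) := by
      intro z hz
      rw [O.mem a haN] at hz
      obtain ⟨b, hb, hbN', rfl⟩ := hz
      refine (O.lt _ _ hbN' hbN).2 (hb.trans_le ?_)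
      rw [haeq]
      exact Cardinal.ord_le_ord.2 hm2
    obtain ⟨g, hgM, hg⟩ := (hT (sys.Ms π) (isZF hc)).1 f hfM _ (O.ms _ hbN) _ (O.ms _ hkN) _
      hκM hf hsub
    exact hκi _ hmem ⟨g, hgM, hg⟩

end Pool.Agent.R602.UU
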