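import Pool.Agent.R602.UU.Defs

/-!
# Common lemmas for the pieces SUB, BND and COL
-/

set_option autoImplicit false
set_option linter.all false

namespace Pool.Agent.R602.UU.Cm796

open Pool.Agent.W868 Pool.Agent.W868.PName Pool.Agent.R598.SY Cardinal
open ZFSet (pair)

variable [Base]

/-! ### Decoding names -/

/-- The ordinal of a name. -/
noncomputable def oOf (y : PName P) : Ordinal.{0} := (dec y).rank

noncomputable def cOf (y : PName P) : Cardinal.{0} := (oOf y).card

theorem oOf_ck (a : Ordinal.{0}) : oOf (ck a) = a := by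
  unfold oOf ck
  rw [dec_check, Ordinal.rank_toZFSet]

theorem cOf_ck (c : Cardinal.{0}) : cOf (ck c.ord) = c := by
  unfold cOf
  rw [oOf_ck, Cardinal.card_ord]

open Classical in
noncomputable def fsN (x : PName P) : PName P :=
  if h : ∃ a b, x = opN a b then h.choose else emp

open Classical in
noncomputable def snN (x : PName P) : PName P :=
  if h : ∃ b a, x = opN a b then h.choose else emp

theorem fsN_opN (a b : PName P) : fsN (opN a b) = a := by
  have h : ∃ a' b', opN a b = opN a' b' := ⟨a, b, rfl⟩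
  unfold fsN
  rw [dif_pos h]
  obtain ⟨b', hb⟩ := h.choose_spec
  exact (opN_inj hb).1.symm

theorem snN_opN (a b : PName P) : snN (opN a b) = b := by
  have h : ∃ b' a', opN a b = opN a' b' := ⟨b, a, rfl⟩
  unfold snN
  rw [dif_pos h]
  obtain ⟨b', hb⟩ := h.choose_spec
  exact (opN_inj hb).2.symm

/-! ### Conditions -/

theorem mix_lt {n m : ℕ} (h : m < n) (r p : P) (x : X) : (mix n r p).1 m x = r.1 m x := by
  change (if m < n then r.1 m x else p.1 m x) = _
  rw [if_pos h]

theorem mix_ge {n m : ℕ} (h : ¬ m < n) (r p : P) (x : X) : (mix n r p).1 m x = p.1 m x := by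
  change (if m < n then r.1 m x else p.1 m x) = _
  rw [if_neg h]

theorem lo_lt {n m : ℕ} (h : m < n) (p : P) (x : X) : (lo n p).1 m x = p.1 m x := by
  change (if m < n then p.1 m x else none) = _
  rw [if_pos h]

theorem lo_ge {n m : ℕ} (h : ¬ m < n) (p : P) (x : X) : (lo n p).1 m x = none := by
  change (if m < n then p.1 m x else none) = _
  rw [if_neg h]

theorem pext {p q : P} (h : ∀ m x, p.1 m x = q.1 m x) : p = q :=
  Subtype.ext (funext fun m => funext fun x => h m x)

theorem lo_lo (n : ℕ) (p : P) : lo n (lo n p) = lo n p := by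
  refine pext fun m x => ?_
  by_cases h : m < n
  · rw [lo_lt h]
  · rw [lo_ge h, lo_ge h]

theorem mix_lo (n : ℕ) (r p : P) : mix n (lo n r) p = mix n r p := by
  refine pext fun m x => ?_
  by_cases h : m < n
  · rw [mix_lt h, mix_lt h, lo_lt h]
  · rw [mix_ge h, mix_ge h]

theorem le_mix {n : ℕ} {t r p : P} (h : t ≤ r) (h' : t ≤ p) : t ≤ mix n r p := by
  intro m x b hb
  by_cases hm : m < n
  · rw [mix_lt hm] at hb
    exact h m x b hb
  · rw [mix_ge hm] at hb
    exact h' m x b hb

theorem mix_mono_right {n : ℕ} {s r q : P} (h : r ≤ q) : mix n s r ≤ mix n s q := by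
  intro m x b hb
  by_cases hm : m < n
  · rw [mix_lt hm] at hb ⊢
    exact hb
  · rw [mix_ge hm] at hb ⊢
    exact h m x b hb

theorem mix_mono_left {n : ℕ} {s s' q : P} (h : s' ≤ s) : mix n s' q ≤ mix n s q := by
  intro m x b hb
  by_cases hm : m < n
  · rw [mix_lt hm] at hb ⊢
    exact h m x b hb
  · rw [mix_ge hm] at hb ⊢
    exact hb

theorem mix_le_lo {n : ℕ} (s q : P) : mix n s q ≤ lo n s := by
  intro m x b hb
  by_cases hm : m < n
  · rw [lo_lt hm] at hb
    rw [mix_lt hm]
    exact hb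
  · rw [lo_ge hm] at hb
    cases hb

/-- The union of two conditions. -/
def un (r s : P) : P := ⟨fun m x => (r.1 m x).orElse fun _ => s.1 m x, fun m => by
  have h1 : {x | (r.1 m x).orElse (fun _ => s.1 m x) ≠ none} ⊆
      {x | r.1 m x ≠ none} ∪ {x | s.1 m x ≠ none} := by
    intro x hx
    by_cases h : r.1 m x = none
    · right
      intro h2
      refine hx ?_
      change (r.1 m x).orElse (fun _ => s.1 m x) = none
      rw [h, h2]
      rfl
    · exact Or.inl h
  refine (Cardinal.mk_le_mk_of_subset h1).trans ((Cardinal.mk_union_le _ _).trans ?_)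
  have h2 := add_le_add (r.2 m) (s.2 m)
  rw [Cardinal.add_eq_self (aleph0_le_bt m)] at h2
  exact h2⟩

theorem un_some {r s : P} {m : ℕ} {x : X} {b : Bool} (h : r.1 m x = some b) :
    (un r s).1 m x = some b := by
  change (r.1 m x).orElse (fun _ => s.1 m x) = _
  rw [h]
  rfl

theorem un_none {r s : P} {m : ℕ} {x : X} (h : r.1 m x = none) :
    (un r s).1 m x = s.1 m x := by
  change (r.1 m x).orElse (fun _ => s.1 m x) = _
  rw [h]
  rfl

theorem un_le_left (r s : P) : un r s ≤ r := fun m x b h => un_some h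

theorem un_le_right {r s : P}
    (h : ∀ m x b, r.1 m x = some b → s.1 m x ≠ some (!b)) : un r s ≤ s := by
  intro m x b hb
  cases hr : r.1 m x with
  | none => rw [un_none hr, hb]
  | some b' =>
    rw [un_some hr]
    have h1 := h m x b' hr
    rw [hb] at h1
    cases b <;> cases b' <;> simp_all

/-! ### Good conditions -/

/-- The open dense sets can be met by changing the coordinates less than `n`. -/
def Good (n : ℕ) {a : Type} (D : a → Set P) : Set P :=
  {q | ∀ i, ∀ s ≤ q, ∃ s' ≤ s, mix n s' q ∈ D i}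

theorem good_open {n : ℕ} {a : Type} {D : a → Set P}
    (hD : ∀ i p q, q ≤ p → p ∈ D i → q ∈ D i) {q r : P} (hq : q ∈ Good n D) (hr : r ≤ q) :
    r ∈ Good n D := by
  intro i s hs
  obtain ⟨s', hs', h⟩ := hq i s (hs.trans hr)
  exact ⟨s', hs', hD i _ _ (mix_mono_right hr) h⟩

theorem good_dense (hK : S_KEY) {n : ℕ} {a : Type} {D : a → Set P} (ha : #a ≤ bt n)
    (hd : ∀ i, ∀ p, ∃ q ≤ p, q ∈ D i) (hD : ∀ i p q, q ≤ p → p ∈ D i → q ∈ D i) (p : P) :
    ∃ q ≤ p, q ∈ Good n D := by
  obtain ⟨q, hq, -, h⟩ := hK n a D ha hd hD p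
  exact ⟨q, hq, h⟩

/-- The conditions below a condition that is obtained by a change of `q` and is in `D`. -/
def Es (n : ℕ) (D : Set P) (q : P) : Set P :=
  {t | t ≤ q ∧ ∃ r, lo n r = r ∧ t ≤ r ∧ mix n r q ∈ D}

theorem es_open {n : ℕ} {D : Set P} {q : P} : ∀ r ∈ Es n D q, ∀ s ≤ r, s ∈ Es n D q := by
  rintro t ⟨h1, r, h2, h3, h4⟩ s hs
  exact ⟨hs.trans h1, r, h2, hs.trans h3, h4⟩

/-- The generic filter meets `Es`. -/
theorem es_meet {π : Pkg P} {n : ℕ} {a : Type} {D : a → Set P} {m : ℕ} (i : a)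
    (hN : Sys.nm P (Es n (D i) (π.g m)) ∈ π.N) (hg : π.g m ∈ Good n D) :
    ∃ k, π.g k ∈ Es n (D i) (π.g m) := by
  obtain ⟨k, h | h⟩ := gen_nm hN es_open
  · exact ⟨k, h⟩
  · exfalso
    obtain ⟨s', hs', h1⟩ := hg i _ (π.g_le_right k m)
    refine h s' (hs'.trans (π.g_le_left k m)) ⟨hs'.trans (π.g_le_right k m), lo n s', lo_lo n s',
      le_lo n s', ?_⟩
    rwa [mix_lo]

/-- The ordinal of an index. -/
noncomputable def ti {o : Ordinal.{0}} (i : o.ToType) : Ordinal.{0} :=
  Ordinal.typein (α := o.ToType) (· < ·) i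

theorem ti_lt {o : Ordinal.{0}} (i : o.ToType) : ti i < o := by
  have h := Ordinal.typein_lt_type (α := o.ToType) (· < ·) i
  rwa [Ordinal.type_toType] at h

theorem exists_ti {o b : Ordinal.{0}} (h : b < o) : ∃ i : o.ToType, ti i = b := by
  rw [← Ordinal.type_toType o] at h
  exact Ordinal.typein_surj _ h

theorem ti_lt_ti {o : Ordinal.{0}} {i j : o.ToType} : ti i < ti j ↔ i < j :=
  Ordinal.typein_lt_typein _

theorem ti_inj {o : Ordinal.{0}} {i j : o.ToType} (h : ti i = ti j) : i = j :=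
  Ordinal.typein_injective _ h

/-- Name membership. -/
theorem mem_of_fmem {π : Pkg P} {x y : PName P} (hx : x ∈ π.N) (hy : y ∈ π.N) {k : ℕ}
    (h : Fmem x y (π.g k)) : π.val x ∈ π.val y := (π.val_mem_iff hx hy).2 ⟨k, h⟩

end Pool.Agent.R602.UU.Cm796
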