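import Pool.Agent.R602.UU.Cm796

/-!
# Collapses
-/

set_option autoImplicit false
set_option linter.all false

namespace Pool.Agent.R602.UU

open Pool.Agent.W868 Pool.Agent.W868.PName Pool.Agent.R598.SY Cardinal
open ZFSet (pair)
open Cm796

variable [Base]

namespace Col

theorem kp_le (n : ℕ) : kp n ≤ bt (n + 1) := Order.succ_le_of_lt (bt_lt_succ n)

theorem bt_le_lam (n : ℕ) : bt n ≤ lam := le_ciSup (Cardinal.bddAbove_of_small) n

theorem mk_K (c : Cardinal.{0}) : #(c.ord.ToType) = c := by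
  rw [Cardinal.mk_toType, Cardinal.card_ord]

theorem exists_io (n : ℕ) :
    ∃ f : (kp n).ord.ToType × (bt n).ord.ToType → X, Function.Injective f := by
  have h : #((kp n).ord.ToType × (bt n).ord.ToType) ≤ #X := by
    rw [Cardinal.mk_prod, Cardinal.lift_id, Cardinal.lift_id, mk_K, mk_K, mk_K]
    refine (mul_le_mul' (kp_le n) (bt_lt_succ n).le).trans ?_
    rw [Cardinal.mul_eq_self (aleph0_le_bt _)]
    exact bt_le_lam _
  obtain ⟨e⟩ := (Cardinal.le_def _ _).1 h
  exact ⟨e, e.injective⟩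

theorem exists_en (n : ℕ) :
    ∃ f : (bt (n + 1)).ord.ToType → ((bt n).ord.ToType → Bool), Function.Injective f := by
  have h : #((bt (n + 1)).ord.ToType) ≤ #((bt n).ord.ToType → Bool) := by
    rw [mk_K, Cardinal.mk_arrow, Cardinal.lift_id, Cardinal.lift_id, mk_K, Cardinal.mk_bool]
    exact le_rfl
  obtain ⟨e⟩ := (Cardinal.le_def _ _).1 h
  exact ⟨e, e.injective⟩

noncomputable def io (n : ℕ) : (kp n).ord.ToType × (bt n).ord.ToType → X := (exists_io n).choose

noncomputable def en (n : ℕ) : (bt (n + 1)).ord.ToType → ((bt n).ord.ToType → Bool) :=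
  (exists_en n).choose

theorem io_inj (n : ℕ) : Function.Injective (io n) := (exists_io n).choose_spec

theorem en_inj (n : ℕ) : Function.Injective (en n) := (exists_en n).choose_spec

/-- The row `α` is the first one that is the set with the number `s`. -/
structure Cnd (n : ℕ) (s : (bt (n + 1)).ord.ToType) (α : (kp n).ord.ToType) (p : P) : Prop where
  only : ∀ m, m ≠ n → ∀ x, p.1 m x = none
  row : ∀ β, p.1 n (io n (α, β)) = some (en n s β)
  least : ∀ α' < α, ∃ β, p.1 n (io n (α', β)) = some (!(en n s β))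

noncomputable def F (n : ℕ) : PName P :=
  PName.mk {t : ((bt (n + 1)).ord.ToType × (kp n).ord.ToType) × P // Cnd n t.1.1 t.1.2 t.2}
    (fun t => opN (ck (ti t.1.1.1)) (ck (ti t.1.1.2))) (fun t => t.1.2)

theorem el_F {n : ℕ} {z : PName P} {c : P} :
    El (F n) z c ↔ ∃ s α, z = opN (ck (ti s)) (ck (ti α)) ∧ Cnd n s α c := by
  constructor
  · rintro ⟨⟨⟨⟨s, α⟩, c'⟩, h⟩, h1, h2⟩
    change opN (ck (ti s)) (ck (ti α)) = z at h1
    change c' = c at h2
    subst h1
    subst h2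
    exact ⟨s, α, rfl, h⟩
  · rintro ⟨s, α, rfl, h⟩
    exact ⟨⟨((s, α), c), h⟩, rfl, rfl⟩

theorem act_op (g : G) (i j : Ordinal.{0}) :
    act (sys.ac g) (opN (ck i) (ck j)) = opN (ck i) (ck j) := by
  rw [act_opN (sys.top g)]
  unfold ck
  rw [act_check (sys.top g), act_check (sys.top g)]

theorem mv_fix {n : ℕ} {s : (bt (n + 1)).ord.ToType} {α : (kp n).ord.ToType} {c : P}
    (h : Cnd n s α c) {g : G} (hg : g ∈ H (n + 1)) : sys.ac g c = c := by
  rw [ac_apply]
  refine pext fun m x => ?_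
  rw [mv_val]
  by_cases hm : m = n
  · subst hm
    have h1 : g m = 1 := hg m (Nat.lt_succ_self m)
    rw [h1]
    cases c.1 m x <;> rfl
  · rw [h.only m hm]
    rfl

theorem hs_F (n : ℕ) : sys.HS (F n) := by
  refine sys.hs_iff.2 ⟨⟨H (n + 1), ⟨n + 1, rfl⟩, fun g hg p => feq_of_el fun z c => ?_⟩, ?_⟩
  · rw [el_act]
    constructor
    · rintro ⟨z', c', h, rfl, rfl⟩
      obtain ⟨s, α, rfl, hc⟩ := el_F.1 h
      have h2 : sys.ac g c' = c' := mv_fix hc hg
      rw [h2]
      exact el_F.2 ⟨s, α, act_op g _ _, hc⟩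
    · intro h
      obtain ⟨s, α, rfl, hc⟩ := el_F.1 h
      exact ⟨_, _, h, (act_op _ _ _).symm, (mv_fix hc hg).symm⟩
  · intro z c h
    obtain ⟨s, α, rfl, hc⟩ := el_F.1 h
    exact sys.hs_opN (sys.hs_check _) (sys.hs_check _)

/-! ### Density -/

open Classical in
/-- The value of the new part of the condition. -/
noncomputable def uv (n : ℕ) (s : (bt (n + 1)).ord.ToType) (α : (kp n).ord.ToType) (x : X) :
    Option Bool :=
  if h : ∃ t : (kp n).ord.ToType × (bt n).ord.ToType, t.1 ≤ α ∧ io n t = x then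
    some (en n s h.choose.2) else none

theorem uv_io (n : ℕ) (s : (bt (n + 1)).ord.ToType) {α α' : (kp n).ord.ToType} (h : α' ≤ α)
    (β : (bt n).ord.ToType) : uv n s α (io n (α', β)) = some (en n s β) := by
  have h1 : ∃ t : (kp n).ord.ToType × (bt n).ord.ToType, t.1 ≤ α ∧
      io n t = io n (α', β) := ⟨(α', β), h, rfl⟩
  unfold uv
  rw [dif_pos h1]
  have h2 := io_inj n h1.choose_spec.2
  rw [h2]

theorem iic_le (n : ℕ) (α : (kp n).ord.ToType) : #(Set.Iic α) ≤ bt n := by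
  have h1 : #(Set.Iio α) < kp n := Cardinal.mk_Iio_ord_toType α
  have h2 : #(Set.Iio α) ≤ bt n := Order.lt_succ_iff.1 h1
  have h3 : Set.Iic α ⊆ insert α (Set.Iio α) := fun x hx => (lt_or_eq_of_le hx).elim
    (fun h => Or.inr h) (fun h => Or.inl h)
  refine (Cardinal.mk_le_mk_of_subset h3).trans (Cardinal.mk_insert_le.trans ?_)
  refine (add_le_add h2 (Cardinal.one_le_aleph0.trans (aleph0_le_bt n))).trans ?_
  rw [Cardinal.add_eq_self (aleph0_le_bt n)]

theorem uv_card (n : ℕ) (s : (bt (n + 1)).ord.ToType) (α : (kp n).ord.ToType) :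
    #{x // uv n s α x ≠ none} ≤ bt n := by
  classical
  have h1 : ∀ t : {x // uv n s α x ≠ none}, ∃ r : (kp n).ord.ToType × (bt n).ord.ToType,
      r.1 ≤ α ∧ io n r = t.1 := by
    intro t
    by_contra h
    refine t.2 ?_
    unfold uv
    rw [dif_neg h]
  choose r hr1 hr2 using h1
  have h2 : #{x // uv n s α x ≠ none} ≤ #(Set.Iic α × (bt n).ord.ToType) := by
    refine Cardinal.mk_le_of_injective (f := fun t => (⟨(r t).1, hr1 t⟩, (r t).2)) ?_
    intro t t' h
    have h3 := Prod.mk.inj h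
    have h4 : (r t).1 = (r t').1 := congrArg (fun a : Set.Iic α => a.1) h3.1
    have h5 : r t = r t' := Prod.ext h4 h3.2
    refine Subtype.ext ?_
    rw [← hr2 t, ← hr2 t', h5]
  refine h2.trans ?_
  rw [Cardinal.mk_prod, Cardinal.lift_id, Cardinal.lift_id, mk_K]
  refine (mul_le_mul' (iic_le n α) le_rfl).trans ?_
  rw [Cardinal.mul_eq_self (aleph0_le_bt n)]

/-- The new part. -/
noncomputable def up (n : ℕ) (s : (bt (n + 1)).ord.ToType) (α : (kp n).ord.ToType) : P :=
  ⟨fun m x => if m = n then uv n s α x else none, fun m => by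
    by_cases hm : m = n
    · subst hm
      simp only [if_true]
      exact uv_card m s α
    · simp only [if_neg hm]
      have : IsEmpty {x : X // (none : Option Bool) ≠ none} := ⟨fun t => t.2 rfl⟩
      rw [Cardinal.mk_eq_zero]
      exact zero_le⟩

theorem up_val (n : ℕ) (s : (bt (n + 1)).ord.ToType) (α : (kp n).ord.ToType) (x : X) :
    (up n s α).1 n x = uv n s α x := if_pos rfl

theorem dense (n : ℕ) (s : (bt (n + 1)).ord.ToType) (p : P) :
    ∃ q ≤ p, ∃ α c, Cnd n s α c ∧ q ≤ c := by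
  classical
  obtain ⟨α, hα⟩ : ∃ α, ∀ β, p.1 n (io n (α, β)) = none := by
    by_contra hcon
    push Not at hcon
    choose β hβ using hcon
    have h1 : #((kp n).ord.ToType) ≤ #{x // p.1 n x ≠ none} := by
      refine Cardinal.mk_le_of_injective (f := fun α => ⟨io n (α, β α), hβ α⟩) ?_
      intro a a' h
      have h2 : io n (a, β a) = io n (a', β a') :=
        congrArg (fun t : {x // p.1 n x ≠ none} => t.1) h
      exact (Prod.mk.inj (io_inj n h2)).1
    rw [mk_K] at h1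
    exact absurd (h1.trans (p.2 n)) (not_le.2 (Order.lt_succ _))
  have hdec : ∀ α' ≤ α, ∀ β, (un p (up n s α)).1 n (io n (α', β)) ≠ none := by
    intro α' hα' β h
    cases hp : p.1 n (io n (α', β)) with
    | none =>
      rw [un_none hp, up_val, uv_io n s hα'] at h
      cases h
    | some b =>
      rw [un_some hp] at h
      cases h
  have hrow : ∀ β, (un p (up n s α)).1 n (io n (α, β)) = some (en n s β) := by
    intro β
    rw [un_none (hα β), up_val, uv_io n s le_rfl]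
  obtain ⟨a, ha, hmin⟩ := WellFounded.has_min
    (wellFounded_lt : WellFounded (α := (kp n).ord.ToType) (· < ·))
    {a | ∀ β, (un p (up n s α)).1 n (io n (a, β)) = some (en n s β)} ⟨α, hrow⟩
  have hle : a ≤ α := not_lt.1 (hmin α hrow)
  refine ⟨un p (up n s α), un_le_left _ _, a,
    cut (un p (up n s α)) (fun m x => if m = n then (un p (up n s α)).1 m x else none) ?_, ?_, ?_⟩
  · intro m x h
    by_cases hm : m = n
    · rwa [if_pos hm] at h
    · rw [if_neg hm] at h
      exact absurd rfl h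
  · refine ⟨fun m hm x => if_neg hm, fun β => ?_, fun α' hα' => ?_⟩
    · exact (if_pos rfl).trans (ha β)
    · have h1 : ¬ ∀ β, (un p (up n s α)).1 n (io n (α', β)) = some (en n s β) :=
        fun h => hmin α' h hα'
      push Not at h1
      obtain ⟨β, hβ⟩ := h1
      refine ⟨β, (if_pos rfl).trans ?_⟩
      have h2 := hdec α' (hα'.le.trans hle) β
      cases h3 : (un p (up n s α)).1 n (io n (α', β)) with
      | none => exact absurd h3 h2
      | some b =>
        rw [h3] at hβ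
        cases b <;> cases h4 : en n s β <;> simp_all
  · intro m x b h
    change (if m = n then (un p (up n s α)).1 m x else none) = some b at h
    by_cases hm : m = n
    · rwa [if_pos hm] at h
    · rw [if_neg hm] at h
      cases h

/-! ### The rules -/

def A (n : ℕ) (o : Ordinal.{0}) : Set P :=
  {q | ∃ s : (bt (n + 1)).ord.ToType, ti s = o ∧ ∃ α c, Cnd n s α c ∧ q ≤ c}

theorem a_open (n : ℕ) (o : Ordinal.{0}) : ∀ r ∈ A n o, ∀ q ≤ r, q ∈ A n o := by
  rintro r ⟨s, hs, α, c, hc, h⟩ q hq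
  exact ⟨s, hs, α, c, hc, hq.trans h⟩

open Classical in
noncomputable def aof (n : ℕ) (o : Ordinal.{0}) (q : P) : Ordinal.{0} :=
  if h : ∃ a : Ordinal.{0}, ∃ s : (bt (n + 1)).ord.ToType, ti s = o ∧
    ∃ α c, ti α = a ∧ Cnd n s α c ∧ q ≤ c then h.choose else 0

theorem aof_spec {n : ℕ} {o : Ordinal.{0}} {q : P} (h : q ∈ A n o) :
    ∃ s : (bt (n + 1)).ord.ToType, ti s = o ∧ ∃ α c, ti α = aof n o q ∧ Cnd n s α c ∧ q ≤ c := by
  have h1 : ∃ a : Ordinal.{0}, ∃ s : (bt (n + 1)).ord.ToType, ti s = o ∧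
      ∃ α c, ti α = a ∧ Cnd n s α c ∧ q ≤ c := by
    obtain ⟨s, hs, α, c, hc, h⟩ := h
    exact ⟨ti α, s, hs, α, c, rfl, hc, h⟩
  unfold aof
  rw [dif_pos h1]
  exact h1.choose_spec

noncomputable def e1 (n : ℕ) (y : PName P) : PName P := Sys.nm P (A n (oOf y))

noncomputable def e2 (n : ℕ) (y _z : PName P) (q : P) : PName P := ck (aof n (oOf y) q)

theorem e1_ck (n : ℕ) (o : Ordinal.{0}) : e1 n (ck o) = Sys.nm P (A n o) := by
  unfold e1
  rw [oOf_ck]

theorem e2_ck (n : ℕ) (o : Ordinal.{0}) (z : PName P) (q : P) :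
    e2 n (ck o) z q = ck (aof n o q) := by
  unfold e2
  rw [oOf_ck]

/-- The elements of the function. -/
theorem mem_F {π : Pkg P} {n : ℕ} {x y : ZFSet.{0}} (h : pair x y ∈ π.val (F n)) :
    ∃ s α c k, ck (ti s) ∈ π.N ∧ ck (ti α) ∈ π.N ∧ Cnd n s α c ∧ π.g k ≤ c ∧
      x = π.val (ck (ti s)) ∧ y = π.val (ck (ti α)) := by
  obtain ⟨z, hz, c, hzc, ⟨k, hk⟩, he⟩ := π.mem_val.1 h
  obtain ⟨s, α, rfl, hc⟩ := el_F.1 hzc
  have h1 := π.fst_mem hz
  have h2 := π.snd_mem hz
  rw [π.val_opN h1 h2] at he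
  obtain ⟨h3, h4⟩ := ZFSet.pair_inj.1 he
  exact ⟨s, α, c, k, h1, h2, hc, hk, h3.symm, h4.symm⟩

theorem cnd_unique {n : ℕ} {s : (bt (n + 1)).ord.ToType} {α α' : (kp n).ord.ToType} {c c' t : P}
    (h : Cnd n s α c) (h' : Cnd n s α' c') (ht : t ≤ c) (ht' : t ≤ c') : ¬ α < α' := by
  intro hlt
  obtain ⟨β, hβ⟩ := h'.least α hlt
  have h1 := ht _ _ _ (h.row β)
  have h2 := ht' _ _ _ hβ
  rw [h1] at h2
  have h3 := Option.some.inj h2
  cases h4 : en n s β <;> simp [h4] at h3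

end Col

open Col in
theorem col_main (hO : S_ORD) (hG : S_GR) : S_COL := by
  refine (hO.and hG).of (Set.range (fun n => UU.rl (e1 n)) ∪ (Set.range (fun n => UU.rl2 (e2 n)) ∪
    Set.range (fun n => UU.rl (fun _ => F n)))) ((Set.countable_range _).union
      ((Set.countable_range _).union (Set.countable_range _))) ?_
  rintro π hcl hcd ⟨hP, hR⟩ n
  have hFN : F n ∈ π.N := hcl.rl (f := fun _ => F n) (Or.inr (Or.inr ⟨n, rfl⟩)) (emp_N π)
  have hbN := hR.bt (n + 1)
  have hkN := hR.kp n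
  refine ⟨π.val (F n), ⟨F n, ⟨hFN, hs_F n⟩, rfl⟩, ⟨?_, ?_⟩, ?_⟩
  · intro w hw
    obtain ⟨z, hz, c, hzc, ⟨k, hk⟩, he⟩ := π.mem_val.1 hw
    obtain ⟨s, α, rfl, hc⟩ := el_F.1 hzc
    have h1 := π.fst_mem hz
    have h2 := π.snd_mem hz
    rw [π.val_opN h1 h2] at he
    rw [← he, ZFSet.pair_mem_prod]
    exact ⟨(hP.lt _ _ h1 hbN).2 (ti_lt s), (hP.lt _ _ h2 hkN).2 (ti_lt α)⟩
  · intro z hz
    obtain ⟨o, ho, hoN, rfl⟩ := (hP.mem _ hbN z).1 hz
    obtain ⟨s, rfl⟩ := exists_ti ho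
    have h1 : Sys.nm P (A n (ti s)) ∈ π.N := by
      have h := hcl.rl (f := e1 n) (Or.inl ⟨n, rfl⟩) hoN
      rwa [e1_ck] at h
    obtain ⟨k, hk⟩ : ∃ k, π.g k ∈ A n (ti s) := by
      obtain ⟨k, h | h⟩ := gen_nm h1 (a_open n _)
      · exact ⟨k, h⟩
      · exfalso
        obtain ⟨q, hq, α, c, hc, hqc⟩ := dense n s (π.g k)
        exact h q hq ⟨s, rfl, α, c, hc, hqc⟩
    obtain ⟨s', hs', α, c, hα, hc, hqc⟩ := aof_spec hk
    obtain rfl := ti_inj hs'
    have h2 : ck (ti α) ∈ π.N := by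
      have h := hcl.rl2 (f := e2 n) (Or.inr (Or.inl ⟨n, rfl⟩)) hoN (emp_N π) (π.gC k)
      rwa [e2_ck, ← hα] at h
    refine ⟨π.val (ck (ti α)), ?_, ?_⟩
    · change pair _ _ ∈ _
      rw [← π.val_opN hoN h2]
      exact π.val_mem_val (π.opN_mem hoN h2) (el_F.2 ⟨s', α, rfl, hc⟩) hqc
    · intro w hw
      obtain ⟨s2, α2, c2, k2, hs2, hα2, hc2, hk2, h3, rfl⟩ := mem_F hw
      obtain rfl := ti_inj (hP.inj _ _ hoN hs2 h3)
      have h4 := cnd_unique hc hc2 ((π.g_le_left k k2).trans hqc) ((π.g_le_right k k2).trans hk2)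
      have h5 := cnd_unique hc2 hc ((π.g_le_right k k2).trans hk2) ((π.g_le_left k k2).trans hqc)
      rw [le_antisymm (not_lt.1 h4) (not_lt.1 h5)]
  · intro a b c ha hb
    obtain ⟨s, α, d, k, hs, hα, hd, hk, rfl, rfl⟩ := mem_F ha
    obtain ⟨s', α', d', k', hs', hα', hd', hk', rfl, h1⟩ := mem_F hb
    obtain rfl := ti_inj (hP.inj _ _ hα hα' h1)
    have h2 : s = s' := by
      refine en_inj n (funext fun β => ?_)
      have h3 := (π.g_le_left k k').trans hk _ _ _ (hd.row β)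
      have h4 := (π.g_le_right k k').trans hk' _ _ _ (hd'.row β)
      rw [h3] at h4
      exact Option.some.inj h4
    rw [h2]

end Pool.Agent.R602.UU
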