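import Pool.Agent.R602.UU.Defs

/-! Piece CRD of project UU (MP_598ba0_lc): cardinals of the model. -/

set_option autoImplicit false
set_option linter.all false

namespace Pool.Agent.R602.UU

open Pool.Agent.W868 Pool.Agent.W868.PName Pool.Agent.R598.SY Cardinal
open ZFSet (pair)

variable [Base]

/-- the cardinals that stay regular -/
def Cl' (c : Cardinal.{0}) : Prop := c ≤ bt 0 ∨ (∃ n, c = kp n) ∨ lam < c

theorem bt_le_lam' (n : ℕ) : bt n ≤ lam := by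
  unfold lam
  exact le_ciSup (Cardinal.bddAbove_range _) n

theorem aleph0_le_kp' (n : ℕ) : ℵ₀ ≤ kp n := (aleph0_le_bt n).trans (Order.le_succ _)

theorem kp_regular' (n : ℕ) : (kp n).IsRegular := Cardinal.isRegular_succ (aleph0_le_bt n)

theorem exists_bt' {c : Cardinal.{0}} (h : c < lam) : ∃ n, c < bt n := by
  unfold lam at h
  exact exists_lt_of_lt_ciSup h

/-- functions are bounded -/
theorem bounded' {π : Pkg P} (hO : OrdP π)
    (hB : ∀ (f : PName P) (α : Ordinal.{0}) (c : Cardinal.{0}) (n k : ℕ),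
      f ∈ π.N → sys.HS f → sys.Fix (H k) f → ck α ∈ π.N → ck c.ord ∈ π.N → c.IsRegular →
      (bt n < c ∨ n = 0) → α.card < c → (k ≤ n ∨ α.card ≤ bt n) →
        ZFSet.IsFunc (π.val (ck α)) (π.val (ck c.ord)) (π.val f) →
          ∃ β < c.ord, ck β ∈ π.N ∧ ∀ x y, pair x y ∈ π.val f → y ∈ π.val (ck β))
    {c : Cardinal.{0}} (hc : ck c.ord ∈ π.N) (hr : c.IsRegular) (hcl : Cl' c) :
    ∀ α ∈ π.val (ck c.ord), ∀ f ∈ sys.Ms π, ZFSet.IsFunc α (π.val (ck c.ord)) f →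
      ∃ β ∈ π.val (ck c.ord), ∀ x y, pair x y ∈ f → y ∈ β := by
  rintro α hα _ ⟨x, ⟨hx, hs⟩, rfl⟩ hf
  obtain ⟨a, ha, haN, rfl⟩ := (hO.mem _ hc α).1 hα
  obtain ⟨K, hK, hfix⟩ := hs.sym
  obtain ⟨k, rfl⟩ := hK
  have hac : a.card < c := Cardinal.lt_ord.1 ha
  have key : ∀ n, (bt n < c ∨ n = 0) → (k ≤ n ∨ a.card ≤ bt n) →
      ∃ β ∈ π.val (ck c.ord), ∀ x' y, pair x' y ∈ π.val x → y ∈ β := by
    intro n h1 h2
    obtain ⟨β, hβ, hβN, h3⟩ := hB x a c n k hx hs hfix haN hc hr h1 hac h2 hf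
    exact ⟨π.val (ck β), (hO.lt _ _ hβN hc).2 hβ, h3⟩
  rcases hcl with h | ⟨n, h⟩ | h
  · exact key 0 (Or.inr rfl) (Or.inr (hac.le.trans h))
  · refine key n (Or.inl ?_) (Or.inr ?_)
    · rw [h]
      exact Order.lt_succ _
    · rw [h] at hac
      exact Order.lt_succ_iff.1 hac
  · exact key k (Or.inl ((bt_le_lam' k).trans_lt h)) (Or.inl le_rfl)

/-- injections contradict the bound -/
theorem infcard' {π : Pkg P} (hO : OrdP π) (hZ : IsZF (sys.Ms π)) (hT : S_CTM)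
    {c : Cardinal.{0}} (h0 : ℵ₀ ≤ c) (hc : ck c.ord ∈ π.N)
    (hb : ∀ α ∈ π.val (ck c.ord), ∀ f ∈ sys.Ms π, ZFSet.IsFunc α (π.val (ck c.ord)) f →
      ∃ β ∈ π.val (ck c.ord), ∀ x y, pair x y ∈ f → y ∈ β) :
    InfCard (sys.Ms π) (π.val (ck c.ord)) := by
  have hom : ZFSet.omega ⊆ π.val (ck c.ord) := by
    intro z hz
    rw [← hO.om.2, hO.mem _ hO.om.1] at hz
    obtain ⟨b, hb, hbN, rfl⟩ := hz
    have h1 : Ordinal.omega0 ≤ c.ord := by
      rw [← Cardinal.ord_aleph0]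
      exact Cardinal.ord_le_ord.2 h0
    exact (hO.mem _ hc _).2 ⟨b, hb.trans_le h1, hbN, rfl⟩
  refine ⟨hO.ms _ hc, hO.ord _ hc, hom, ?_⟩
  rintro α hα ⟨f, hf, hinj⟩
  obtain ⟨a, ha, haN, hαe⟩ := (hO.mem _ hc α).1 hα
  have hαM : α ∈ sys.Ms π := by
    rw [← hαe]
    exact hO.ms _ haN
  obtain ⟨g, hg, hgf, hgs⟩ := (hT _ hZ).2.2 f hf _ (hO.ms _ hc) α hαM hinj
    ⟨∅, hom ZFSet.omega_zero⟩
  obtain ⟨β, hβ, hβb⟩ := hb α hα g hg hgf
  obtain ⟨y, hy⟩ := hgs β hβ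
  exact ZFSet.mem_irrefl _ (hβb y β hy)

theorem crd_main (hO : S_ORD) (hG : S_GR) (hB : S_BND) (hT : S_CTM) : S_CRD := by
  refine ((hO.and hG).and hB).of ∅ Set.countable_empty ?_
  rintro π - hcld ⟨⟨hO, hG⟩, hB⟩
  have hZ := isZF hcld
  -- regular cardinals of the classes
  have hreg : ∀ c : Cardinal.{0}, ck c.ord ∈ π.N → c.IsRegular → Cl' c →
      Regular (sys.Ms π) (π.val (ck c.ord)) := by
    intro c hc hr hcl
    have hb := bounded' hO hB hc hr hcl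
    exact ⟨infcard' hO hZ hT hr.aleph0_le hc hb, hb⟩
  intro c h0 hc
  refine ⟨?_, fun h hr => hreg c hc hr h⟩
  intro hcl
  have hom : ZFSet.omega ⊆ π.val (ck c.ord) := by
    intro z hz
    rw [← hO.om.2, hO.mem _ hO.om.1] at hz
    obtain ⟨b, hb, hbN, rfl⟩ := hz
    have h1 : Ordinal.omega0 ≤ c.ord := by
      rw [← Cardinal.ord_aleph0]
      exact Cardinal.ord_le_ord.2 h0
    exact (hO.mem _ hc _).2 ⟨b, hb.trans_le h1, hbN, rfl⟩
  refine ⟨hO.ms _ hc, hO.ord _ hc, hom, ?_⟩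
  rintro α hα ⟨f, hf, hinj⟩
  obtain ⟨a, ha, haN, rfl⟩ := (hO.mem _ hc α).1 hα
  have hac : a.card < c := Cardinal.lt_ord.1 ha
  -- a regular cardinal above `a.card`
  have hex : ∃ e : Cardinal.{0}, e ≤ c ∧ a.card < e ∧ e.IsRegular ∧ Cl' e ∧ ck e.ord ∈ π.N := by
    rcases hcl with h | ⟨n, h⟩ | h
    · rcases lt_or_ge a.card ℵ₀ with h1 | h1
      · refine ⟨ℵ₀, h0, h1, Cardinal.isRegular_aleph0, Or.inl (h0.trans h), ?_⟩
        rw [Cardinal.ord_aleph0]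
        exact hO.om.1
      · refine ⟨Order.succ a.card, Order.succ_le_of_lt hac, Order.lt_succ _,
          Cardinal.isRegular_succ h1, Or.inl ((Order.succ_le_of_lt hac).trans h), hG.sc a haN⟩
    · refine ⟨c, le_rfl, hac, ?_, Or.inr (Or.inl ⟨n, h⟩), hc⟩
      rw [h]
      exact kp_regular' n
    · rcases lt_or_ge a.card lam with h1 | h1
      · obtain ⟨n, hn⟩ := exists_bt' h1
        refine ⟨kp n, ?_, hn.trans (Order.lt_succ _), kp_regular' n, Or.inr (Or.inl ⟨n, rfl⟩),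
          hG.kp n⟩
        exact (Order.succ_le_of_lt (bt_lt_succ n)).trans ((bt_le_lam' (n + 1)).trans h)
      · refine ⟨Order.succ a.card, Order.succ_le_of_lt hac, Order.lt_succ _,
          Cardinal.isRegular_succ (((aleph0_le_bt 0).trans (bt_le_lam' 0)).trans h1),
          Or.inr (Or.inr (h1.trans_lt (Order.lt_succ _))), hG.sc a haN⟩
  obtain ⟨e, hec, hae, her, hecl, heN⟩ := hex
  obtain ⟨⟨_, _, _, hno⟩, _⟩ := hreg e heN her hecl
  have hsub : π.val (ck e.ord) ⊆ π.val (ck c.ord) := by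
    intro z hz
    obtain ⟨b, hb, hbN, rfl⟩ := (hO.mem _ heN z).1 hz
    exact (hO.mem _ hc _).2 ⟨b, hb.trans_le (Cardinal.ord_le_ord.2 hec), hbN, rfl⟩
  obtain ⟨g, hg, hgi⟩ := (hT _ hZ).1 f hf _ (hO.ms _ hc) _ (hO.ms _ haN) _ (hO.ms _ heN) hinj hsub
  exact hno _ ((hO.lt _ _ haN heN).2 (Cardinal.lt_ord.2 hae)) ⟨g, hg, hgi⟩

end Pool.Agent.R602.UU
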