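import Pool.Agent.R602.UU.Defs

/-!
# Project UU, piece CTM: injections in a transitive model of ZF
-/

set_option autoImplicit false
set_option linter.all false
set_option maxHeartbeats 4000000

namespace Pool.Agent.R602.UU

open Pool.Agent.W868 Pool.Agent.W868.PName Pool.Agent.R598.SY Cardinal
open ZFSet (pair)

namespace CTM

theorem ex {x y f a : ZFSet.{0}} (h : ZFSet.IsFunc x y f) (ha : a ∈ x) :
    ∃ b ∈ y, pair a b ∈ f := by
  obtain ⟨b, hb, -⟩ := h.2 a ha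
  exact ⟨b, (ZFSet.pair_mem_prod.1 (h.1 hb)).2, hb⟩

theorem uniq {x y f a b b' : ZFSet.{0}} (h : ZFSet.IsFunc x y f) (hb : pair a b ∈ f)
    (hb' : pair a b' ∈ f) : b = b' := by
  obtain ⟨w, -, hw⟩ := h.2 a (ZFSet.pair_mem_prod.1 (h.1 hb)).1
  rw [hw b hb, hw b' hb']

section

variable {M : Set ZFSet.{0}} (hM : IsZF M)

include hM

/-- An injection defined by a relation. -/
theorem of_rel {x y : ZFSet.{0}} (hx : x ∈ M) (hy : y ∈ M)
    {R : ZFSet.{0} → ZFSet.{0} → Prop}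
    (hR : Dfn M M fun w : Fin 2 → ZFSet.{0} => R (w 0) (w 1))
    (h1 : ∀ a ∈ x, ∃ b ∈ y, R a b) (h2 : ∀ a ∈ x, ∀ b ∈ y, ∀ b' ∈ y, R a b → R a b' → b = b')
    (h3 : ∀ a ∈ x, ∀ a' ∈ x, ∀ b ∈ y, R a b → R a' b → a = a') :
    ∃ f ∈ M, IsInj x y f := by
  obtain ⟨f, hf, h4, h5⟩ := hM.rel_mem hx hy hR
  refine ⟨f, hf, ⟨⟨h4, fun a ha => ?_⟩, ?_⟩⟩
  · obtain ⟨b, hb, h6⟩ := h1 a ha
    exact ⟨b, (h5 _ _).2 ⟨ha, hb, h6⟩, fun b' hb' =>
      h2 a ha b' ((h5 _ _).1 hb').2.1 b hb ((h5 _ _).1 hb').2.2 h6⟩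
  · intro a a' b ha ha'
    rw [h5] at ha ha'
    exact h3 a ha.1 a' ha'.1 b ha.2.1 ha.2.2 ha'.2.2

theorem restr {f a b c : ZFSet.{0}} (hf : f ∈ M) (hb : b ∈ M) (hc : c ∈ M)
    (h : IsInj a b f) (hca : c ⊆ a) : ∃ g ∈ M, IsInj c b g := by
  have hB := hM.base
  have hR : Dfn M M fun w : Fin 2 → ZFSet.{0} => pair (w 0) (w 1) ∈ f :=
    Dfn.mem (hB.pair' (DfnF.proj 0) (DfnF.proj 1)) (DfnF.const hf)
  exact of_rel hM hc hb (R := fun x y => pair x y ∈ f) hR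
    (fun x hx => ex h.1 (hca hx))
    (fun x _ y _ y' _ h1 h2 => uniq h.1 h1 h2)
    (fun x _ x' _ y _ h1 h2 => h.2 _ _ _ h1 h2)

theorem comp {x y z f g : ZFSet.{0}} (hx : x ∈ M) (hz : z ∈ M) (hf : f ∈ M) (hg : g ∈ M)
    (h1 : IsInj x y f) (h2 : IsInj y z g) : ∃ h ∈ M, IsInj x z h := by
  have hB := hM.base
  have hR : Dfn M M fun w : Fin 2 → ZFSet.{0} => ∃ b ∈ M, pair (w 0) b ∈ f ∧ pair b (w 1) ∈ g := by
    (repeat' first
      | assumption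
      | exact DfnF.proj _
      | exact DfnF.const (by assumption)
      | exact DfnF.const' (by first | assumption | trivial) (by first | assumption | trivial)
      | exact Dfn.prop _
      | apply Dfn.not | apply Dfn.and | apply Dfn.or | apply Dfn.imp | apply Dfn.iff
      | apply hB.bex | apply hB.ball | apply Dfn.ex | apply Dfn.all
      | apply Dfn.eq | apply Dfn.mem | apply hB.pair')
  have hMb : ∀ {a b}, pair a b ∈ f → b ∈ M := fun h => (hM.of_pair_mem (hM.trans _ hf _ h)).2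
  refine of_rel hM hx hz
    (R := fun a c => ∃ b ∈ M, pair a b ∈ f ∧ pair b c ∈ g) hR ?_ ?_ ?_
  · intro a ha
    obtain ⟨b, hb, h3⟩ := ex h1.1 ha
    obtain ⟨c, hc, h4⟩ := ex h2.1 hb
    exact ⟨c, hc, b, hMb h3, h3, h4⟩
  · rintro a - c - c' - ⟨b, -, h3, h4⟩ ⟨b', -, h5, h6⟩
    obtain rfl := uniq h1.1 h3 h5
    exact uniq h2.1 h4 h6
  · rintro a - a' - c - ⟨b, -, h3, h4⟩ ⟨b', -, h5, h6⟩
    obtain rfl := h2.2 _ _ _ h4 h6
    exact h1.2 _ _ _ h3 h5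

theorem inv {f a b : ZFSet.{0}} (hf : f ∈ M) (ha : a ∈ M) (hb : b ∈ M)
    (h : IsInj a b f) (hne : ∃ x, x ∈ a) :
    ∃ g ∈ M, ZFSet.IsFunc b a g ∧ ∀ x ∈ a, ∃ y, pair y x ∈ g := by
  have hB := hM.base
  obtain ⟨x0, hx0⟩ := hne
  have hx0M : x0 ∈ M := hM.trans _ ha _ hx0
  have hR : Dfn M M fun w : Fin 2 → ZFSet.{0} => pair (w 1) (w 0) ∈ f ∨
      ((∀ z ∈ a, ¬ pair z (w 0) ∈ f) ∧ w 1 = x0) := by
    (repeat' first
      | assumption
      | exact DfnF.proj _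
      | exact DfnF.const (by assumption)
      | exact DfnF.const' (by first | assumption | trivial) (by first | assumption | trivial)
      | exact Dfn.prop _
      | apply Dfn.not | apply Dfn.and | apply Dfn.or | apply Dfn.imp | apply Dfn.iff
      | apply hB.bex | apply hB.ball | apply Dfn.ex | apply Dfn.all
      | apply Dfn.eq | apply Dfn.mem | apply hB.pair')
  obtain ⟨g, hg, h1, h2⟩ := hM.rel_mem hb ha (Q := fun y x => pair x y ∈ f ∨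
      ((∀ z ∈ a, ¬ pair z y ∈ f) ∧ x = x0)) hR
  refine ⟨g, hg, ⟨h1, fun y hy => ?_⟩, fun x hx => ?_⟩
  · by_cases hz : ∃ z ∈ a, pair z y ∈ f
    · obtain ⟨z, hza, hz⟩ := hz
      refine ⟨z, (h2 _ _).2 ⟨hy, hza, Or.inl hz⟩, fun x hx => ?_⟩
      obtain ⟨-, hxa, h3 | ⟨h3, -⟩⟩ := (h2 _ _).1 hx
      · exact h.2 _ _ _ h3 hz
      · exact absurd hz (h3 z hza)
    · refine ⟨x0, (h2 _ _).2 ⟨hy, hx0, Or.inr ⟨fun z hza h3 => hz ⟨z, hza, h3⟩, rfl⟩⟩,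
        fun x hx => ?_⟩
      obtain ⟨-, hxa, h3 | ⟨-, h3⟩⟩ := (h2 _ _).1 hx
      · exact absurd ⟨x, hxa, h3⟩ hz
      · exact h3
  · obtain ⟨y, hy, h3⟩ := ex h.1 hx
    exact ⟨y, (h2 _ _).2 ⟨hy, hx, Or.inl h3⟩⟩

end

end CTM

variable [Base]

theorem ctm_main : S_CTM := by
  intro M hM
  refine ⟨?_, ?_, ?_⟩
  · intro f hf a ha b hb c hc h hca
    exact CTM.restr hM hf hb hc h hca
  · intro f hf g hg a ha b hb c hc h1 h2
    exact CTM.comp hM ha hc hf hg h1 h2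
  · intro f hf a ha b hb h hne
    exact CTM.inv hM hf ha hb h hne

end Pool.Agent.R602.UU
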