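import Pool.Agent.W868.Defs

/-!
# Uniform ultrafilters on cardinals in a transitive model of ZF: the definitions

A set `M` of sets (an element of `Set ZFSet.{0}`) is viewed as the structure `(M, ∈)`.
`Pool.Agent.W868.Defs` contains transitive models of ZF (`IsZF`), injective functions (`IsInj`) and
bijective functions (`IsBij`).
-/

set_option autoImplicit false

namespace Pool.Agent.R602.UU

open Pool.Agent.W868
open ZFSet (pair)

/-- In `M`, the set `κ` is an infinite cardinal: an ordinal that contains all natural numbers, and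
there is no injection in `M` from `κ` to an element of `κ`. -/
def InfCard (M : Set ZFSet.{0}) (κ : ZFSet.{0}) : Prop :=
  κ ∈ M ∧ κ.IsOrdinal ∧ ZFSet.omega ⊆ κ ∧ ∀ α ∈ κ, ¬ ∃ f ∈ M, IsInj κ α f

/-- In `M`, the infinite cardinal `κ` is regular: every function in `M` from an element of `κ` to
`κ` is bounded. -/
def Regular (M : Set ZFSet.{0}) (κ : ZFSet.{0}) : Prop :=
  InfCard M κ ∧ ∀ α ∈ κ, ∀ f ∈ M, ZFSet.IsFunc α κ f →
    ∃ β ∈ κ, ∀ x y, pair x y ∈ f → y ∈ β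

/-- In `M`, the infinite cardinal `κ` is the successor of the infinite cardinal `μ`. -/
def IsSucc (M : Set ZFSet.{0}) (μ κ : ZFSet.{0}) : Prop :=
  InfCard M μ ∧ InfCard M κ ∧ μ ∈ κ ∧ ∀ ν, InfCard M ν → μ ∈ ν → κ ⊆ ν

/-- In `M`, the cardinal `κ` is `ℵ n`. -/
def IsAleph (M : Set ZFSet.{0}) : ℕ → ZFSet.{0} → Prop
  | 0, κ => κ = ZFSet.omega
  | n + 1, κ => ∃ μ, IsAleph M n μ ∧ IsSucc M μ κ

/-- In `M`, the set `D` is a uniform ultrafilter on `κ`: an ultrafilter all of whose elements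
have the same size as `κ`. -/
structure UniUF (M : Set ZFSet.{0}) (κ D : ZFSet.{0}) : Prop where
  mem : D ∈ M
  sub : ∀ Y ∈ D, Y ⊆ κ
  univ : κ ∈ D
  inter : ∀ Y ∈ D, ∀ Z ∈ D, Y ∩ Z ∈ D
  up : ∀ Y ∈ D, ∀ Z ∈ M, Y ⊆ Z → Z ⊆ κ → Z ∈ D
  ultra : ∀ Y ∈ M, Y ⊆ κ → (Y ∈ D ↔ κ \ Y ∉ D)
  uni : ∀ Y ∈ D, ∃ f ∈ M, IsBij Y κ f

end Pool.Agent.R602.UU
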