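import Pool.Agent.R598.SY.T_ZF
import Pool.Agent.R598.SY.T_TRU
import Pool.Agent.R598.SY.T_SEP
import Pool.Agent.R602.UU.Stat

/-!
# The notion of forcing, the symmetric system, and the statements of the pieces
-/

set_option autoImplicit false
set_option linter.all false

namespace Pool.Agent.R602.UU

open Pool.Agent.W868 Pool.Agent.W868.PName Pool.Agent.R598.SY Cardinal
open ZFSet (pair)

/-! ### Cardinals -/

/-- The base: an infinite cardinal. -/
class Base where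
  b0 : Cardinal.{0}
  inf : ℵ₀ ≤ b0

variable [Base]

/-- The beth numbers over the base: `b0`, `2 ^ b0`, `2 ^ 2 ^ b0`, ... -/
noncomputable def bt : ℕ → Cardinal.{0}
  | 0 => Base.b0
  | n + 1 => 2 ^ bt n

/-- The supremum of the beth numbers. -/
noncomputable def lam : Cardinal.{0} := ⨆ n, bt n

/-- The successor of the beth number. -/
noncomputable def kp (n : ℕ) : Cardinal.{0} := Order.succ (bt n)

/-- The index set, of size `lam`. -/
abbrev X : Type := lam.ord.ToType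

theorem aleph0_le_bt (n : ℕ) : ℵ₀ ≤ bt n := by
  induction n with
  | zero => exact Base.inf
  | succ n ih => exact ih.trans (Cardinal.cantor _).le

theorem bt_lt_succ (n : ℕ) : bt n < bt (n + 1) := Cardinal.cantor _

/-! ### The notion of forcing -/

/-- The conditions: in the coordinate `n` a partial function from `X` to the truth values, of size
at most `bt n`. -/
def P : Type := {f : ℕ → X → Option Bool // ∀ n, #{x // f n x ≠ none} ≤ bt n}

instance : Preorder P where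
  le q p := ∀ n x b, p.1 n x = some b → q.1 n x = some b
  le_refl _ _ _ _ h := h
  le_trans _ _ _ h h' n x b hb := h n x b (h' n x b hb)

theorem le_def {q p : P} : q ≤ p ↔ ∀ n x b, p.1 n x = some b → q.1 n x = some b := Iff.rfl

instance : OrderTop P where
  top := ⟨fun _ _ => none, fun n => by
    have : IsEmpty {x : X // (none : Option Bool) ≠ none} := ⟨fun t => t.2 rfl⟩
    rw [Cardinal.mk_eq_zero]
    exact zero_le⟩
  le_top _ _ _ _ h := by cases h

/-- A condition given by a partial function that is smaller than another one. -/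
def cut (p : P) (f : ℕ → X → Option Bool) (h : ∀ n x, f n x ≠ none → p.1 n x ≠ none) : P :=
  ⟨f, fun n => (Cardinal.mk_le_of_injective (f := fun t : {x // f n x ≠ none} =>
    (⟨t.1, h n t.1 t.2⟩ : {x // p.1 n x ≠ none})) fun a b hab => by
      have h1 : a.1 = b.1 := congrArg (fun t : {x // p.1 n x ≠ none} => t.1) hab
      exact Subtype.ext h1).trans (p.2 n)⟩

/-- The part of the condition `p` in the coordinates less than `n`. -/
def lo (n : ℕ) (p : P) : P := cut p (fun m x => if m < n then p.1 m x else none) (by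
  intro m x h
  by_cases hm : m < n
  · rwa [if_pos hm] at h
  · rw [if_neg hm] at h
    exact absurd rfl h)

/-- The condition that is `r` in the coordinates less than `n`, and `p` in the other ones. -/
def mix (n : ℕ) (r p : P) : P := ⟨fun m x => if m < n then r.1 m x else p.1 m x, fun m => by
  by_cases hm : m < n
  · simp only [if_pos hm]
    exact r.2 m
  · simp only [if_neg hm]
    exact p.2 m⟩

theorem le_lo (n : ℕ) (p : P) : p ≤ lo n p := by
  intro m x b h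
  change (if m < n then p.1 m x else none) = some b at h
  by_cases hm : m < n
  · rwa [if_pos hm] at h
  · rw [if_neg hm] at h
    cases h

/-! ### The symmetric system -/

/-- The group: it changes the values of the conditions. -/
abbrev G : Type := ℕ → X → Equiv.Perm Bool

/-- The action on the conditions. -/
def mv (g : G) (p : P) : P := cut p (fun n x => (p.1 n x).map (g n x)) (by
  intro n x h h'
  rw [h'] at h
  exact h rfl)

theorem mv_val (g : G) (p : P) (n : ℕ) (x : X) : (mv g p).1 n x = (p.1 n x).map (g n x) := rfl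

theorem mv_mul (g h : G) (p : P) : mv (g * h) p = mv g (mv h p) := by
  refine Subtype.ext (funext fun n => funext fun x => ?_)
  rw [mv_val, mv_val, mv_val, Option.map_map]
  rfl

theorem mv_one (p : P) : mv 1 p = p := by
  refine Subtype.ext (funext fun n => funext fun x => ?_)
  rw [mv_val]
  cases p.1 n x <;> rfl

theorem mv_le {g : G} {p q : P} (h : q ≤ p) : mv g q ≤ mv g p := by
  intro n x b hb
  rw [mv_val] at hb ⊢
  rw [Option.map_eq_some_iff] at hb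
  obtain ⟨c, hc, rfl⟩ := hb
  rw [h n x c hc]
  rfl

/-- The action. -/
def acH : G →* (P ≃o P) where
  toFun g :=
    { toFun := mv g
      invFun := mv g⁻¹
      left_inv := fun p => by rw [← mv_mul, inv_mul_cancel, mv_one]
      right_inv := fun p => by rw [← mv_mul, mul_inv_cancel, mv_one]
      map_rel_iff' := by
        intro p q
        refine ⟨fun h => ?_, mv_le⟩
        have h1 := mv_le (g := g⁻¹) h
        change mv g⁻¹ (mv g p) ≤ mv g⁻¹ (mv g q) at h1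
        rwa [← mv_mul, ← mv_mul, inv_mul_cancel, mv_one, mv_one] at h1 }
  map_one' := by
    ext p
    exact mv_one p
  map_mul' := by
    intro g h
    ext p
    exact mv_mul g h p

/-- The automorphisms that do not change the coordinates less than `n`. -/
def H (n : ℕ) : Subgroup G where
  carrier := {g | ∀ m < n, g m = 1}
  mul_mem' := by
    intro g h hg hh m hm
    change g m * h m = 1
    rw [hg m hm, hh m hm, mul_one]
  one_mem' := fun n _ => rfl
  inv_mem' := by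
    intro g hg m hm
    change (g m)⁻¹ = 1
    rw [hg m hm, inv_one]

theorem mem_H {n : ℕ} {g : G} : g ∈ H n ↔ ∀ m < n, g m = 1 := Iff.rfl

/-- The symmetric system. -/
def sys : Sys P where
  G := G
  grp := inferInstance
  ac := acH
  top := fun g => Subtype.ext rfl
  F := Set.range H
  ne := ⟨_, ⟨0, rfl⟩⟩
  conj := by
    rintro _ ⟨n, rfl⟩ g
    refine ⟨_, ⟨n, rfl⟩, fun k hk m hm => ?_⟩
    change (g m)⁻¹ * k m * g m = 1
    rw [hk m hm, mul_one, inv_mul_cancel]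
  dir := by
    rintro _ ⟨n, rfl⟩ _ ⟨n', rfl⟩
    refine ⟨_, ⟨max n n', rfl⟩, fun k hk m hm => ?_, fun k hk m hm => ?_⟩
    · exact hk m (hm.trans_le (le_max_left _ _))
    · exact hk m (hm.trans_le (le_max_right _ _))

theorem ac_apply (g : G) (p : P) : sys.ac g p = mv g p := rfl

/-! ### Names and rules -/

/-- The name for the ordinal `a`. -/
noncomputable def ck (a : Ordinal.{0}) : PName P := check a.toZFSet

/-- The package is closed under the rules in `R`. -/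
def Clo (R : Set (Rule P)) (π : Pkg P) : Prop :=
  ∀ ρ ∈ R, ∀ q : Query P, q.In π.N π.C → (ρ q).1 ∈ π.N ∧ (ρ q).2 ∈ π.C

/-- The property holds for all packages that are closed under certain countably many rules. -/
def Holds (Φ : Pkg P → Prop) : Prop :=
  ∃ R : Set (Rule P), R.Countable ∧ ∀ π, Clo R π → sys.Cld π → Φ π

theorem Holds.of {Φ Ψ : Pkg P → Prop} (h : Holds Φ) (R : Set (Rule P)) (hR : R.Countable)
    (h' : ∀ π, Clo R π → sys.Cld π → Φ π → Ψ π) : Holds Ψ := by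
  obtain ⟨R', hR', h1⟩ := h
  exact ⟨R ∪ R', hR.union hR', fun π hπ hc => h' π (fun ρ hρ => hπ ρ (Or.inl hρ)) hc
    (h1 π (fun ρ hρ => hπ ρ (Or.inr hρ)) hc)⟩

theorem Holds.and {Φ Ψ : Pkg P → Prop} (h : Holds Φ) (h' : Holds Ψ) : Holds fun π => Φ π ∧ Ψ π := by
  obtain ⟨R, hR, h1⟩ := h
  obtain ⟨R', hR', h2⟩ := h'
  exact ⟨R ∪ R', hR.union hR', fun π hπ hc => ⟨h1 π (fun ρ hρ => hπ ρ (Or.inl hρ)) hc,
    h2 π (fun ρ hρ => hπ ρ (Or.inr hρ)) hc⟩⟩

theorem Holds.exists {Φ : Pkg P → Prop} (h : Holds Φ) : ∃ π : Pkg P, sys.Cld π ∧ Φ π := by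
  obtain ⟨R, hR, h1⟩ := h
  obtain ⟨π, -, -, hcl⟩ := exists_pkg (sys.rules ∪ R)
    ((Set.Finite.countable (by
      unfold Sys.rules
      exact Set.toFinite _)).union hR) ∅ Set.countable_empty (⊤ : P)
  have h2 : sys.Cld π := fun ρ hρ => hcl ρ (Or.inl hρ)
  exact ⟨π, h2, h1 π (fun ρ hρ => hcl ρ (Or.inr hρ)) h2⟩

/-- The rule for an operation on names. -/
def rl (f : PName P → PName P) : Rule P := fun q => match q with
  | ⟨_, .mem s _, v, p⟩ => (f (tv v s), p)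
  | q => (emp, q.p)

/-- The rule for an operation on two names and a condition. -/
def rl2 (f : PName P → PName P → P → PName P) : Rule P := fun q => match q with
  | ⟨_, .mem s t, v, p⟩ => (f (tv v s) (tv v t) p, p)
  | q => (emp, q.p)

/-- The rule for an operation on names and conditions, with a condition as the value. -/
def rlc (f : PName P → PName P → P → P) : Rule P := fun q => match q with
  | ⟨_, .mem s t, v, p⟩ => (emp, f (tv v s) (tv v t) p)
  | q => (emp, q.p)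

theorem Clo.rl {R : Set (Rule P)} {π : Pkg P} (h : Clo R π) {f : PName P → PName P}
    (hf : UU.rl f ∈ R) {x : PName P} (hx : x ∈ π.N) : f x ∈ π.N :=
  (h _ hf _ (query2 hx hx (π.gC 0))).1

theorem Clo.rl2 {R : Set (Rule P)} {π : Pkg P} (h : Clo R π) {f : PName P → PName P → P → PName P}
    (hf : UU.rl2 f ∈ R) {x y : PName P} (hx : x ∈ π.N) (hy : y ∈ π.N) {p : P} (hp : p ∈ π.C) :
    f x y p ∈ π.N :=
  (h _ hf _ (query2 hx hy hp)).1

theorem Clo.rlc {R : Set (Rule P)} {π : Pkg P} (h : Clo R π) {f : PName P → PName P → P → P}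
    (hf : UU.rlc f ∈ R) {x y : PName P} (hx : x ∈ π.N) (hy : y ∈ π.N) {p : P} (hp : p ∈ π.C) :
    f x y p ∈ π.C :=
  (h _ hf _ (query2 hx hy hp)).2

theorem emp_N (π : Pkg P) : (emp : PName P) ∈ π.N := T_TRU.emp_mem π

/-- The symmetric submodel is a transitive model of ZF. -/
theorem isZF {π : Pkg P} (h : sys.Cld π) : IsZF (sys.Ms π) :=
  T_ZF.main T_TRU.main T_SEP.main P sys π h

/-- The package decides an open set of conditions with a name in the package. -/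
theorem gen_nm {π : Pkg P} {A : Set P} (hA : Sys.nm P A ∈ π.N) (hd : ∀ r ∈ A, ∀ s ≤ r, s ∈ A) :
    ∃ k, π.g k ∈ A ∨ ∀ r ≤ π.g k, r ∉ A := T_TRU.gen_nm π hA hd

theorem Ms_countable (π : Pkg P) : (sys.Ms π).Countable :=
  (π.cnt.mono fun x hx => hx.1).image _

/-! ### The pieces -/

/-- Piece CC: the chain condition. -/
def S_CC : Prop := ∀ (n : ℕ) (A : Set P), (∀ r ∈ A, ∀ r' ∈ A, r ≠ r' →
  ∃ m < n, ∃ x b, r.1 m x = some b ∧ r'.1 m x = some (!b)) → #A ≤ bt n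

/-- Piece KEY: few open dense sets can be met by changing only the coordinates less than `n`. -/
def S_KEY : Prop := ∀ (n : ℕ) (a : Type) (D : a → Set P), #a ≤ bt n →
  (∀ i, ∀ p, ∃ q ≤ p, q ∈ D i) → (∀ i p q, q ≤ p → p ∈ D i → q ∈ D i) →
    ∀ p, ∃ q ≤ p, (∀ m < n, q.1 m = p.1 m) ∧ ∀ i, ∀ s ≤ q, ∃ s' ≤ s, mix n s' q ∈ D i

/-- Piece HOM: homogeneity. -/
def S_HOM : Prop := ∀ (n : ℕ) (x y : PName P), sys.Fix (H n) x → sys.Fix (H n) y →
  ∀ p, Fmem x y p → Fmem x y (lo n p)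

/-- The ordinals of the model. -/
structure OrdP (π : Pkg P) : Prop where
  ord : ∀ a, ck a ∈ π.N → (π.val (ck a)).IsOrdinal
  mem : ∀ a, ck a ∈ π.N → ∀ z, z ∈ π.val (ck a) ↔ ∃ b < a, ck b ∈ π.N ∧ π.val (ck b) = z
  lt : ∀ a b, ck a ∈ π.N → ck b ∈ π.N → (π.val (ck a) ∈ π.val (ck b) ↔ a < b)
  inj : ∀ a b, ck a ∈ π.N → ck b ∈ π.N → π.val (ck a) = π.val (ck b) → a = b
  ms : ∀ a, ck a ∈ π.N → π.val (ck a) ∈ sys.Ms π
  surj : ∀ α ∈ sys.Ms π, α.IsOrdinal → ∃ a : Ordinal.{0}, ck a ∈ π.N ∧ π.val (ck a) = α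
  om : ck Ordinal.omega0 ∈ π.N ∧ π.val (ck Ordinal.omega0) = ZFSet.omega

/-- Piece ORD. -/
def S_ORD : Prop := Holds OrdP

/-- Facts on the ground model. -/
structure GrP (π : Pkg P) : Prop where
  inj : ∀ a b : Ordinal.{0}, ck a ∈ π.N → ck b ∈ π.N → a.card ≤ b.card →
    ∃ f ∈ sys.Ms π, IsInj (π.val (ck a)) (π.val (ck b)) f
  cd : ∀ a : Ordinal.{0}, ck a ∈ π.N → ck a.card.ord ∈ π.N
  sc : ∀ a : Ordinal.{0}, ck a ∈ π.N → ck (Order.succ a.card).ord ∈ π.N
  bt : ∀ n, ck (bt n).ord ∈ π.N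
  kp : ∀ n, ck (kp n).ord ∈ π.N
  lam : ck lam.ord ∈ π.N
  seq : ∀ c : Cardinal.{0}, ck c.ord ∈ π.N →
    (∃ s : ℕ → Ordinal.{0}, (∀ n, s n < c.ord) ∧ ∀ a < c.ord, ∃ n, a < s n) →
      ∃ s ∈ sys.Ms π, ZFSet.IsFunc ZFSet.omega (π.val (ck c.ord)) s ∧
        ∀ α ∈ π.val (ck c.ord), ∃ x y, pair x y ∈ s ∧ α ∈ y

/-- Piece GR. -/
def S_GR : Prop := Holds GrP

/-- Piece BND: functions of the model are bounded in regular cardinals. -/
def S_BND : Prop := Holds fun π => ∀ (f : PName P) (α : Ordinal.{0}) (c : Cardinal.{0}) (n k : ℕ),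
  f ∈ π.N → sys.HS f → sys.Fix (H k) f → ck α ∈ π.N → ck c.ord ∈ π.N → c.IsRegular →
    (bt n < c ∨ n = 0) → α.card < c → (k ≤ n ∨ α.card ≤ bt n) →
      ZFSet.IsFunc (π.val (ck α)) (π.val (ck c.ord)) (π.val f) →
        ∃ β < c.ord, ck β ∈ π.N ∧ ∀ x y, pair x y ∈ π.val f → y ∈ π.val (ck β)

/-- The name for the set of the ordinals `i < c` such that `w i` meets the generic filter, where
only the conditions that use only the coordinates less than `n` are considered. -/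
noncomputable def tau (n : ℕ) (c : Cardinal.{0}) (w : c.ord.ToType → Set P) : PName P :=
  PName.mk {t : c.ord.ToType × P // t.2 ∈ w t.1 ∧ lo n t.2 = t.2}
    (fun t => ck (Ordinal.typein (α := c.ord.ToType) (· < ·) t.1.1)) (fun t => t.1.2)

/-- Piece SUB: names for small subsets. -/
def S_SUB : Prop := Holds fun π => ∀ (n : ℕ) (c : Cardinal.{0}), c ≤ bt n → ck c.ord ∈ π.N →
  ∀ x ∈ π.N, sys.HS x → π.val x ⊆ π.val (ck c.ord) →
    ∃ w, tau n c w ∈ π.N ∧ π.val (tau n c w) = π.val x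

/-- Piece COL: collapses. -/
def S_COL : Prop := Holds fun π => ∀ n, ∃ f ∈ sys.Ms π,
  IsInj (π.val (ck (bt (n + 1)).ord)) (π.val (ck (kp n).ord)) f

/-- `r` forces that `i` is in the set with the name `tau n c w`. -/
def Frc (n : ℕ) {c : Cardinal.{0}} (w : c.ord.ToType → Set P) (i : c.ord.ToType) : Set P :=
  {r | ∀ q ≤ r, ∃ s ≤ q, ∃ t ∈ w i, lo n t = t ∧ s ≤ t}

/-- The complement. -/
def wc (n : ℕ) {c : Cardinal.{0}} (w : c.ord.ToType → Set P) : c.ord.ToType → Set P :=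
  fun i => {t | lo n t = t ∧ ∀ q ≤ t, q ∉ Frc n w i}

/-- The intersection. -/
def wi (n : ℕ) {c : Cardinal.{0}} (w w' : c.ord.ToType → Set P) : c.ord.ToType → Set P :=
  fun i => {t | lo n t = t ∧ t ∈ Frc n w i ∧ t ∈ Frc n w' i}

/-- A name of an ultrafilter on `c` that consists of unbounded sets. -/
structure UFc (n : ℕ) (c : Cardinal.{0}) (𝒟 : Set ((c.ord.ToType → Set P) × P)) : Prop where
  lo : ∀ t ∈ 𝒟, lo n t.2 = t.2
  ub : ∀ F : Finset ((c.ord.ToType → Set P) × P), ↑F ⊆ 𝒟 → ∀ r, (∀ t ∈ F, r ≤ t.2) →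
    ∀ β : c.ord.ToType, ∃ i, β ≤ i ∧ ∃ r' ≤ r, ∀ t ∈ F, r' ∈ Frc n t.1 i
  ult : ∀ w r, UU.lo n r = r → ∃ r' ≤ r, UU.lo n r' = r' ∧ ((w, r') ∈ 𝒟 ∨ (wc n w, r') ∈ 𝒟)
  int : ∀ w w' r, (w, r) ∈ 𝒟 → (w', r) ∈ 𝒟 → (wi n w w', r) ∈ 𝒟
  mono : ∀ w r r', (w, r) ∈ 𝒟 → r' ≤ r → UU.lo n r' = r' → (w, r') ∈ 𝒟

/-- Piece UFZ: existence by Zorn's lemma. -/
def S_UFZ : Prop := ∀ (n : ℕ) (c : Cardinal.{0}), ℵ₀ ≤ c →
  ∃ 𝒟 : Set ((c.ord.ToType → Set P) × P), UFc n c 𝒟

/-- In `M`, the set `D` is an ultrafilter on the ordinal `κ` that consists of unbounded sets. -/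
structure PreUF (M : Set ZFSet.{0}) (κ D : ZFSet.{0}) : Prop where
  mem : D ∈ M
  sub : ∀ Y ∈ D, Y ⊆ κ
  univ : κ ∈ D
  inter : ∀ Y ∈ D, ∀ Z ∈ D, Y ∩ Z ∈ D
  up : ∀ Y ∈ D, ∀ Z ∈ M, Y ⊆ Z → Z ⊆ κ → Z ∈ D
  ultra : ∀ Y ∈ M, Y ⊆ κ → (Y ∈ D ↔ κ \ Y ∉ D)
  unb : ∀ Y ∈ D, ∀ β ∈ κ, ∃ ξ ∈ Y, β ∈ ξ ∨ β = ξ

/-- Piece UFN: the ultrafilters in the model. -/
def S_UFN : Prop := Holds fun π => ∀ (n : ℕ) (c : Cardinal.{0}), ℵ₀ ≤ c → c ≤ bt n →
  ck c.ord ∈ π.N → ∃ D, PreUF (sys.Ms π) (π.val (ck c.ord)) D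

omit [Base] in
/-- Piece OTY: in a transitive model of ZF, unbounded subsets of regular cardinals have full
size. -/
def S_OTY : Prop := ∀ M : Set ZFSet.{0}, IsZF M → ∀ κ, Regular M κ → ∀ Y ∈ M, Y ⊆ κ →
  (∀ β ∈ κ, ∃ ξ ∈ Y, β ∈ ξ ∨ β = ξ) → ∃ f ∈ M, IsBij Y κ f

/-- Piece NOU: no uniform ultrafilters. -/
def S_NOU : Prop := Holds fun π => InfCard (sys.Ms π) (π.val (ck lam.ord)) →
  ¬ ∃ D, UniUF (sys.Ms π) (π.val (ck lam.ord)) D

/-- Piece UFV: ultrafilters of the ground model. -/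
def S_UFV : Prop := Holds fun π => ∀ c : Cardinal.{0}, ℵ₀ ≤ c → c ≤ bt 0 → ck c.ord ∈ π.N →
  ∃ D, UniUF (sys.Ms π) (π.val (ck c.ord)) D

/-- Piece CTM: injections in a transitive model of ZF. -/
def S_CTM : Prop := ∀ M : Set ZFSet.{0}, IsZF M →
  (∀ f ∈ M, ∀ a ∈ M, ∀ b ∈ M, ∀ c ∈ M, IsInj a b f → c ⊆ a → ∃ g ∈ M, IsInj c b g) ∧
  (∀ f ∈ M, ∀ g ∈ M, ∀ a ∈ M, ∀ b ∈ M, ∀ c ∈ M, IsInj a b f → IsInj b c g →
    ∃ h ∈ M, IsInj a c h) ∧
  ∀ f ∈ M, ∀ a ∈ M, ∀ b ∈ M, IsInj a b f → (∃ x, x ∈ a) →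
    ∃ g ∈ M, ZFSet.IsFunc b a g ∧ ∀ x ∈ a, ∃ y, pair y x ∈ g

/-- Piece CRD: cardinals of the model. -/
def S_CRD : Prop := Holds fun π => ∀ c : Cardinal.{0}, ℵ₀ ≤ c → ck c.ord ∈ π.N →
  ((c ≤ bt 0 ∨ (∃ n, c = kp n) ∨ lam ≤ c) → InfCard (sys.Ms π) (π.val (ck c.ord))) ∧
  ((c ≤ bt 0 ∨ (∃ n, c = kp n) ∨ lam < c) → c.IsRegular →
    Regular (sys.Ms π) (π.val (ck c.ord)))

/-- Piece CLS: all the cardinals of the model. -/
def S_CLS : Prop := Holds fun π => ∀ κ, InfCard (sys.Ms π) κ → ∃ c : Cardinal.{0}, ℵ₀ ≤ c ∧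
  ck c.ord ∈ π.N ∧ κ = π.val (ck c.ord) ∧ (c ≤ bt 0 ∨ (∃ n, c = kp n) ∨ lam ≤ c)

/-- Piece SUC: the successor cardinals are regular. -/
def S_SUC : Prop := Holds fun π => ∀ μ κ, IsSucc (sys.Ms π) μ κ → Regular (sys.Ms π) κ

/-- Piece ALE: the alephs of the model. -/
def S_ALE : Prop := Base.b0 = ℵ₀ → Holds fun π => ∀ n, IsAleph (sys.Ms π) (n + 1)
  (π.val (ck (kp n).ord))

end Pool.Agent.R602.UU
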