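import Pool.Agent.R602.UU.Stat

/-!
# Cofinality `ω` in a transitive model of ZF
-/

set_option autoImplicit false

namespace Pool.Agent.R602.UU

open ZFSet (pair)

/-- In `M`, the infinite cardinal `κ` has cofinality `ω`: there is a function in `M` from `ω` to
`κ` whose values are unbounded in `κ`. -/
def CofOmega (M : Set ZFSet.{0}) (κ : ZFSet.{0}) : Prop :=
  ∃ s ∈ M, ZFSet.IsFunc ZFSet.omega κ s ∧ ∀ α ∈ κ, ∃ x y, pair x y ∈ s ∧ α ∈ y

end Pool.Agent.R602.UU
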