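import Pool.Agent.R602.UU.Ar
import Pool.Agent.R602.UU.Stat2

/-!
# Assembly
-/

set_option autoImplicit false
set_option linter.all false

namespace Pool.Agent.R602.UU

open Pool.Agent.W868 Pool.Agent.W868.PName Pool.Agent.R598.SY Cardinal
open ZFSet (pair)

variable [Base]

/-- All the pieces. -/
structure Pcs : Prop where
  ord : S_ORD
  gr : S_GR
  nou : S_NOU
  ufv : S_UFV
  ufn : S_UFN
  oty : S_OTY
  crd : S_CRD
  cls : S_CLS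
  suc : S_SUC

theorem val_lt {π : Pkg P} (hO : OrdP π) {c d : Cardinal.{0}} (hc : ck c.ord ∈ π.N)
    (hd : ck d.ord ∈ π.N) : π.val (ck c.ord) ∈ π.val (ck d.ord) ↔ c < d :=
  (hO.lt _ _ hc hd).trans Cardinal.ord_lt_ord

theorem lam_cof : ∃ s : ℕ → Ordinal.{0}, (∀ n, s n < lam.ord) ∧ ∀ a < lam.ord, ∃ n, a < s n := by
  refine ⟨fun n => (bt n).ord, fun n => Cardinal.ord_lt_ord.2 (bt_lt_lam n), fun a ha => ?_⟩
  obtain ⟨n, hn⟩ := exists_of_lt_lam (Cardinal.lt_ord.1 ha)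
  exact ⟨n, Cardinal.lt_ord.2 hn⟩

/-- A cofinal sequence shows that the cardinal is singular. -/
theorem not_regular {M : Set ZFSet.{0}} {κ s : ZFSet.{0}} (hs : s ∈ M)
    (hf : ZFSet.IsFunc ZFSet.omega κ s) (hω : ZFSet.omega ∈ κ)
    (hc : ∀ α ∈ κ, ∃ x y, pair x y ∈ s ∧ α ∈ y) : ¬ Regular M κ := by
  intro hR
  obtain ⟨β, hβ, h⟩ := hR.2 _ hω s hs hf
  obtain ⟨x, y, h1, h2⟩ := hc β hβ
  exact absurd (h x y h1) (ZFSet.mem_asymm h2)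

theorem main1 (h0 : Base.b0 = ℵ₀) (hA : S_ALE) (hP : Pcs) :
    ∃ M : Set ZFSet.{0}, M.Countable ∧ IsZF M ∧ (∀ μ κ, IsSucc M μ κ → Regular M κ) ∧
      ∃ l, InfCard M l ∧ ¬ Regular M l ∧ (∀ n, ∃ κ ∈ l, IsAleph M n κ) ∧
        (∀ α ∈ l, ∃ n κ, IsAleph M n κ ∧ α ∈ κ) ∧
        (∀ κ ∈ l, InfCard M κ → ∃ D, UniUF M κ D) ∧ ¬ ∃ D, UniUF M l D := by
  obtain ⟨π, hcl, hO, hG, hN, hV, hU, hR, hC, hS, hE⟩ := (hP.ord.and (hP.gr.and (hP.nou.and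
    (hP.ufv.and (hP.ufn.and (hP.crd.and (hP.cls.and (hP.suc.and (hA h0))))))))).exists
  have hω : π.val (ck Ordinal.omega0) = ZFSet.omega := hO.om.2
  have hlN := hG.lam
  have hl : InfCard (sys.Ms π) (π.val (ck lam.ord)) :=
    (hR lam aleph0_le_lam hlN).1 (Or.inr (Or.inr le_rfl))
  have hωl : ZFSet.omega ∈ π.val (ck lam.ord) := by
    rw [← hω, hO.lt _ _ hO.om.1 hlN]
    exact aleph0_ord_lt ((aleph0_le_bt 0).trans_lt (bt_lt_lam 0))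
  refine ⟨sys.Ms π, Ms_countable π, isZF hcl, hS, π.val (ck lam.ord), hl, ?_, ?_, ?_, ?_, hN hl⟩
  · obtain ⟨s, hs, h1, h2⟩ := hG.seq lam hlN lam_cof
    exact not_regular hs h1 hωl h2
  · rintro (_ | n)
    · exact ⟨_, hωl, rfl⟩
    · exact ⟨_, (val_lt hO (hG.kp n) hlN).2 (kp_lt_lam n), hE n⟩
  · intro α hα
    obtain ⟨b, hb, hbN, rfl⟩ := (hO.mem _ hlN α).1 hα
    obtain ⟨n, hn⟩ := exists_of_lt_lam (Cardinal.lt_ord.1 hb)
    refine ⟨n + 1, _, hE n, ?_⟩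
    rw [hO.lt _ _ hbN (hG.kp n), Cardinal.lt_ord]
    exact hn.trans (bt_lt_kp n)
  · intro κ hκ h
    obtain ⟨c, hc, hcN, rfl, h1 | ⟨n, rfl⟩ | h1⟩ := hC κ h
    · exact hV c hc h1 hcN
    · obtain ⟨D, hD⟩ := hU (n + 1) (kp n) (aleph0_le_kp n) (kp_le n) hcN
      have hreg := (hR (kp n) hc hcN).2 (Or.inr (Or.inl ⟨n, rfl⟩)) (kp_regular n)
      exact ⟨D, hD.mem, hD.sub, hD.univ, hD.inter, hD.up, hD.ultra, fun Y hY =>
        hP.oty _ (isZF hcl) _ hreg Y ((isZF hcl).trans D hD.mem Y hY) (hD.sub Y hY) (hD.unb Y hY)⟩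
    · rw [val_lt hO hcN hlN] at hκ
      exact absurd hκ (not_lt.2 h1)

theorem main2 (h0 : Base.b0 = Cardinal.aleph Ordinal.omega0) (hP : Pcs) :
    ∃ M : Set ZFSet.{0}, M.Countable ∧ IsZF M ∧ (∀ μ κ, IsSucc M μ κ → Regular M κ) ∧
      ∃ l m, (InfCard M l ∧ ¬ Regular M l ∧ CofOmega M l ∧ ∃ D, UniUF M l D) ∧
        InfCard M m ∧ ¬ Regular M m ∧ CofOmega M m ∧ ¬ ∃ D, UniUF M m D := by
  obtain ⟨π, hcl, hO, hG, hN, hV, hR, hS⟩ := (hP.ord.and (hP.gr.and (hP.nou.and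
    (hP.ufv.and (hP.crd.and hP.suc))))).exists
  have hω : π.val (ck Ordinal.omega0) = ZFSet.omega := hO.om.2
  have hlN := hG.lam
  have hl : InfCard (sys.Ms π) (π.val (ck lam.ord)) :=
    (hR lam aleph0_le_lam hlN).1 (Or.inr (Or.inr le_rfl))
  have hωl : ZFSet.omega ∈ π.val (ck lam.ord) := by
    rw [← hω, hO.lt _ _ hO.om.1 hlN]
    exact aleph0_ord_lt ((aleph0_le_bt 0).trans_lt (bt_lt_lam 0))
  have hbN := hG.bt 0
  have hb : InfCard (sys.Ms π) (π.val (ck (bt 0).ord)) :=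
    (hR _ (aleph0_le_bt 0) hbN).1 (Or.inl le_rfl)
  have hbe : bt 0 = Cardinal.aleph Ordinal.omega0 := h0
  have hb1 : ℵ₀ < bt 0 := by
    rw [hbe, ← Cardinal.aleph_zero]
    exact Cardinal.aleph_lt_aleph.2 Ordinal.omega0_pos
  have hωb : ZFSet.omega ∈ π.val (ck (bt 0).ord) := by
    rw [← hω, hO.lt _ _ hO.om.1 hbN]
    exact aleph0_ord_lt hb1
  have hbc : ∃ s : ℕ → Ordinal.{0}, (∀ n, s n < (bt 0).ord) ∧ ∀ a < (bt 0).ord, ∃ n, a < s n := by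
    refine ⟨fun n => (Cardinal.aleph n).ord, fun n => ?_, fun a ha => ?_⟩
    · rw [hbe]
      exact Cardinal.ord_lt_ord.2 (Cardinal.aleph_lt_aleph.2 (Ordinal.natCast_lt_omega0 n))
    · rw [hbe, Cardinal.lt_ord, Cardinal.aleph_limit Ordinal.isSuccLimit_omega0] at ha
      by_contra hc
      push Not at hc
      refine absurd ha (not_lt.2 (ciSup_le' fun i => ?_))
      obtain ⟨n, hn⟩ := Ordinal.lt_omega0.1 i.2
      rw [hn]
      exact Cardinal.ord_le.1 (hc n)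
  obtain ⟨s, hs, h1, h2⟩ := hG.seq lam hlN lam_cof
  obtain ⟨t, ht, h3, h4⟩ := hG.seq (bt 0) hbN hbc
  exact ⟨sys.Ms π, Ms_countable π, isZF hcl, hS, π.val (ck (bt 0).ord), π.val (ck lam.ord),
    ⟨hb, not_regular ht h3 hωb h4, ⟨t, ht, h3, h4⟩, hV _ (aleph0_le_bt 0) le_rfl hbN⟩,
    hl, not_regular hs h1 hωl h2, ⟨s, hs, h1, h2⟩, hN hl⟩

end Pool.Agent.R602.UU
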