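import Pool.Agent.R602.UU.Defs

/-!
# Project UU, piece GR: facts on the ground model
-/

set_option autoImplicit false
set_option linter.all false

namespace Pool.Agent.R602.UU

open Pool.Agent.W868 Pool.Agent.W868.PName Pool.Agent.R598.SY Cardinal
open ZFSet (pair)

namespace Gr

open Classical in
noncomputable def fstS (A : ZFSet.{0}) : ZFSet.{0} :=
  if h : ∃ a b, A = pair a b then h.choose else ∅

open Classical in
noncomputable def sndS (A : ZFSet.{0}) : ZFSet.{0} :=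
  if h : ∃ b a, A = pair a b then h.choose else ∅

open Classical in
noncomputable def valS (F u : ZFSet.{0}) : ZFSet.{0} :=
  if h : ∃ w, pair u w ∈ F then h.choose else ∅

open Classical in
noncomputable def injS (A B : ZFSet.{0}) : ZFSet.{0} :=
  if h : ∃ f, IsInj A B f then h.choose else ∅

open Classical in
noncomputable def seqS (A : ZFSet.{0}) : ZFSet.{0} :=
  if h : ∃ f, ZFSet.IsFunc ZFSet.omega A f ∧ ∀ α ∈ A, ∃ x y, pair x y ∈ f ∧ α ∈ y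
  then h.choose else ∅

open Classical in
noncomputable def cofS (F u : ZFSet.{0}) : ZFSet.{0} :=
  if h : ∃ z, z ∈ F ∧ ∃ p q, z = pair p q ∧ u ∈ q then h.choose else ∅

theorem fstS_pair (a b : ZFSet.{0}) : fstS (pair a b) = a := by
  have h : ∃ a' b', pair a b = pair a' b' := ⟨a, b, rfl⟩
  unfold fstS
  rw [dif_pos h]
  obtain ⟨b', hb'⟩ := h.choose_spec
  exact (ZFSet.pair_inj.1 hb').1.symm

theorem sndS_pair (a b : ZFSet.{0}) : sndS (pair a b) = b := by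
  have h : ∃ b' a', pair a b = pair a' b' := ⟨b, a, rfl⟩
  unfold sndS
  rw [dif_pos h]
  obtain ⟨a', ha'⟩ := h.choose_spec
  exact (ZFSet.pair_inj.1 ha').2.symm

theorem exists_inj {a b : Ordinal.{0}} (h : a.card ≤ b.card) :
    ∃ f, IsInj a.toZFSet b.toZFSet f := by
  have h1 : Cardinal.lift.{1, 0} a.card ≤ Cardinal.lift.{1, 0} b.card := Cardinal.lift_le.2 h
  rw [← Ordinal.mk_Iio_ordinal, ← Ordinal.mk_Iio_ordinal] at h1
  obtain ⟨e⟩ := h1
  refine ⟨ZFSet.range (fun i : Set.Iio a => pair i.1.toZFSet (e i).1.toZFSet), ⟨?_, ?_⟩, ?_⟩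
  · intro z hz
    obtain ⟨i, rfl⟩ := ZFSet.mem_range.1 hz
    exact ZFSet.pair_mem_prod.2 ⟨Ordinal.toZFSet_mem_toZFSet_iff.2 i.2,
      Ordinal.toZFSet_mem_toZFSet_iff.2 (e i).2⟩
  · intro z hz
    obtain ⟨c, hc, rfl⟩ := Ordinal.mem_toZFSet_iff.1 hz
    refine ⟨(e ⟨c, hc⟩).1.toZFSet, ZFSet.mem_range.2 ⟨⟨c, hc⟩, rfl⟩, ?_⟩
    intro w hw
    obtain ⟨i, hi⟩ := ZFSet.mem_range.1 hw
    obtain ⟨h2, h3⟩ := ZFSet.pair_inj.1 hi
    have h4 : i = ⟨c, hc⟩ := Subtype.ext (Ordinal.toZFSet_injective h2)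
    rw [← h3, h4]
  · intro x y w hx hy
    obtain ⟨i, hi⟩ := ZFSet.mem_range.1 hx
    obtain ⟨j, hj⟩ := ZFSet.mem_range.1 hy
    obtain ⟨h2, h3⟩ := ZFSet.pair_inj.1 hi
    obtain ⟨h4, h5⟩ := ZFSet.pair_inj.1 hj
    have h6 : e i = e j := Subtype.ext (Ordinal.toZFSet_injective (h3.trans h5.symm))
    have h7 : i = j := e.injective h6
    rw [← h2, ← h4, h7]

theorem exists_seq {c : Ordinal.{0}} {s : ℕ → Ordinal.{0}} (hs : ∀ n, s n < c)
    (hc : ∀ a < c, ∃ n, a < s n) :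
    ∃ f, ZFSet.IsFunc ZFSet.omega c.toZFSet f ∧
      ∀ α ∈ c.toZFSet, ∃ x y, pair x y ∈ f ∧ α ∈ y := by
  refine ⟨ZFSet.range (fun n : ℕ => pair (nat n) (s n).toZFSet), ⟨?_, ?_⟩, ?_⟩
  · intro z hz
    obtain ⟨n, rfl⟩ := ZFSet.mem_range.1 hz
    exact ZFSet.pair_mem_prod.2 ⟨mem_omega_iff.2 ⟨n, rfl⟩,
      Ordinal.toZFSet_mem_toZFSet_iff.2 (hs n)⟩
  · intro z hz
    obtain ⟨n, rfl⟩ := mem_omega_iff.1 hz
    refine ⟨(s n).toZFSet, ZFSet.mem_range.2 ⟨n, rfl⟩, ?_⟩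
    intro w hw
    obtain ⟨m, hm⟩ := ZFSet.mem_range.1 hw
    obtain ⟨h2, h3⟩ := ZFSet.pair_inj.1 hm
    have h4 : m = n := nat_injective h2
    rw [← h3, h4]
  · intro α hα
    obtain ⟨a, ha, rfl⟩ := Ordinal.mem_toZFSet_iff.1 hα
    obtain ⟨n, hn⟩ := hc a ha
    exact ⟨nat n, (s n).toZFSet, ZFSet.mem_range.2 ⟨n, rfl⟩,
      Ordinal.toZFSet_mem_toZFSet_iff.2 hn⟩

variable [Base]

theorem holds_rl (f : PName P → PName P) : Holds fun π => ∀ x ∈ π.N, f x ∈ π.N :=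
  ⟨{rl f}, Set.countable_singleton _, fun π hπ _ x hx => Clo.rl hπ rfl hx⟩

theorem holds_rl2 (f : PName P → PName P → PName P) :
    Holds fun π => ∀ x ∈ π.N, ∀ y ∈ π.N, f x y ∈ π.N :=
  ⟨{rl2 fun x y _ => f x y}, Set.countable_singleton _,
    fun π hπ _ x hx y hy => Clo.rl2 (f := fun x y _ => f x y) hπ rfl hx hy (π.gC 0)⟩

theorem holds_nat (f : ℕ → PName P) : Holds fun π => ∀ n, f n ∈ π.N :=
  ⟨Set.range fun n => rl (fun _ => f n), Set.countable_range _,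
    fun π hπ _ n => Clo.rl (f := fun _ => f n) hπ ⟨n, rfl⟩ (emp_N π)⟩

/-- The closure properties. -/
structure Aux (π : Pkg P) : Prop where
  fst : ∀ x ∈ π.N, (check (fstS (dec x)) : PName P) ∈ π.N
  snd : ∀ x ∈ π.N, (check (sndS (dec x)) : PName P) ∈ π.N
  vl : ∀ x ∈ π.N, ∀ y ∈ π.N, (check (valS (dec x) (dec y)) : PName P) ∈ π.N
  inj : ∀ x ∈ π.N, ∀ y ∈ π.N, (check (injS (dec x) (dec y)) : PName P) ∈ π.N
  seq : ∀ x ∈ π.N, (check (seqS (dec x)) : PName P) ∈ π.N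
  cof : ∀ x ∈ π.N, ∀ y ∈ π.N, (check (cofS (dec x) (dec y)) : PName P) ∈ π.N
  cd : ∀ x ∈ π.N, ck (dec x).rank.card.ord ∈ π.N
  sc : ∀ x ∈ π.N, ck (Order.succ (dec x).rank.card).ord ∈ π.N
  bt : ∀ n, ck (UU.bt n).ord ∈ π.N
  kp : ∀ n, ck (UU.kp n).ord ∈ π.N
  lam : ∀ x ∈ π.N, ck UU.lam.ord ∈ π.N

theorem holds_aux : Holds Aux := by
  have h := (holds_rl fun x => check (fstS (dec x))).and
    ((holds_rl fun x => check (sndS (dec x))).and
    ((holds_rl2 fun x y => check (valS (dec x) (dec y))).and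
    ((holds_rl2 fun x y => check (injS (dec x) (dec y))).and
    ((holds_rl fun x => check (seqS (dec x))).and
    ((holds_rl2 fun x y => check (cofS (dec x) (dec y))).and
    ((holds_rl fun x => ck (dec x).rank.card.ord).and
    ((holds_rl fun x => ck (Order.succ (dec x).rank.card).ord).and
    ((holds_nat fun n => ck (UU.bt n).ord).and
    ((holds_nat fun n => ck (UU.kp n).ord).and
    (holds_rl fun _ => ck UU.lam.ord))))))))))
  refine h.of ∅ Set.countable_empty fun π _ _ h => ?_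
  obtain ⟨h1, h2, h3, h4, h5, h6, h7, h8, h9, h10, h11⟩ := h
  exact ⟨h1, h2, h3, h4, h5, h6, h7, h8, h9, h10, h11⟩

variable {π : Pkg P} (h : Aux π)

include h

theorem fst_Z {a b : ZFSet.{0}} (hab : pair a b ∈ π.Z) : a ∈ π.Z := by
  have h1 := h.fst _ hab
  rw [dec_check, fstS_pair] at h1
  exact h1

theorem snd_Z {a b : ZFSet.{0}} (hab : pair a b ∈ π.Z) : b ∈ π.Z := by
  have h1 := h.snd _ hab
  rw [dec_check, sndS_pair] at h1
  exact h1

theorem val_Z {A B F u : ZFSet.{0}} (hF : F ∈ π.Z) (hu : u ∈ π.Z) (hf : ZFSet.IsFunc A B F)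
    (huA : u ∈ A) : ∃ v ∈ π.Z, pair u v ∈ F := by
  have h1 := h.vl _ hF _ hu
  rw [dec_check, dec_check] at h1
  have h2 : ∃ w, pair u w ∈ F := (hf.2 u huA).exists
  unfold valS at h1
  rw [dif_pos h2] at h1
  exact ⟨_, h1, h2.choose_spec⟩

theorem isFunc_hat {A B F : ZFSet.{0}} (hF : F ∈ π.Z) (hf : ZFSet.IsFunc A B F) :
    ZFSet.IsFunc (π.hat A) (π.hat B) (π.hat F) := by
  have key : ∀ z ∈ π.hat F, ∃ u v, pair u v ∈ F ∧ u ∈ π.Z ∧ v ∈ π.Z ∧ u ∈ A ∧ v ∈ B ∧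
      z = pair (π.hat u) (π.hat v) := by
    intro z hz
    obtain ⟨y, hy, hyZ, rfl⟩ := π.mem_hat.1 hz
    obtain ⟨u, hu, v, hv, rfl⟩ := ZFSet.mem_prod.1 (hf.1 hy)
    have hu' := fst_Z h hyZ
    have hv' := snd_Z h hyZ
    exact ⟨u, v, hy, hu', hv', hu, hv, π.hat_pair hu' hv'⟩
  constructor
  · intro z hz
    obtain ⟨u, v, h1, hu, hv, huA, hvB, rfl⟩ := key z hz
    exact ZFSet.pair_mem_prod.2 ⟨π.mem_hat.2 ⟨u, huA, hu, rfl⟩, π.mem_hat.2 ⟨v, hvB, hv, rfl⟩⟩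
  · intro z hz
    obtain ⟨u, huA, hu, rfl⟩ := π.mem_hat.1 hz
    obtain ⟨v, hv, huv⟩ := val_Z h hF hu hf huA
    refine ⟨π.hat v, ?_, ?_⟩
    · change pair (π.hat u) (π.hat v) ∈ π.hat F
      rw [← π.hat_pair hu hv]
      exact π.mem_hat.2 ⟨_, huv, π.pair_mem_Z hu hv, rfl⟩
    · intro w hw
      obtain ⟨u', v', h1, hu', hv', -, -, h2⟩ := key _ hw
      obtain ⟨h3, rfl⟩ := ZFSet.pair_inj.1 h2
      have h4 : u = u' := (π.hat_inj hu hu').1 h3
      subst h4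
      rw [(hf.2 u huA).unique h1 huv]

theorem isInj_hat {A B F : ZFSet.{0}} (hF : F ∈ π.Z) (hf : IsInj A B F) :
    IsInj (π.hat A) (π.hat B) (π.hat F) := by
  refine ⟨isFunc_hat h hF hf.1, ?_⟩
  have key : ∀ x y, pair x y ∈ π.hat F → ∃ u v, pair u v ∈ F ∧ u ∈ π.Z ∧ v ∈ π.Z ∧
      x = π.hat u ∧ y = π.hat v := by
    intro x y hz
    obtain ⟨w, hy, hyZ, h1⟩ := π.mem_hat.1 hz
    obtain ⟨u, hu, v, hv, rfl⟩ := ZFSet.mem_prod.1 (hf.1.1 hy)
    have hu' := fst_Z h hyZ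
    have hv' := snd_Z h hyZ
    rw [π.hat_pair hu' hv'] at h1
    obtain ⟨h2, h3⟩ := ZFSet.pair_inj.1 h1
    exact ⟨u, v, hy, hu', hv', h2.symm, h3.symm⟩
  intro a b c hac hbc
  obtain ⟨u, v, h1, hu, hv, rfl, rfl⟩ := key a c hac
  obtain ⟨u', v', h1', hu', hv', rfl, h2⟩ := key b _ hbc
  have h3 : v = v' := (π.hat_inj hv hv').1 h2
  subst h3
  rw [hf.2 u u' v h1 h1']

theorem grP : GrP π where
  inj a b ha hb hab := by
    have h1 := h.inj _ ha _ hb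
    unfold ck at h1
    rw [dec_check, dec_check] at h1
    have h2 := exists_inj hab
    unfold injS at h1
    rw [dif_pos h2] at h1
    exact ⟨_, ⟨_, ⟨h1, sys.hs_check _⟩, rfl⟩, isInj_hat h h1 h2.choose_spec⟩
  cd a ha := by
    have h1 := h.cd _ ha
    unfold ck at h1
    rw [dec_check, Ordinal.rank_toZFSet] at h1
    exact h1
  sc a ha := by
    have h1 := h.sc _ ha
    unfold ck at h1
    rw [dec_check, Ordinal.rank_toZFSet] at h1
    exact h1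
  bt n := h.bt n
  kp n := h.kp n
  lam := h.lam _ (emp_N π)
  seq c hc hs := by
    obtain ⟨s, hs1, hs2⟩ := hs
    have h1 := h.seq _ hc
    unfold ck at h1
    rw [dec_check] at h1
    have h2 := exists_seq hs1 hs2
    unfold seqS at h1
    rw [dif_pos h2] at h1
    obtain ⟨h3, h4⟩ := h2.choose_spec
    refine ⟨_, ⟨_, ⟨h1, sys.hs_check _⟩, rfl⟩, ?_, ?_⟩
    · have h5 := isFunc_hat h h1 h3
      rw [π.hat_omega] at h5
      exact h5
    · intro α hα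
      obtain ⟨u, huA, hu, rfl⟩ := π.mem_hat.1 hα
      have h5 := h.cof _ h1 _ hu
      rw [dec_check, dec_check] at h5
      have h6 : ∃ z, z ∈ h2.choose ∧ ∃ p q, z = pair p q ∧ u ∈ q := by
        obtain ⟨x, y, h7, h8⟩ := h4 u huA
        exact ⟨_, h7, x, y, rfl, h8⟩
      unfold cofS at h5
      rw [dif_pos h6] at h5
      obtain ⟨h7, p, q, h8, h9⟩ := h6.choose_spec
      rw [h8] at h5 h7
      have hp := fst_Z h h5
      have hq := snd_Z h h5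
      refine ⟨π.hat p, π.hat q, ?_, (π.hat_mem_hat hu hq).2 h9⟩
      rw [← π.hat_pair hp hq]
      exact π.mem_hat.2 ⟨_, h7, h5, rfl⟩

end Gr

variable [Base]

/-- Piece GR. -/
theorem gr_main (hO : S_ORD) : S_GR :=
  Gr.holds_aux.of ∅ Set.countable_empty fun _ _ _ h => Gr.grP h

end Pool.Agent.R602.UU
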