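import Pool.Agent.R602.UU.Defs

/-!
# Piece HOM: homogeneity by flips
-/

set_option autoImplicit false
set_option linter.all false

namespace Pool.Agent.R602.UU

open Pool.Agent.W868 Pool.Agent.W868.PName Pool.Agent.R598.SY Cardinal
open ZFSet (pair)

variable [Base]

/-- The union of two conditions, where the first one has priority. -/
def uni (q p : P) : P := ⟨fun m x => (q.1 m x).or (p.1 m x), fun m => by
  have h1 : {x | (q.1 m x).or (p.1 m x) ≠ none} ⊆ {x | q.1 m x ≠ none} ∪ {x | p.1 m x ≠ none} := by
    intro x hx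
    by_contra hc
    have h2 : ¬ (q.1 m x ≠ none ∨ p.1 m x ≠ none) := hc
    push Not at h2
    exact hx (by rw [h2.1, h2.2]; rfl)
  have h3 : #({x | (q.1 m x).or (p.1 m x) ≠ none} : Set X) ≤ bt m :=
    (Cardinal.mk_le_mk_of_subset h1).trans ((Cardinal.mk_union_le _ _).trans
      ((add_le_add (q.2 m) (p.2 m)).trans (Cardinal.add_eq_self (aleph0_le_bt m)).le))
  exact h3⟩

theorem uni_val (q p : P) (m : ℕ) (x : X) : (uni q p).1 m x = (q.1 m x).or (p.1 m x) := rfl

theorem uni_le (q p : P) : uni q p ≤ q := by
  intro m x b h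
  rw [uni_val, h]
  rfl

open Classical in
/-- The flip that makes `p` compatible with `q`. -/
noncomputable def flp (q p : P) : G := fun m x =>
  if ∃ b, q.1 m x = some b ∧ p.1 m x = some (!b) then Equiv.boolNot else 1

theorem flp_mem {n : ℕ} {q p : P} (h : q ≤ lo n p) : flp q p ∈ H n := by
  intro m hm
  funext x
  unfold flp
  rw [if_neg]
  · rfl
  rintro ⟨b, hb, hb'⟩
  have h1 : (lo n p).1 m x = some (!b) := by
    change (if m < n then p.1 m x else none) = some (!b)
    rw [if_pos hm]
    exact hb'
  have h2 := h m x _ h1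
  rw [hb] at h2
  have h3 := Option.some.inj h2
  cases b <;> cases h3

theorem uni_le_mv (q p : P) : uni q (mv (flp q p) p) ≤ mv (flp q p) p := by
  intro m x b hb
  rw [uni_val]
  cases hq : q.1 m x with
  | none =>
    rw [hb]
    rfl
  | some d =>
    rw [mv_val, Option.map_eq_some_iff] at hb
    obtain ⟨c, hc, hcb⟩ := hb
    change some d = some b
    congr 1
    unfold flp at hcb
    by_cases hdc : c = !d
    · rw [if_pos ⟨d, hq, by rw [hc, hdc]⟩] at hcb
      rw [← hcb, hdc]
      change d = !!d
      rw [Bool.not_not]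
    · rw [if_neg] at hcb
      · rw [← hcb]
        change d = c
        revert hdc
        cases c <;> cases d <;> simp
      · rintro ⟨b', hb', hb''⟩
        apply hdc
        rw [hq] at hb'
        rw [hc] at hb''
        rw [Option.some.inj hb', Option.some.inj hb'']

theorem hom_main : S_HOM := by
  intro n x y hx hy p hp
  refine fmem_dense fun q hq => ⟨uni q (mv (flp q p) p), uni_le _ _, ?_⟩
  have h1 : Fmem (act (sys.ac (flp q p)) x) (act (sys.ac (flp q p)) y) (mv (flp q p) p) :=
    fmem_act.2 hp
  have h2 := h1.mono (uni_le_mv q p)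
  exact fmem_congr (hx _ (flp_mem hq) _) (hy _ (flp_mem hq) _) h2

end Pool.Agent.R602.UU
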