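import Pool.Agent.R602.UU.Defs

/-!
# Piece KEY: few open dense sets can be met by changing only the coordinates less than `n`
-/

set_option autoImplicit false
set_option linter.all false

namespace Pool.Agent.R602.UU

open Cardinal

namespace Key

variable [Base]

theorem bt_mono {m n : ℕ} (h : m ≤ n) : bt m ≤ bt n := by
  induction h with
  | refl => exact le_rfl
  | step h ih => exact ih.trans (bt_lt_succ _).le

/-- Incompatible in the coordinates less than `n`. -/
def Inc (n : ℕ) (r r' : P) : Prop :=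
  ∃ m < n, ∃ x b, r.1 m x = some b ∧ r'.1 m x = some (!b)

theorem Inc.symm {n : ℕ} {r r' : P} (h : Inc n r r') : Inc n r' r := by
  obtain ⟨m, hm, x, b, h1, h2⟩ := h
  exact ⟨m, hm, x, !b, h2, by rw [Bool.not_not]; exact h1⟩

theorem Inc.irrefl {n : ℕ} {r : P} (h : Inc n r r) : False := by
  obtain ⟨m, hm, x, b, h1, h2⟩ := h
  rw [h1] at h2
  cases b <;> cases h2

/-- The pairs to which Zorn's lemma is applied. -/
structure Ok (n : ℕ) (a : Type) (D : a → Set P) (p : P) (t : P × Set (a × P)) : Prop where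
  le : t.1 ≤ p
  eq : ∀ m < n, t.1.1 m = p.1 m
  mem : ∀ z ∈ t.2, mix n z.2 t.1 ∈ D z.1
  inc : ∀ z ∈ t.2, ∀ z' ∈ t.2, z.1 = z'.1 → z.2 ≠ z'.2 → Inc n z.2 z'.2

theorem card_le (hC : S_CC) {n : ℕ} {a : Type} (ha : #a ≤ bt n) (A : Set (a × P))
    (h : ∀ z ∈ A, ∀ z' ∈ A, z.1 = z'.1 → z.2 ≠ z'.2 → Inc n z.2 z'.2) : #A ≤ bt n := by
  have h1 : A ⊆ ⋃ i : a, (fun r : P => (i, r)) '' {r | (i, r) ∈ A} := by
    intro z hz
    exact Set.mem_iUnion.2 ⟨z.1, z.2, hz, rfl⟩
  have h2 : ∀ i : a, #((fun r : P => (i, r)) '' {r | (i, r) ∈ A}) ≤ bt n := by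
    intro i
    refine Cardinal.mk_image_le.trans (hC n _ ?_)
    intro r hr r' hr' hne
    exact h (i, r) hr (i, r') hr' rfl hne
  refine (Cardinal.mk_le_mk_of_subset h1).trans ((Cardinal.mk_iUnion_le _).trans ?_)
  refine (mul_le_mul' ha (ciSup_le' h2)).trans ?_
  rw [Cardinal.mul_eq_self (aleph0_le_bt n)]

theorem exists_un (c : Set P) (hc : ∀ q ∈ c, ∀ q' ∈ c, q ≤ q' ∨ q' ≤ q)
    (hs : ∀ m, #{x : X // ∃ q ∈ c, q.1 m x ≠ none} ≤ bt m) :
    ∃ u : P, (∀ q ∈ c, u ≤ q) ∧ ∀ m x b, u.1 m x = some b → ∃ q ∈ c, q.1 m x = some b := by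
  classical
  let f : ℕ → X → Option Bool := fun m x =>
    if h : ∃ q ∈ c, q.1 m x ≠ none then h.choose.1 m x else none
  have hf : ∀ m x, f m x ≠ none → ∃ q ∈ c, q.1 m x ≠ none := by
    intro m x h
    by_contra h'
    exact h (dif_neg h')
  refine ⟨⟨f, fun m => ?_⟩, ?_, ?_⟩
  · refine (Cardinal.mk_le_of_injective (f := fun t : {x // f m x ≠ none} =>
      (⟨t.1, hf m t.1 t.2⟩ : {x : X // ∃ q ∈ c, q.1 m x ≠ none})) ?_).trans (hs m)
    intro s t hst
    exact Subtype.ext (congrArg (fun z : {x : X // ∃ q ∈ c, q.1 m x ≠ none} => z.1) hst)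
  · intro q hq m x b hb
    have h : ∃ q ∈ c, q.1 m x ≠ none := ⟨q, hq, by rw [hb]; exact Option.some_ne_none b⟩
    change f m x = some b
    have h1 : f m x = h.choose.1 m x := dif_pos h
    rw [h1]
    obtain ⟨h2, h3⟩ := h.choose_spec
    rcases hc _ hq _ h2 with h4 | h4
    · obtain ⟨b', hb'⟩ := Option.ne_none_iff_exists'.mp h3
      have h5 := h4 m x b' hb'
      rw [hb', ← h5, hb]
    · exact h4 m x b hb
  · intro m x b hb
    change f m x = some b at hb
    have h : ∃ q ∈ c, q.1 m x ≠ none := hf m x (by rw [hb]; exact Option.some_ne_none b)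
    have h1 : f m x = h.choose.1 m x := dif_pos h
    exact ⟨h.choose, h.choose_spec.1, by rw [← h1, hb]⟩

theorem mix_le {n : ℕ} {r r' q q' : P} (h : ∀ m < n, ∀ x b, r.1 m x = some b → r'.1 m x = some b)
    (h' : ∀ m, n ≤ m → ∀ x b, q.1 m x = some b → q'.1 m x = some b) :
    mix n r' q' ≤ mix n r q := by
  intro m x b hb
  change (if m < n then r.1 m x else q.1 m x) = some b at hb
  change (if m < n then r'.1 m x else q'.1 m x) = some b
  by_cases hm : m < n
  · rw [if_pos hm] at hb ⊢
    exact h m hm x b hb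
  · rw [if_neg hm] at hb ⊢
    exact h' m (not_lt.1 hm) x b hb

/-- The condition `s` together with the values of `r` in the coordinates less than `n`. -/
theorem exists_add {n : ℕ} {s r : P} (h : ¬ Inc n s r) :
    ∃ s' ≤ s, ∀ m < n, ∀ x b, r.1 m x = some b → s'.1 m x = some b := by
  refine ⟨⟨fun m x => (s.1 m x).or (r.1 m x), fun m => ?_⟩, ?_, ?_⟩
  · have h1 : {x : X | (s.1 m x).or (r.1 m x) ≠ none} ⊆
        {x : X | s.1 m x ≠ none} ∪ {x : X | r.1 m x ≠ none} := by
      intro x hx
      by_cases hs : s.1 m x = none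
      · right
        intro hr
        apply hx
        change (s.1 m x).or (r.1 m x) = none
        rw [hs, hr]
        rfl
      · left
        exact hs
    refine (Cardinal.mk_le_mk_of_subset h1).trans ((Cardinal.mk_union_le _ _).trans ?_)
    refine (add_le_add (s.2 m) (r.2 m)).trans ?_
    rw [Cardinal.add_eq_self (aleph0_le_bt m)]
  · intro m x b hb
    change (s.1 m x).or (r.1 m x) = some b
    rw [hb]
    rfl
  · intro m hm x b hb
    change (s.1 m x).or (r.1 m x) = some b
    cases hs : s.1 m x with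
    | none => rw [hb]; rfl
    | some b' =>
      change some b' = some b
      by_contra hne
      apply h
      refine ⟨m, hm, x, b', hs, ?_⟩
      rw [hb]
      cases b <;> cases b' <;> first | rfl | exact absurd rfl hne

end Key

open Key

variable [Base]

theorem key_main (hC : S_CC) : S_KEY := by
  intro n a D ha hd ho p
  classical
  let T := {t : P × Set (a × P) // Ok n a D p t}
  let R : T → T → Prop := fun s t => s = t ∨ (t.1.1 ≤ s.1.1 ∧ s.1.2 ⊂ t.1.2)
  have hR : ∀ {s t u : T}, R s t → R t u → R s u := by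
    intro s t u h1 h2
    rcases h1 with rfl | h1
    · exact h2
    · rcases h2 with rfl | h2
      · exact Or.inr h1
      · exact Or.inr ⟨h2.1.trans h1.1, h1.2.trans h2.2⟩
  have hRq : ∀ {s t : T}, R s t → t.1.1 ≤ s.1.1 := by
    intro s t h
    rcases h with rfl | h
    · exact le_rfl
    · exact h.1
  have hRA : ∀ {s t : T}, R s t → s.1.2 ⊆ t.1.2 := by
    intro s t h
    rcases h with rfl | h
    · exact le_rfl
    · exact h.2.1
  have hch : ∀ c : Set T, IsChain R c → ∃ ub, ∀ t ∈ c, R t ub := by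
    intro c hc
    have hct : ∀ s ∈ c, ∀ t ∈ c, R s t ∨ R t s := by
      intro s hs t ht
      by_cases hst : s = t
      · exact Or.inl (Or.inl hst)
      · exact hc hs ht hst
    rcases Set.eq_empty_or_nonempty c with rfl | ⟨t0, ht0⟩
    · refine ⟨⟨(p, ∅), ⟨le_rfl, fun _ _ => rfl, fun z hz => absurd hz (Set.notMem_empty z),
        fun z hz => absurd hz (Set.notMem_empty z)⟩⟩, fun t ht => absurd ht (Set.notMem_empty t)⟩
    by_cases hcase : ∃ t ∈ c, (⋃ s ∈ c, s.1.2) ⊆ t.1.2
    · obtain ⟨t, ht, hU⟩ := hcase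
      refine ⟨t, fun s hs => ?_⟩
      rcases hct s hs t ht with h | h
      · exact h
      · rcases h with rfl | h
        · exact Or.inl rfl
        · exact absurd (fun z hz => hU (Set.mem_biUnion hs hz)) h.2.2
    · have hcase' : ∀ t ∈ c, ∃ z ∈ (⋃ s ∈ c, s.1.2), z ∉ t.1.2 := by
        intro t ht
        by_contra h
        push Not at h
        exact hcase ⟨t, ht, h⟩
      have hA : ∀ z ∈ (⋃ s ∈ c, s.1.2), ∀ z' ∈ (⋃ s ∈ c, s.1.2), z.1 = z'.1 → z.2 ≠ z'.2 →
          Inc n z.2 z'.2 := by
        intro z hz z' hz' h1 h2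
        obtain ⟨s, hs, hz⟩ := Set.mem_iUnion₂.1 hz
        obtain ⟨s', hs', hz'⟩ := Set.mem_iUnion₂.1 hz'
        rcases hct s hs s' hs' with h | h
        · exact s'.2.inc z (hRA h hz) z' hz' h1 h2
        · exact s.2.inc z hz z' (hRA h hz') h1 h2
      have hAc := card_le hC ha _ hA
      have hj : ∀ z : (⋃ s ∈ c, s.1.2 : Set (a × P)), ∃ s ∈ c, z.1 ∈ s.1.2 := fun z => by
        obtain ⟨s, hs, hz⟩ := Set.mem_iUnion₂.1 z.2
        exact ⟨s, hs, hz⟩
      choose j hj1 hj2 using hj
      obtain ⟨u, hu1, hu2⟩ := exists_un {q | ∃ t ∈ c, t.1.1 = q} (by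
        rintro _ ⟨s, hs, rfl⟩ _ ⟨t, ht, rfl⟩
        rcases hct s hs t ht with h | h
        · exact Or.inr (hRq h)
        · exact Or.inl (hRq h)) (by
        intro m
        by_cases hm : m < n
        · have h1 : {x : X | ∃ q ∈ {q | ∃ t ∈ c, t.1.1 = q}, q.1 m x ≠ none} ⊆
              {x : X | p.1 m x ≠ none} := by
            rintro x ⟨_, ⟨t, ht, rfl⟩, hx⟩
            rw [t.2.eq m hm] at hx
            exact hx
          exact (Cardinal.mk_le_mk_of_subset h1).trans (p.2 m)
        · have h1 : {x : X | ∃ q ∈ {q | ∃ t ∈ c, t.1.1 = q}, q.1 m x ≠ none} ⊆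
              ⋃ z : (⋃ s ∈ c, s.1.2 : Set (a × P)), {x : X | (j z).1.1.1 m x ≠ none} := by
            rintro x ⟨_, ⟨t, ht, rfl⟩, hx⟩
            obtain ⟨z, hz, hzt⟩ := hcase' t ht
            refine Set.mem_iUnion.2 ⟨⟨z, hz⟩, ?_⟩
            have h2 : R t (j ⟨z, hz⟩) := by
              rcases hct t ht _ (hj1 ⟨z, hz⟩) with h | h
              · exact h
              · exact absurd (hRA h (hj2 ⟨z, hz⟩)) hzt
            obtain ⟨b, hb⟩ := Option.ne_none_iff_exists'.mp hx
            have h3 := hRq h2 m x b hb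
            change (j ⟨z, hz⟩).1.1.1 m x ≠ none
            rw [h3]
            exact Option.some_ne_none b
          refine (Cardinal.mk_le_mk_of_subset h1).trans ((Cardinal.mk_iUnion_le _).trans ?_)
          refine (mul_le_mul' (hAc.trans (bt_mono (not_lt.1 hm)))
            (ciSup_le' fun z => (j z).1.1.2 m)).trans ?_
          rw [Cardinal.mul_eq_self (aleph0_le_bt m)])
      have hOk : Ok n a D p (u, ⋃ s ∈ c, s.1.2) := by
        refine ⟨?_, ?_, ?_, hA⟩
        · exact (hu1 _ ⟨t0, ht0, rfl⟩).trans t0.2.le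
        · intro m hm
          funext x
          change u.1 m x = p.1 m x
          cases hx : u.1 m x with
          | none =>
            cases hy : p.1 m x with
            | none => rfl
            | some b =>
              have h1 := ((hu1 _ ⟨t0, ht0, rfl⟩).trans t0.2.le) m x b hy
              rw [hx] at h1
              exact h1
          | some b =>
            obtain ⟨_, ⟨t, ht, rfl⟩, hb⟩ := hu2 m x b hx
            rw [t.2.eq m hm] at hb
            exact hb.symm
        · intro z hz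
          obtain ⟨s, hs, hz⟩ := Set.mem_iUnion₂.1 hz
          refine ho z.1 _ _ ?_ (s.2.mem z hz)
          exact mix_le (fun _ _ _ _ h => h) fun m _ x b h => hu1 _ ⟨s, hs, rfl⟩ m x b h
      refine ⟨⟨(u, ⋃ s ∈ c, s.1.2), hOk⟩, fun t ht => Or.inr ⟨hu1 _ ⟨t, ht, rfl⟩, ?_, ?_⟩⟩
      · intro z hz
        exact Set.mem_biUnion ht hz
      · intro h
        obtain ⟨z, hz, hzt⟩ := hcase' t ht
        exact hzt (h hz)
  obtain ⟨M, hM⟩ := exists_maximal_of_chains_bounded hch hR
  refine ⟨M.1.1, M.2.le, M.2.eq, fun i s hs => ?_⟩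
  by_cases hex : ∃ r, (i, r) ∈ M.1.2 ∧ ¬ Inc n s r
  · obtain ⟨r, hr, hsr⟩ := hex
    obtain ⟨s', hs', h⟩ := exists_add hsr
    refine ⟨s', hs', ho i _ _ ?_ (M.2.mem _ hr)⟩
    exact mix_le h fun _ _ _ _ h => h
  · exfalso
    push Not at hex
    obtain ⟨t', ht', htD⟩ := hd i (mix n s M.1.1)
    have hlow : ∀ m < n, ∀ x b, s.1 m x = some b → t'.1 m x = some b := by
      intro m hm x b hb
      apply ht' m x b
      change (if m < n then s.1 m x else M.1.1.1 m x) = some b
      rw [if_pos hm]
      exact hb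
    have hhigh : ∀ m, n ≤ m → ∀ x b, M.1.1.1 m x = some b → t'.1 m x = some b := by
      intro m hm x b hb
      apply ht' m x b
      change (if m < n then s.1 m x else M.1.1.1 m x) = some b
      rw [if_neg (not_lt.2 hm)]
      exact hb
    have hq' : mix n M.1.1 t' ≤ M.1.1 := by
      intro m x b hb
      change (if m < n then M.1.1.1 m x else t'.1 m x) = some b
      by_cases hm : m < n
      · rw [if_pos hm]
        exact hb
      · rw [if_neg hm]
        exact hhigh m (not_lt.1 hm) x b hb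
    have hinc : ∀ r, (i, r) ∈ M.1.2 → Inc n t' r := by
      intro r hr
      obtain ⟨m, hm, x, b, h1, h2⟩ := hex r hr
      exact ⟨m, hm, x, b, hlow m hm x b h1, h2⟩
    have hnot : (i, t') ∉ M.1.2 := fun h => (hinc t' h).irrefl
    have hOk : Ok n a D p (mix n M.1.1 t', insert (i, t') M.1.2) := by
      refine ⟨hq'.trans M.2.le, ?_, ?_, ?_⟩
      · intro m hm
        rw [← M.2.eq m hm]
        funext x
        change (if m < n then M.1.1.1 m x else t'.1 m x) = _
        rw [if_pos hm]
      · rintro z (rfl | hz)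
        · change mix n t' (mix n M.1.1 t') ∈ D i
          have h1 : mix n t' (mix n M.1.1 t') = t' := by
            refine Subtype.ext (funext fun m => funext fun x => ?_)
            change (if m < n then t'.1 m x else (if m < n then M.1.1.1 m x else t'.1 m x)) = _
            by_cases hm : m < n
            · rw [if_pos hm]
            · rw [if_neg hm, if_neg hm]
          rw [h1]
          exact htD
        · refine ho z.1 _ _ ?_ (M.2.mem z hz)
          exact mix_le (fun _ _ _ _ h => h) fun m _ x b h => hq' m x b h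
      · rintro z (rfl | hz) z' (rfl | hz') h1 h2
        · exact absurd rfl h2
        · have h3 : (i, z'.2) ∈ M.1.2 := by
            have h4 : z' = (i, z'.2) := Prod.ext h1.symm rfl
            rw [← h4]
            exact hz'
          exact hinc _ h3
        · have h3 : (i, z.2) ∈ M.1.2 := by
            have h4 : z = (i, z.2) := Prod.ext h1 rfl
            rw [← h4]
            exact hz
          exact (hinc _ h3).symm
        · exact M.2.inc z hz z' hz' h1 h2
    have hbig := hM ⟨_, hOk⟩ (Or.inr ⟨hq', Set.subset_insert _ _, fun h =>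
      hnot (h (Set.mem_insert _ _))⟩)
    exact hnot (hRA hbig (Set.mem_insert _ _))

end Pool.Agent.R602.UU
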