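import Pool.Agent.R602.UU.Defs

/-!
# There is no uniform ultrafilter on the limit cardinal
-/

set_option autoImplicit false
set_option linter.all false

namespace Pool.Agent.R602.UU

open Pool.Agent.W868 Pool.Agent.W868.PName Pool.Agent.R598.SY Cardinal
open ZFSet (pair)

variable [Base]

namespace Nou

/-- The ordinal of an index. -/
noncomputable def oX (x : X) : Ordinal.{0} := Ordinal.typein (α := lam.ord.ToType) (· < ·) x

theorem oX_lt (x : X) : oX x < lam.ord := Ordinal.typein_lt_self x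

theorem oX_inj {x y : X} (h : oX x = oX y) : x = y := Ordinal.typein_injective _ h

theorem oX_surj {b : Ordinal.{0}} (hb : b < lam.ord) : ∃ x, oX x = b :=
  Ordinal.typein_surj (α := lam.ord.ToType) (· < ·) (by rwa [Ordinal.type_toType])

theorem ck_inj {a b : Ordinal.{0}} (h : (ck a : PName P) = ck b) : a = b :=
  Ordinal.toZFSet_injective (check_injective h)

open Classical in
/-- The condition that gives the value `b` to `x` in the coordinate `m`. -/
noncomputable def sing (m : ℕ) (x : X) (b : Bool) : P :=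
  ⟨fun n y => if n = m ∧ y = x then some b else none, fun n => by
    have h1 : Subsingleton {y // (if n = m ∧ y = x then some b else none) ≠ none} := by
      refine ⟨fun s t => Subtype.ext ?_⟩
      have hs : s.1 = x := by
        by_contra h
        exact s.2 (if_neg fun h' => h h'.2)
      have ht : t.1 = x := by
        by_contra h
        exact t.2 (if_neg fun h' => h h'.2)
      rw [hs, ht]
    exact (Cardinal.le_one_iff_subsingleton.2 h1).trans
      (Cardinal.one_le_aleph0.trans (aleph0_le_bt n))⟩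

theorem sing_self (m : ℕ) (x : X) (b : Bool) : (sing m x b).1 m x = some b := if_pos ⟨rfl, rfl⟩

theorem le_sing {p : P} {m : ℕ} {x : X} {b : Bool} : p ≤ sing m x b ↔ p.1 m x = some b := by
  constructor
  · intro h
    exact h m x b (sing_self m x b)
  · intro h n y c hc
    change (if n = m ∧ y = x then some b else none) = some c at hc
    by_cases h1 : n = m ∧ y = x
    · rw [if_pos h1] at hc
      obtain ⟨rfl, rfl⟩ := h1
      rw [← hc]
      exact h
    · rw [if_neg h1] at hc
      cases hc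

theorem mv_sing (g : G) (m : ℕ) (x : X) (b : Bool) : mv g (sing m x b) = sing m x (g m x b) := by
  refine Subtype.ext (funext fun n => funext fun y => ?_)
  rw [mv_val]
  change (if n = m ∧ y = x then some b else none).map (g n y) =
    if n = m ∧ y = x then some (g m x b) else none
  by_cases h1 : n = m ∧ y = x
  · rw [if_pos h1, if_pos h1]
    obtain ⟨rfl, rfl⟩ := h1
    rfl
  · rw [if_neg h1, if_neg h1]
    rfl

open Classical in
/-- The condition `p` with the value `b` at `x` in the coordinate `m`. -/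
noncomputable def upd (p : P) (m : ℕ) (x : X) (b : Bool) : P :=
  ⟨fun n y => if n = m ∧ y = x then some b else p.1 n y, fun n => by
    have h1 : ∃ f : {y // (if n = m ∧ y = x then some b else p.1 n y) ≠ none} →
        Option {y // p.1 n y ≠ none}, Function.Injective f := by
      refine ⟨fun s => if h : p.1 n s.1 ≠ none then some ⟨s.1, h⟩ else none, ?_⟩
      have hx : ∀ s : {y // (if n = m ∧ y = x then some b else p.1 n y) ≠ none},
          ¬ p.1 n s.1 ≠ none → s.1 = x := by
        intro s hs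
        by_contra h
        refine hs ?_
        have h2 := s.2
        rwa [if_neg fun h' => h h'.2] at h2
      intro s t hst
      refine Subtype.ext ?_
      by_cases hs : p.1 n s.1 ≠ none
      · by_cases ht : p.1 n t.1 ≠ none
        · simp only [dif_pos hs, dif_pos ht, Option.some.injEq, Subtype.mk.injEq] at hst
          exact hst
        · simp only [dif_pos hs, dif_neg ht] at hst
          cases hst
      · by_cases ht : p.1 n t.1 ≠ none
        · simp only [dif_neg hs, dif_pos ht] at hst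
          cases hst
        · rw [hx s hs, hx t ht]
    obtain ⟨f, hf⟩ := h1
    refine (Cardinal.mk_le_of_injective hf).trans ?_
    rw [Cardinal.mk_option]
    refine (add_le_add_left (p.2 n) 1).trans ?_
    rw [Cardinal.add_one_eq (aleph0_le_bt n)]⟩

theorem upd_self (p : P) (m : ℕ) (x : X) (b : Bool) : (upd p m x b).1 m x = some b :=
  if_pos ⟨rfl, rfl⟩

theorem upd_le {p : P} {m : ℕ} {x : X} (h : p.1 m x = none) (b : Bool) : upd p m x b ≤ p := by
  intro n y c hc
  change (if n = m ∧ y = x then some b else p.1 n y) = some c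
  by_cases h1 : n = m ∧ y = x
  · obtain ⟨rfl, rfl⟩ := h1
    rw [h] at hc
    cases hc
  · rw [if_neg h1]
    exact hc

/-- The name for the set of the `x` such that the value at `x` is `f x`. -/
noncomputable def A (m : ℕ) (f : X → Bool) : PName P :=
  PName.mk X (fun x => ck (oX x)) (fun x => sing m x (f x))

theorem act_ck (g : sys.G) (a : Ordinal.{0}) : act (sys.ac g) (ck a) = ck a :=
  act_check (sys.top g) _

theorem act_A (g : G) (m : ℕ) (f : X → Bool) :
    act (sys.ac g) (A m f) = A m (fun x => g m x (f x)) := by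
  unfold A
  rw [act]
  congr 1
  · funext x
    exact act_ck g _
  · funext x
    rw [ac_apply, mv_sing]

theorem hs_A (m : ℕ) (f : X → Bool) : sys.HS (A m f) := by
  refine sys.hs_iff.2 ⟨⟨H (m + 1), ⟨m + 1, rfl⟩, fun g hg p => ?_⟩, ?_⟩
  · have h1 : act (sys.ac g) (A m f) = A m f := by
      refine (act_A g m f).trans ?_
      congr 1
      funext x
      have h2 : (g : G) m = 1 := hg m (Nat.lt_succ_self m)
      rw [h2]
      rfl
    rw [h1]
    exact Feq.refl _ _
  · rintro z c ⟨x, rfl, rfl⟩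
    exact sys.hs_check _

theorem mem_A {π : Pkg P} {m : ℕ} {f : X → Bool} {z : ZFSet.{0}} : z ∈ π.val (A m f) ↔
    ∃ x, ck (oX x) ∈ π.N ∧ (∃ n, (π.g n).1 m x = some (f x)) ∧ π.val (ck (oX x)) = z := by
  rw [π.mem_val]
  constructor
  · rintro ⟨y, hy, c, ⟨x, rfl, rfl⟩, ⟨n, hn⟩, rfl⟩
    exact ⟨x, hy, ⟨n, le_sing.1 hn⟩, rfl⟩
  · rintro ⟨x, hx, ⟨n, hn⟩, rfl⟩
    exact ⟨_, hx, _, ⟨x, rfl, rfl⟩, ⟨n, le_sing.2 hn⟩, rfl⟩

theorem g_some {π : Pkg P} {m n k : ℕ} {x : X} {b c : Bool} (h1 : (π.g n).1 m x = some b)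
    (h2 : (π.g k).1 m x = some c) : b = c := by
  have h3 := π.g_le_left n k m x b h1
  have h4 := π.g_le_right n k m x c h2
  rw [h3] at h4
  injection h4

/-- The conditions that decide whether the ordinal with the name `y` is in the set. -/
def Dn (m : ℕ) (y : PName P) : Set P := {r | ∀ x, y = ck (oX x) → r.1 m x ≠ none}

/-- The other values. -/
noncomputable def fl (m : ℕ) (b : Bool) (p : P) : X → Bool :=
  open Classical in fun x => if p.1 m x = none then !b else b

theorem exists_emb (m : ℕ) (p : P) :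
    Nonempty ({x // p.1 m x ≠ none} ↪ (bt m).ord.ToType) := by
  have h := p.2 m
  rw [← Cardinal.mk_ord_toType (bt m)] at h
  exact Cardinal.le_def _ _ |>.1 h

/-- An injection of the domain into the ordinals less than the beth number. -/
noncomputable def jj (m : ℕ) (p : P) (x : {x // p.1 m x ≠ none}) : Ordinal.{0} :=
  Ordinal.typein (α := (bt m).ord.ToType) (· < ·) ((exists_emb m p).some x)

theorem jj_lt (m : ℕ) (p : P) (x : {x // p.1 m x ≠ none}) : jj m p x < (bt m).ord :=
  Ordinal.typein_lt_self _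

theorem jj_inj (m : ℕ) (p : P) {x y : {x // p.1 m x ≠ none}} (h : jj m p x = jj m p y) : x = y :=
  (exists_emb m p).some.injective (Ordinal.typein_injective _ h)

/-- The graph of the injection. -/
noncomputable def Js (m : ℕ) (p : P) : ZFSet.{0} :=
  ZFSet.range fun x : {x // p.1 m x ≠ none} => pair (oX x.1).toZFSet (jj m p x).toZFSet

theorem mem_Js {m : ℕ} {p : P} {z : ZFSet.{0}} : z ∈ Js m p ↔
    ∃ x : {x // p.1 m x ≠ none}, pair (oX x.1).toZFSet (jj m p x).toZFSet = z := by
  unfold Js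
  rw [ZFSet.mem_range]

open Classical in
/-- The value of the injection. -/
noncomputable def ej (m : ℕ) (y : PName P) (p : P) : PName P :=
  if h : ∃ x : {x // p.1 m x ≠ none}, y = ck (oX x.1) then ck (jj m p h.choose) else emp

theorem ej_eq (m : ℕ) (p : P) (x : {x // p.1 m x ≠ none}) :
    ej m (ck (oX x.1)) p = ck (jj m p x) := by
  have h : ∃ x' : {x // p.1 m x ≠ none}, (ck (oX x.1) : PName P) = ck (oX x'.1) := ⟨x, rfl⟩
  unfold ej
  rw [dif_pos h]
  have h1 : h.choose = x := Subtype.ext (oX_inj (ck_inj h.choose_spec)).symm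
  rw [h1]

/-- The rules. -/
noncomputable def R : Set (Rule P) :=
  (Set.range fun t : ℕ × Bool => rl (fun _ => A t.1 (fun _ => t.2))) ∪
  ((Set.range fun t : ℕ × Bool => rl2 (fun _ _ p => A t.1 (fl t.1 t.2 p))) ∪
  ((Set.range fun m : ℕ => rl (fun y => Sys.nm P (Dn m y))) ∪
  ((Set.range fun m : ℕ => rl2 (fun _ _ p => check (Js m p))) ∪
  (Set.range fun m : ℕ => rl2 (fun y _ p => ej m y p)))))

theorem R_countable : R.Countable :=
  (Set.countable_range _).union ((Set.countable_range _).union ((Set.countable_range _).union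
    ((Set.countable_range _).union (Set.countable_range _))))

section

variable {π : Pkg P} (hR : Clo R π)

include hR

theorem A_N (m : ℕ) (b : Bool) : A m (fun _ => b) ∈ π.N :=
  hR.rl (f := fun _ => A m (fun _ => b)) (Or.inl ⟨(m, b), rfl⟩) (emp_N π)

theorem A'_N (m : ℕ) (b : Bool) {p : P} (hp : p ∈ π.C) : A m (fl m b p) ∈ π.N :=
  hR.rl2 (f := fun _ _ p => A m (fl m b p)) (Or.inr (Or.inl ⟨(m, b), rfl⟩)) (emp_N π) (emp_N π) hp

theorem Dn_N (m : ℕ) {y : PName P} (hy : y ∈ π.N) : Sys.nm P (Dn m y) ∈ π.N :=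
  hR.rl (f := fun y => Sys.nm P (Dn m y)) (Or.inr (Or.inr (Or.inl ⟨m, rfl⟩))) hy

theorem Js_N (m : ℕ) {p : P} (hp : p ∈ π.C) : check (Js m p) ∈ π.N :=
  hR.rl2 (f := fun _ _ p => check (Js m p)) (Or.inr (Or.inr (Or.inr (Or.inl ⟨m, rfl⟩))))
    (emp_N π) (emp_N π) hp

theorem jj_N (m : ℕ) {p : P} (hp : p ∈ π.C) (x : {x // p.1 m x ≠ none})
    (hx : ck (oX x.1) ∈ π.N) : ck (jj m p x) ∈ π.N := by
  rw [← ej_eq m p x]
  exact hR.rl2 (f := fun y _ p => ej m y p) (Or.inr (Or.inr (Or.inr (Or.inr ⟨m, rfl⟩))))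
    hx (emp_N π) hp

theorem exists_val (m : ℕ) (x : X) (hx : ck (oX x) ∈ π.N) : ∃ k b, (π.g k).1 m x = some b := by
  obtain ⟨k, hk | hk⟩ := gen_nm (A := Dn m (ck (oX x))) (Dn_N hR m hx) (by
    intro r hr s hs y hy h1
    have h2 := hr y hy
    rw [Option.ne_none_iff_exists'] at h2
    obtain ⟨b, hb⟩ := h2
    rw [hs m y b hb] at h1
    cases h1)
  · have h1 := hk x rfl
    rw [Option.ne_none_iff_exists'] at h1
    exact ⟨k, h1⟩
  · by_cases h : (π.g k).1 m x = none
    · refine absurd ?_ (hk _ (upd_le h true))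
      intro y hy
      obtain rfl := oX_inj (ck_inj hy)
      rw [upd_self]
      exact Option.some_ne_none _
    · rw [← ne_eq, Option.ne_none_iff_exists'] at h
      exact ⟨k, h⟩

end

end Nou

open Nou in
theorem nou_main (hO : S_ORD) (hG : S_GR) : S_NOU := by
  refine (hO.and hG).of R R_countable ?_
  rintro π hR hc ⟨ho, hg⟩ hk ⟨D, hD⟩
  have hM := isZF hc
  -- the name for the ultrafilter
  obtain ⟨Dd, ⟨hDN, hDS⟩, hDe⟩ := hD.mem
  obtain ⟨K, ⟨m, rfl⟩, hfix⟩ := hDS.sym
  have hAM : ∀ f, A m f ∈ π.N → π.val (A m f) ∈ sys.Ms π := fun f hf => ⟨_, ⟨hf, hs_A m f⟩, rfl⟩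
  have hAs : ∀ f, π.val (A m f) ⊆ π.val (ck lam.ord) := by
    intro f z hz
    obtain ⟨x, hx, -, rfl⟩ := mem_A.1 hz
    exact (ho.mem _ hg.lam _).2 ⟨_, oX_lt x, hx, rfl⟩
  -- one of the two sets is in the ultrafilter
  obtain ⟨b, hb⟩ : ∃ b, π.val (A m (fun _ => b)) ∈ D := by
    by_cases h1 : π.val (A m (fun _ => true)) ∈ D
    · exact ⟨true, h1⟩
    · refine ⟨false, ?_⟩
      have h2 : π.val (ck lam.ord) \ π.val (A m (fun _ => false)) =
          π.val (A m (fun _ => true)) := by
        ext z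
        rw [ZFSet.mem_sdiff]
        constructor
        · rintro ⟨h3, h4⟩
          obtain ⟨β, hβ, hβN, rfl⟩ := (ho.mem _ hg.lam _).1 h3
          obtain ⟨x, rfl⟩ := oX_surj hβ
          obtain ⟨k, b, hk⟩ := exists_val hR m x hβN
          cases b with
          | true => exact mem_A.2 ⟨x, hβN, ⟨k, hk⟩, rfl⟩
          | false => exact absurd (mem_A.2 ⟨x, hβN, ⟨k, hk⟩, rfl⟩) h4
        · intro h3
          refine ⟨hAs _ h3, fun h4 => ?_⟩
          obtain ⟨x, hx, ⟨n, hn⟩, rfl⟩ := mem_A.1 h3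
          obtain ⟨x', hx', ⟨n', hn'⟩, he⟩ := mem_A.1 h4
          obtain rfl := oX_inj (ho.inj _ _ hx' hx he)
          exact Bool.noConfusion (g_some hn hn')
      refine (hD.ultra _ (hAM _ (A_N hR m false)) (hAs _)).2 ?_
      rw [h2]
      exact h1
  -- a condition that forces this
  have hb' := hb
  rw [← hDe] at hb'
  obtain ⟨k, hF⟩ := (π.val_mem_iff (A_N hR m b) hDN).1 hb'
  set p : P := π.g k with hp
  have hpC : p ∈ π.C := π.gC k
  -- the automorphism
  have h1 : ∃ g : G, g ∈ H m ∧ mv g p = p ∧ ∀ x, g m x b = fl m b p x := by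
    classical
    refine ⟨fun n x => if n = m ∧ p.1 m x = none then Equiv.swap true false else 1, ?_, ?_, ?_⟩
    · intro n hn
      funext x
      exact if_neg fun h => hn.ne h.1
    · refine Subtype.ext (funext fun n => funext fun x => ?_)
      rw [mv_val]
      by_cases h2 : n = m ∧ p.1 m x = none
      · obtain ⟨rfl, h3⟩ := h2
        rw [h3]
        rfl
      · rw [if_neg h2]
        cases p.1 n x <;> rfl
    · intro x
      change (if m = m ∧ p.1 m x = none then Equiv.swap true false else (1 : Equiv.Perm Bool)) b =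
        if p.1 m x = none then !b else b
      by_cases h2 : p.1 m x = none
      · rw [if_pos ⟨rfl, h2⟩, if_pos h2]
        cases b
        · exact Equiv.swap_apply_right _ _
        · exact Equiv.swap_apply_left _ _
      · rw [if_neg fun h => h2 h.2, if_neg h2]
        rfl
  obtain ⟨g, hgH, hgp, hgx⟩ := h1
  have h2 : Fmem (A m (fl m b p)) Dd p := by
    have h3 := fmem_act' (e := sys.ac g) hF
    have h4 : act (sys.ac g) (A m (fun _ => b)) = A m (fl m b p) := by
      refine (act_A g m _).trans ?_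
      congr 1
      funext x
      exact hgx x
    have h5 : sys.ac g p = p := hgp
    rw [h4, h5] at h3
    exact fmem_congr (Feq.refl _ _) (hfix g hgH p) h3
  have h3 : π.val (A m (fl m b p)) ∈ D := by
    rw [← hDe]
    exact (π.val_mem_iff (A'_N hR m b hpC) hDN).2 ⟨k, h2⟩
  have h4 := hD.inter _ hb _ h3
  set Y : ZFSet.{0} := π.val (A m (fun _ => b)) ∩ π.val (A m (fl m b p)) with hY
  have h5 : ∀ z ∈ Y, ∃ x : {x // p.1 m x ≠ none}, ck (oX x.1) ∈ π.N ∧
      π.val (ck (oX x.1)) = z := by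
    intro z hz
    obtain ⟨h6, h7⟩ := ZFSet.mem_inter.1 hz
    obtain ⟨x, hx, ⟨n, hn⟩, rfl⟩ := mem_A.1 h6
    obtain ⟨x', hx', ⟨n', hn'⟩, he⟩ := mem_A.1 h7
    obtain rfl := oX_inj (ho.inj _ _ hx' hx he)
    refine ⟨⟨x', fun h8 => ?_⟩, hx, rfl⟩
    have h9 := g_some hn hn'
    unfold fl at h9
    rw [if_pos h8] at h9
    cases b <;> cases h9
  obtain ⟨f, hfM, hf⟩ := hD.uni _ h4
  -- the injection
  have hμN := hg.bt m
  have hlt : (bt m).ord < lam.ord := by
    rw [Cardinal.ord_lt_ord]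
    refine (bt_lt_succ m).trans_le ?_
    exact le_ciSup (Cardinal.bddAbove_of_small) (m + 1)
  have hμk : π.val (ck (bt m).ord) ∈ π.val (ck lam.ord) := (ho.lt _ _ hμN hg.lam).2 hlt
  have hJM : π.val (check (Js m p)) ∈ sys.Ms π := ⟨_, ⟨Js_N hR m hpC, sys.hs_check _⟩, rfl⟩
  have hYM : Y ∈ sys.Ms π := hM.trans _ hD.mem _ h4
  have hμM : π.val (ck (bt m).ord) ∈ sys.Ms π := ho.ms _ hμN
  have hpair : ∀ (x : {x // p.1 m x ≠ none}) (β : Ordinal.{0}), ck (oX x.1) ∈ π.N → ck β ∈ π.N →
      (pair (π.val (ck (oX x.1))) (π.val (ck β)) ∈ π.val (check (Js m p)) ↔ β = jj m p x) := by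
    intro x β hx hβ
    have h6 : pair (π.val (ck (oX x.1))) (π.val (ck β)) =
        π.hat (pair (oX x.1).toZFSet β.toZFSet) := (π.hat_pair hx hβ).symm
    rw [h6]
    change π.hat _ ∈ π.hat (Js m p) ↔ _
    rw [π.hat_mem_hat (π.pair_mem_Z hx hβ) (Js_N hR m hpC), mem_Js]
    constructor
    · rintro ⟨x', h7⟩
      obtain ⟨h8, h9⟩ := ZFSet.pair_inj.1 h7
      have h10 : x' = x := Subtype.ext (oX_inj (Ordinal.toZFSet_injective h8))
      rw [← Ordinal.toZFSet_injective h9, h10]
    · rintro rfl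
      exact ⟨x, rfl⟩
  refine hk.2.2.2 _ hμk ?_
  have hB := hM.base
  have hdfn : Dfn (sys.Ms π) (sys.Ms π) fun w : Fin 2 → ZFSet.{0} =>
      ∃ y ∈ Y, pair y (w 0) ∈ f ∧ pair y (w 1) ∈ π.val (check (Js m p)) := by
    (repeat' first
      | assumption
      | exact DfnF.proj _
      | exact DfnF.const (by assumption)
      | exact DfnF.const' (by first | assumption | trivial) (by first | assumption | trivial)
      | exact Dfn.prop _
      | apply Dfn.not | apply Dfn.and | apply Dfn.or | apply Dfn.imp | apply Dfn.iff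
      | apply hB.bex | apply hB.ball | apply Dfn.ex | apply Dfn.all
      | apply Dfn.eq | apply Dfn.mem | apply hB.pair')
  obtain ⟨h, hhM, hhs, hh⟩ := hM.rel_mem hk.1 hμM
    (Q := fun a b => ∃ y ∈ Y, pair y a ∈ f ∧ pair y b ∈ π.val (check (Js m p))) hdfn
  -- functionality
  have hJf : ∀ y ∈ Y, ∀ c ∈ π.val (ck (bt m).ord), ∀ c' ∈ π.val (ck (bt m).ord),
      pair y c ∈ π.val (check (Js m p)) → pair y c' ∈ π.val (check (Js m p)) → c = c' := by
    intro y hy c hcμ c' hc'μ h6 h7
    obtain ⟨x, hx, rfl⟩ := h5 y hy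
    obtain ⟨β, -, hβ, rfl⟩ := (ho.mem _ hμN _).1 hcμ
    obtain ⟨β', -, hβ', rfl⟩ := (ho.mem _ hμN _).1 hc'μ
    rw [hpair x β hx hβ] at h6
    rw [hpair x β' hx hβ'] at h7
    rw [h6, h7]
  have hJi : ∀ y ∈ Y, ∀ y' ∈ Y, ∀ c ∈ π.val (ck (bt m).ord),
      pair y c ∈ π.val (check (Js m p)) → pair y' c ∈ π.val (check (Js m p)) → y = y' := by
    intro y hy y' hy' c hcμ h6 h7
    obtain ⟨x, hx, rfl⟩ := h5 y hy
    obtain ⟨x', hx', rfl⟩ := h5 y' hy'
    obtain ⟨β, -, hβ, rfl⟩ := (ho.mem _ hμN _).1 hcμ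
    rw [hpair x β hx hβ] at h6
    rw [hpair x' β hx' hβ] at h7
    rw [h6] at h7
    rw [jj_inj m p h7]
  refine ⟨h, hhM, ⟨hhs, fun z hz => ?_⟩, ?_⟩
  · obtain ⟨y, hy, hyz⟩ := hf.2 z hz
    obtain ⟨x, hx, hxy⟩ := h5 y hy
    have h6 := jj_N hR m hpC x hx
    have h7 : π.val (ck (jj m p x)) ∈ π.val (ck (bt m).ord) :=
      (ho.mem _ hμN _).2 ⟨_, jj_lt m p x, h6, rfl⟩
    have h8 : pair y (π.val (ck (jj m p x))) ∈ π.val (check (Js m p)) := by
      rw [← hxy]
      exact (hpair x _ hx h6).2 rfl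
    refine ⟨π.val (ck (jj m p x)), (hh _ _).2 ⟨hz, h7, y, hy, hyz, h8⟩, ?_⟩
    intro w hw
    obtain ⟨-, hwμ, y', hy', h9, h10⟩ := (hh _ _).1 hw
    obtain rfl := hf.1.2 _ _ _ h9 hyz
    exact hJf _ hy _ hwμ _ h7 h10 h8
  · intro a a' c ha ha'
    obtain ⟨-, hcμ, y, hy, h6, h7⟩ := (hh _ _).1 ha
    obtain ⟨-, -, y', hy', h8, h9⟩ := (hh _ _).1 ha'
    obtain rfl := hJi _ hy _ hy' _ hcμ h7 h9
    obtain ⟨w, -, hw⟩ := hf.1.1.2 y hy
    rw [hw a h6, hw a' h8]

end Pool.Agent.R602.UU
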