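import Pool.Agent.R602.UU.Defs

/-! Piece ORD of project UU (MP_598ba0_lc): the ordinals of the model. -/

set_option autoImplicit false
set_option linter.all false

namespace Pool.Agent.R602.UU

open Pool.Agent.W868 Pool.Agent.W868.PName Pool.Agent.R598.SY Cardinal
open ZFSet (pair)

theorem toZFSet_nat' (n : ℕ) : (n : Ordinal.{0}).toZFSet = Pool.Agent.W868.nat n := by
  induction n with
  | zero =>
    rw [Nat.cast_zero, Ordinal.toZFSet_zero]
    rfl
  | succ n ih =>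
    rw [Nat.cast_succ, Ordinal.toZFSet_add_one, ih]
    rfl

theorem toZFSet_omega' : (Ordinal.omega0.{0}).toZFSet = ZFSet.omega := by
  ext z
  rw [Ordinal.mem_toZFSet_iff, mem_omega_iff]
  constructor
  · rintro ⟨a, ha, rfl⟩
    obtain ⟨n, rfl⟩ := Ordinal.lt_omega0.1 ha
    exact ⟨n, toZFSet_nat' n⟩
  · rintro ⟨n, rfl⟩
    exact ⟨n, Ordinal.natCast_lt_omega0 n, toZFSet_nat' n⟩

variable [Base]

theorem ordP (π : Pkg P) : OrdP π where
  ord := fun a _ => π.hat_isOrdinal (ZFSet.isOrdinal_toZFSet a)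
  mem := by
    intro a ha z
    constructor
    · intro hz
      obtain ⟨y, hy, hyZ, hyz⟩ := π.mem_hat.1 hz
      obtain ⟨b, hb, rfl⟩ := Ordinal.mem_toZFSet_iff.1 hy
      exact ⟨b, hb, hyZ, hyz⟩
    · rintro ⟨b, hb, hbN, rfl⟩
      exact π.mem_hat.2 ⟨b.toZFSet, Ordinal.toZFSet_mem_toZFSet_iff.2 hb, hbN, rfl⟩
  lt := by
    intro a b ha hb
    exact (π.hat_mem_hat ha hb).trans Ordinal.toZFSet_mem_toZFSet_iff
  inj := by
    intro a b ha hb h
    exact Ordinal.toZFSet_injective ((π.hat_inj ha hb).1 h)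
  ms := fun a ha => ⟨ck a, ⟨ha, sys.hs_check _⟩, rfl⟩
  surj := by
    rintro _ ⟨x, ⟨hx, hs⟩, rfl⟩ h
    have h1 := π.rank_le hx
    rw [ZFSet.IsOrdinal.rank_le_iff_subset h (π.hat_isOrdinal (ZFSet.isOrdinal_toZFSet _)),
      ZFSet.IsOrdinal.subset_iff_eq_or_mem h (π.hat_isOrdinal (ZFSet.isOrdinal_toZFSet _))] at h1
    rcases h1 with h1 | h1
    · exact ⟨nrk x, π.nrk_Z hx, h1.symm⟩
    · obtain ⟨y, hy, hyZ, hyz⟩ := π.mem_hat.1 h1
      obtain ⟨b, hb, rfl⟩ := Ordinal.mem_toZFSet_iff.1 hy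
      exact ⟨b, hyZ, hyz⟩
  om := by
    have h1 : ck Ordinal.omega0.{0} = check ZFSet.omega := by
      unfold ck
      rw [toZFSet_omega']
    rw [h1]
    exact ⟨π.omega_Z, π.hat_omega⟩

theorem ord_main : S_ORD :=
  ⟨∅, Set.countable_empty, fun π _ _ => ordP π⟩

end Pool.Agent.R602.UU
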