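import Pool.Agent.R602.UU.Defs
import Pool.Agent.W868.Mos

/-!
# Piece OTY (helper31): unbounded subsets of regular cardinals have full size
-/

set_option autoImplicit false
set_option linter.all false

namespace Pool.Agent.R602.UU

open Pool.Agent.W868
open ZFSet (pair)

theorem oty_reg (M : Set ZFSet.{0}) (hM : IsZF M) (κ : ZFSet.{0}) (hκ : Regular M κ)
    (Y : ZFSet.{0}) (hY : Y ∈ M) (hYκ : Y ⊆ κ) (hub : ∀ β ∈ κ, ∃ ξ ∈ Y, β ∈ ξ ∨ β = ξ) :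
    ∃ f ∈ M, IsBij Y κ f := by
  have hκo : κ.IsOrdinal := hκ.1.2.1
  have hs : ∀ x ∈ Y, x.IsOrdinal := fun x hx => hκo.mem (hYκ hx)
  have hbij : Bij M Y (oty Y) := bij_oty hM hY hs
  have hoM : oty Y ∈ M := col_im_mem hM hY
  have hoo : (oty Y).IsOrdinal := isOrdinal_oty hs
  have hsub : oty Y ⊆ κ := oty_subset hκo hYκ
  rcases (hoo.subset_iff_eq_or_mem hκo).1 hsub with h | h
  · rw [← h]
    exact hbij
  · exfalso
    obtain ⟨f, hf, h1, h2⟩ := Bij.symm hM hY hoM hbij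
    have hfun : ZFSet.IsFunc (oty Y) κ f := by
      refine ⟨fun p hp => ?_, fun z hz => h1.1.2 z hz⟩
      obtain ⟨a, ha, b, hb, rfl⟩ := ZFSet.mem_prod.1 (h1.1.1 hp)
      exact ZFSet.pair_mem_prod.2 ⟨ha, hYκ hb⟩
    obtain ⟨β, hβ, h3⟩ := hκ.2 (oty Y) h f hf hfun
    obtain ⟨ξ, hξ, h4⟩ := hub β hβ
    obtain ⟨a, ha, h5⟩ := h2 ξ hξ
    have h6 : ξ ∈ β := h3 a ξ h5
    rcases h4 with h4 | h4
    · exact ZFSet.mem_asymm h6 h4
    · rw [h4] at h6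
      exact ZFSet.mem_irrefl _ h6

theorem oty_main : S_OTY := fun M hM κ hκ Y hY hYκ hub => oty_reg M hM κ hκ Y hY hYκ hub

end Pool.Agent.R602.UU
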