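import Pool.Agent.R602.UU.Cm796

/-!
# Names for small subsets
-/

set_option autoImplicit false
set_option linter.all false

namespace Pool.Agent.R602.UU

open Pool.Agent.W868 Pool.Agent.W868.PName Pool.Agent.R598.SY Cardinal
open ZFSet (pair)
open Cm796

variable [Base]

namespace Sub

/-- The conditions that decide `y ∈ x`. -/
def D (x y : PName P) : Set P := {p | Fmem y x p ∨ ∀ q ≤ p, ¬ Fmem y x q}

theorem d_open (x y : PName P) (p q : P) (hq : q ≤ p) (h : p ∈ D x y) : q ∈ D x y := by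
  rcases h with h | h
  · exact Or.inl (h.mono hq)
  · exact Or.inr fun r hr => h r (hr.trans hq)

theorem d_dense (x y : PName P) (p : P) : ∃ q ≤ p, q ∈ D x y := by
  by_cases h : ∃ q ≤ p, Fmem y x q
  · obtain ⟨q, hq, h⟩ := h
    exact ⟨q, hq, Or.inl h⟩
  · exact ⟨p, le_rfl, Or.inr fun q hq hf => h ⟨q, hq, hf⟩⟩

/-- The family. -/
def Df (c : Cardinal.{0}) (x : PName P) (i : c.ord.ToType) : Set P := D x (ck (ti i))

def W (n : ℕ) (c : Cardinal.{0}) (x : PName P) (q : P) : c.ord.ToType → Set P :=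
  fun i => {r | lo n r = r ∧ Fmem (ck (ti i)) x (mix n r q)}

noncomputable def f1 (n : ℕ) (x y : PName P) (_ : P) : PName P :=
  Sys.nm P (Good n (Df (cOf y) x))

noncomputable def f2 (n : ℕ) (x y : PName P) (q : P) : PName P :=
  tau n (cOf y) (W n (cOf y) x q)

noncomputable def f3 (n : ℕ) (x y : PName P) (q : P) : PName P :=
  Sys.nm P (Es n (D x y) q)

theorem f1_ck (n : ℕ) (x : PName P) (c : Cardinal.{0}) (q : P) :
    f1 n x (ck c.ord) q = Sys.nm P (Good n (Df c x)) := by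
  unfold f1
  rw [cOf_ck]

theorem f2_ck (n : ℕ) (x : PName P) (c : Cardinal.{0}) (q : P) :
    f2 n x (ck c.ord) q = tau n c (W n c x q) := by
  unfold f2
  rw [cOf_ck]

end Sub

open Sub in
theorem sub_main (hK : S_KEY) (hO : S_ORD) : S_SUB := by
  refine hO.of (Set.range (fun n => UU.rl2 (f1 n)) ∪ (Set.range (fun n => UU.rl2 (f2 n)) ∪
    Set.range (fun n => UU.rl2 (f3 n)))) ((Set.countable_range _).union
      ((Set.countable_range _).union (Set.countable_range _))) ?_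
  intro π hcl hcd hP n c hc hcN x hx hxs hsub
  have h1 : Sys.nm P (Good n (Df c x)) ∈ π.N := by
    have h := hcl.rl2 (f := f1 n) (Or.inl ⟨n, rfl⟩) hx hcN (π.gC 0)
    rwa [f1_ck] at h
  have hDo : ∀ i : c.ord.ToType, ∀ p q, q ≤ p → p ∈ Df c x i → q ∈ Df c x i :=
    fun i => d_open x _
  obtain ⟨m, hm⟩ : ∃ m, π.g m ∈ Good n (Df c x) := by
    obtain ⟨m, h | h⟩ := gen_nm h1 fun r hr s hs => good_open hDo hr hs
    · exact ⟨m, h⟩
    · exfalso
      obtain ⟨q, hq, h2⟩ := good_dense hK (n := n) (D := Df c x) (by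
        rw [Cardinal.mk_toType, Cardinal.card_ord]
        exact hc) (fun i => d_dense x _) hDo (π.g m)
      exact h q hq h2
  have h2 : tau n c (W n c x (π.g m)) ∈ π.N := by
    have h := hcl.rl2 (f := f2 n) (Or.inr (Or.inl ⟨n, rfl⟩)) hx hcN (π.gC m)
    rwa [f2_ck] at h
  refine ⟨W n c x (π.g m), h2, ?_⟩
  ext z
  constructor
  · intro hz
    obtain ⟨y, hy, r, hyr, ⟨k, hk⟩, rfl⟩ := π.mem_val.1 hz
    obtain ⟨⟨⟨i, r'⟩, hr, hr'⟩, h3, h4⟩ := hyr
    dsimp only at hr hr' h3 h4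
    subst h4
    subst h3
    refine mem_of_fmem (k := max k m) hy hx (hr.2.mono ?_)
    exact le_mix ((π.g_le_left k m).trans hk) (π.g_le_right k m)
  · intro hz
    obtain ⟨b, hb, hbN, rfl⟩ := (hP.mem _ hcN z).1 (hsub hz)
    obtain ⟨i, rfl⟩ := exists_ti hb
    obtain ⟨l, hl⟩ := (π.val_mem_iff hbN hx).1 hz
    have h3 : Sys.nm P (Es n (Df c x i) (π.g m)) ∈ π.N :=
      hcl.rl2 (f := f3 n) (Or.inr (Or.inr ⟨n, rfl⟩)) hx hbN (π.gC m)
    obtain ⟨k, hk1, r, hr1, hr2, hr3⟩ := es_meet i h3 hm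
    rcases hr3 with h4 | h4
    · refine (π.mem_val).2 ⟨_, hbN, r, ?_, ⟨k, hr2⟩, rfl⟩
      exact ⟨⟨(i, r), ⟨hr1, h4⟩, hr1⟩, rfl, rfl⟩
    · exfalso
      refine h4 (π.g (max k l)) ?_ (hl.mono (π.g_le_right k l))
      exact (π.g_le_left k l).trans (le_mix hr2 hk1)

end Pool.Agent.R602.UU
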