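import Pool.Agent.R602.UU.Defs

/-!
# UU-UFN: the ultrafilters in the model
-/

set_option autoImplicit false
set_option linter.all false

namespace Pool.Agent.R602.UU

open Pool.Agent.W868 Pool.Agent.W868.PName Pool.Agent.R598.SY Cardinal
open ZFSet (pair)

variable [Base]

namespace Ufn

/-! ### Indices -/

/-- the ordinal of an index -/
noncomputable abbrev ti {c : Cardinal.{0}} (i : c.ord.ToType) : Ordinal.{0} :=
  Ordinal.typein (α := c.ord.ToType) (· < ·) i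

omit [Base] in
theorem ti_lt {c : Cardinal.{0}} (i : c.ord.ToType) : ti i < c.ord := Ordinal.typein_lt_self i

omit [Base] in
theorem ti_inj {c : Cardinal.{0}} {i j : c.ord.ToType} (h : ti i = ti j) : i = j :=
  Ordinal.typein_injective _ h

omit [Base] in
theorem ti_surj {c : Cardinal.{0}} {b : Ordinal.{0}} (hb : b < c.ord) :
    ∃ i : c.ord.ToType, ti i = b :=
  Ordinal.typein_surj (α := c.ord.ToType) (· < ·) (by rw [Ordinal.type_toType]; exact hb)

omit [Base] in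
theorem ti_lt_ti {c : Cardinal.{0}} {i j : c.ord.ToType} : ti i < ti j ↔ i < j :=
  Ordinal.typein_lt_typein (α := c.ord.ToType) (· < ·)

theorem ck_inj {a b : Ordinal.{0}} (h : ck a = ck b) : a = b :=
  Ordinal.toZFSet_injective (check_injective h)

/-! ### The conditions -/

theorem lo_val (n : ℕ) (p : P) (m : ℕ) (x : X) :
    (lo n p).1 m x = if m < n then p.1 m x else none := rfl

theorem mix_val (n : ℕ) (r p : P) (m : ℕ) (x : X) :
    (mix n r p).1 m x = if m < n then r.1 m x else p.1 m x := rfl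

theorem lo_lo (n : ℕ) (p : P) : lo n (lo n p) = lo n p := by
  refine Subtype.ext (funext fun m => funext fun x => ?_)
  rw [lo_val, lo_val]
  split_ifs <;> rfl

theorem lo_mono {n : ℕ} {q p : P} (h : q ≤ p) : lo n q ≤ lo n p := by
  intro m x b hb
  rw [lo_val] at hb ⊢
  by_cases hm : m < n
  · rw [if_pos hm] at hb ⊢
    exact h m x b hb
  · rw [if_neg hm] at hb
    cases hb

theorem le_of_lo {n : ℕ} {q r : P} (hr : lo n r = r) (h : lo n q ≤ r) : q ≤ r :=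
  (le_lo n q).trans h

theorem lo_le_of {n : ℕ} {q r : P} (hr : lo n r = r) (h : q ≤ r) : lo n q ≤ r := by
  have := lo_mono (n := n) h
  rwa [hr] at this

theorem mix_le {n : ℕ} {q r : P} (h : q ≤ lo n r) : mix n q r ≤ r := by
  intro m x b hb
  rw [mix_val]
  by_cases hm : m < n
  · rw [if_pos hm]
    refine h m x b ?_
    rw [lo_val, if_pos hm]
    exact hb
  · rw [if_neg hm]
    exact hb

theorem mix_le_lo {n : ℕ} {q r : P} : mix n q r ≤ lo n q := by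
  intro m x b hb
  rw [lo_val] at hb
  rw [mix_val]
  by_cases hm : m < n
  · rw [if_pos hm] at hb ⊢
    exact hb
  · rw [if_neg hm] at hb
    cases hb

theorem lo_mix (n : ℕ) (q r : P) : lo n (mix n q r) = lo n q := by
  refine Subtype.ext (funext fun m => funext fun x => ?_)
  rw [lo_val, lo_val, mix_val]
  split_ifs <;> rfl

theorem frc_mono {n : ℕ} {c : Cardinal.{0}} {w : c.ord.ToType → Set P} {i : c.ord.ToType}
    {r r' : P} (h : r ∈ Frc n w i) (hr : r' ≤ r) : r' ∈ Frc n w i :=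
  fun q hq => h q (hq.trans hr)

theorem frc_lo {n : ℕ} {c : Cardinal.{0}} {w : c.ord.ToType → Set P} {i : c.ord.ToType}
    {r : P} (h : r ∈ Frc n w i) : lo n r ∈ Frc n w i := by
  intro q hq
  obtain ⟨s, hs, t, ht, htl, hst⟩ := h (mix n q r) (mix_le hq)
  refine ⟨mix n s q, mix_le ?_, t, ht, htl, ?_⟩
  · have := lo_mono (n := n) hs
    rw [lo_mix] at this
    exact (le_lo n s).trans this
  · have h1 : mix n s q ≤ lo n s := mix_le_lo
    exact h1.trans (lo_le_of htl hst)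

theorem frc_of {n : ℕ} {c : Cardinal.{0}} {w : c.ord.ToType → Set P} {i : c.ord.ToType}
    {r t : P} (ht : t ∈ w i) (htl : lo n t = t) (h : r ≤ t) : r ∈ Frc n w i :=
  fun q hq => ⟨q, le_rfl, t, ht, htl, hq.trans h⟩

/-! ### The names `tau` -/

theorem el_tau {n : ℕ} {c : Cardinal.{0}} {w : c.ord.ToType → Set P} {z : PName P} {t : P} :
    El (tau n c w) z t ↔ ∃ i : c.ord.ToType, ck (ti i) = z ∧ t ∈ w i ∧ lo n t = t := by
  unfold tau
  rw [el_mk]
  constructor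
  · rintro ⟨⟨⟨i, t⟩, h1, h2⟩, rfl, rfl⟩
    exact ⟨i, rfl, h1, h2⟩
  · rintro ⟨i, rfl, h1, h2⟩
    exact ⟨⟨⟨i, t⟩, h1, h2⟩, rfl, rfl⟩

theorem tau_congr {n : ℕ} {c : Cardinal.{0}} {w w' : c.ord.ToType → Set P}
    (h : tau n c w = tau n c w') (i : c.ord.ToType) (t : P) (ht : lo n t = t) :
    t ∈ w i ↔ t ∈ w' i := by
  have key : ∀ w w' : c.ord.ToType → Set P, tau n c w = tau n c w' → t ∈ w i → t ∈ w' i := by
    intro w w' h hw
    have h1 : El (tau n c w) (ck (ti i)) t := el_tau.2 ⟨i, rfl, hw, ht⟩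
    rw [h] at h1
    obtain ⟨j, hj, h2, -⟩ := el_tau.1 h1
    rwa [ti_inj (ck_inj hj)] at h2
  exact ⟨key w w' h, key w' w h.symm⟩

theorem frc_congr {n : ℕ} {c : Cardinal.{0}} {w w' : c.ord.ToType → Set P}
    (h : tau n c w = tau n c w') (i : c.ord.ToType) : Frc n w i = Frc n w' i := by
  ext r
  constructor
  · intro hr q hq
    obtain ⟨s, hs, t, ht, htl, hst⟩ := hr q hq
    exact ⟨s, hs, t, (tau_congr h i t htl).1 ht, htl, hst⟩
  · intro hr q hq
    obtain ⟨s, hs, t, ht, htl, hst⟩ := hr q hq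
    exact ⟨s, hs, t, (tau_congr h i t htl).2 ht, htl, hst⟩

theorem wc_congr {n : ℕ} {c : Cardinal.{0}} {w w' : c.ord.ToType → Set P}
    (h : tau n c w = tau n c w') : wc n w = wc n w' := by
  funext i
  unfold wc
  rw [frc_congr h]

theorem wi_congr {n : ℕ} {c : Cardinal.{0}} {w w' v v' : c.ord.ToType → Set P}
    (h : tau n c w = tau n c w') (h' : tau n c v = tau n c v') : wi n w v = wi n w' v' := by
  funext i
  unfold wi
  rw [frc_congr h, frc_congr h']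

/-! ### The name of the ultrafilter -/

/-- the name of the ultrafilter -/
noncomputable def dn (n : ℕ) (c : Cardinal.{0}) (𝒟 : Set ((c.ord.ToType → Set P) × P)) : PName P :=
  PName.mk {t : (c.ord.ToType → Set P) × P // t ∈ 𝒟} (fun t => tau n c t.1.1) (fun t => t.1.2)

theorem el_dn {n : ℕ} {c : Cardinal.{0}} {𝒟 : Set ((c.ord.ToType → Set P) × P)} {z : PName P}
    {r : P} : El (dn n c 𝒟) z r ↔ ∃ w, (w, r) ∈ 𝒟 ∧ tau n c w = z := by
  unfold dn
  rw [el_mk]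
  constructor
  · rintro ⟨⟨⟨w, r⟩, h⟩, rfl, rfl⟩
    exact ⟨w, h, rfl⟩
  · rintro ⟨w, h, rfl⟩
    exact ⟨⟨⟨w, r⟩, h⟩, rfl, rfl⟩

theorem mv_lo {n : ℕ} {g : G} (hg : g ∈ H n) {r : P} (hr : lo n r = r) : mv g r = r := by
  refine Subtype.ext (funext fun m => funext fun x => ?_)
  rw [mv_val]
  by_cases hm : m < n
  · rw [hg m hm]
    change (r.1 m x).map (1 : Equiv.Perm Bool) = _
    cases r.1 m x <;> rfl
  · have : r.1 m x = none := by
      rw [← hr, lo_val, if_neg hm]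
    rw [this]
    rfl

theorem act_tau {n : ℕ} {c : Cardinal.{0}} {w : c.ord.ToType → Set P} {g : G} (hg : g ∈ H n) :
    act (sys.ac g) (tau n c w) = tau n c w := by
  unfold tau
  rw [act]
  congr 1
  · funext t
    exact act_check (sys.top g) _
  · funext t
    exact mv_lo hg t.2.2

theorem act_dn {n : ℕ} {c : Cardinal.{0}} {𝒟 : Set ((c.ord.ToType → Set P) × P)}
    (h𝒟 : ∀ t ∈ 𝒟, lo n t.2 = t.2) {g : G} (hg : g ∈ H n) :
    act (sys.ac g) (dn n c 𝒟) = dn n c 𝒟 := by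
  unfold dn
  rw [act]
  congr 1
  · funext t
    exact act_tau hg
  · funext t
    exact mv_lo hg (h𝒟 t.1 t.2)

theorem fix_tau (n : ℕ) (c : Cardinal.{0}) (w : c.ord.ToType → Set P) :
    sys.Fix (H n) (tau n c w) := by
  intro g hg p
  rw [act_tau hg]
  exact Feq.refl _ _

theorem hs_tau (n : ℕ) (c : Cardinal.{0}) (w : c.ord.ToType → Set P) : sys.HS (tau n c w) := by
  refine sys.hs_iff.2 ⟨⟨H n, ⟨n, rfl⟩, fix_tau n c w⟩, fun z t hz => ?_⟩
  obtain ⟨i, rfl, -⟩ := el_tau.1 hz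
  exact sys.hs_check _

theorem hs_dn {n : ℕ} {c : Cardinal.{0}} {𝒟 : Set ((c.ord.ToType → Set P) × P)}
    (h𝒟 : ∀ t ∈ 𝒟, lo n t.2 = t.2) : sys.HS (dn n c 𝒟) := by
  refine sys.hs_iff.2 ⟨⟨H n, ⟨n, rfl⟩, ?_⟩, fun z t hz => ?_⟩
  · intro g hg p
    rw [act_dn h𝒟 hg]
    exact Feq.refl _ _
  · obtain ⟨w, -, rfl⟩ := el_dn.1 hz
    exact hs_tau n c w

/-! ### Rules with decoding -/

open Classical in
/-- A rule with decoding. -/
noncomputable def dr {α : Type*} (enc : α → PName P × PName P) (F : α → P → PName P) : Rule P :=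
  rl2 fun x y p => if h : ∃ a, enc a = (x, y) then F h.choose p else emp

theorem dr_spec {α : Type*} {R : Set (Rule P)} {π : Pkg P} (h : Clo R π)
    {enc : α → PName P × PName P} {F : α → P → PName P} (hf : dr enc F ∈ R) (a : α)
    (h1 : (enc a).1 ∈ π.N) (h2 : (enc a).2 ∈ π.N) {p : P} (hp : p ∈ π.C) :
    ∃ a', enc a' = enc a ∧ F a' p ∈ π.N := by
  have h3 := h.rl2 hf h1 h2 hp
  have h4 : ∃ a', enc a' = ((enc a).1, (enc a).2) := ⟨a, rfl⟩
  simp only [dif_pos h4] at h3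
  exact ⟨_, h4.choose_spec, h3⟩

/-- the inputs of the rules -/
abbrev Inp : Type 1 :=
  Σ c : Cardinal.{0}, (c.ord.ToType → Set P) × (c.ord.ToType → Set P) × c.ord.ToType

/-- the codes of the inputs -/
noncomputable def enc (n : ℕ) (a : Inp) : PName P × PName P :=
  (opN (ck a.1.ord) (ck (ti a.2.2.2)), opN (tau n a.1 a.2.1) (tau n a.1 a.2.2.1))

theorem spec {n : ℕ} {R : Set (Rule P)} {π : Pkg P} (h : Clo R π) {F : Inp → P → PName P}
    (hf : dr (enc n) F ∈ R) {c : Cardinal.{0}} {w v : c.ord.ToType → Set P} {β : c.ord.ToType}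
    (hc : ck c.ord ∈ π.N) (hβ : ck (ti β) ∈ π.N) (hw : tau n c w ∈ π.N) (hv : tau n c v ∈ π.N)
    {p : P} (hp : p ∈ π.C) : ∃ w' v', tau n c w' = tau n c w ∧ tau n c v' = tau n c v ∧
      F ⟨c, w', v', β⟩ p ∈ π.N := by
  obtain ⟨⟨c', w', v', β'⟩, he, hF⟩ := dr_spec h hf ⟨c, w, v, β⟩ (π.opN_mem hc hβ)
    (π.opN_mem hw hv) hp
  unfold enc at he
  rw [Prod.mk.injEq] at he
  obtain ⟨h1, h2⟩ := opN_inj he.1
  obtain ⟨h3, h4⟩ := opN_inj he.2
  have hcc : c' = c := Cardinal.ord_injective (ck_inj h1)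
  subst hcc
  have hbb : β' = β := ti_inj (ck_inj h2)
  subst hbb
  exact ⟨w', v', h3, h4, hF⟩

/-! ### The rules -/

/-- the rules: the name of the ultrafilter, complements, intersections, the decision of a set,
unboundedness -/
noncomputable def F1 (D : (n : ℕ) → (c : Cardinal.{0}) → Set ((c.ord.ToType → Set P) × P))
    (n : ℕ) : Inp → P → PName P := fun a _ => dn n a.1 (D n a.1)

noncomputable def F2 (n : ℕ) : Inp → P → PName P := fun a _ => tau n a.1 (wc n a.2.1)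

noncomputable def F3 (n : ℕ) : Inp → P → PName P := fun a _ => tau n a.1 (wi n a.2.1 a.2.2.1)

noncomputable def F4 (D : (n : ℕ) → (c : Cardinal.{0}) → Set ((c.ord.ToType → Set P) × P))
    (n : ℕ) : Inp → P → PName P := fun a _ =>
  Sys.nm P {r | (a.2.1, lo n r) ∈ D n a.1 ∨ (wc n a.2.1, lo n r) ∈ D n a.1}

noncomputable def F5 (n : ℕ) : Inp → P → PName P := fun a _ =>
  Sys.nm P {r | ∃ i, a.2.2.2 ≤ i ∧ r ∈ Frc n a.2.1 i}

open Classical in
noncomputable def F6 (n : ℕ) : Inp → P → PName P := fun a p =>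
  if h : ∃ i, a.2.2.2 ≤ i ∧ p ∈ Frc n a.2.1 i then ck (ti h.choose) else emp

end Ufn

open Ufn

theorem ufn_main (hZ : S_UFZ) (hS : S_SUB) (hO : S_ORD) : S_UFN := by
  classical
  -- the names
  let D : (n : ℕ) → (c : Cardinal.{0}) → Set ((c.ord.ToType → Set P) × P) := fun n c =>
    if h : ℵ₀ ≤ c then (hZ n c h).choose else ∅
  have hD : ∀ n c, ℵ₀ ≤ c → UFc n c (D n c) := by
    intro n c h
    have h1 : D n c = (hZ n c h).choose := dif_pos h
    rw [h1]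
    exact (hZ n c h).choose_spec
  let R : Set (Rule P) := Set.range (fun n => dr (enc n) (F1 D n)) ∪
    Set.range (fun n => dr (enc n) (F2 n)) ∪ Set.range (fun n => dr (enc n) (F3 n)) ∪
    Set.range (fun n => dr (enc n) (F4 D n)) ∪ Set.range (fun n => dr (enc n) (F5 n)) ∪
    Set.range (fun n => dr (enc n) (F6 n))
  have hR : R.Countable := by
    refine Set.Countable.union (Set.Countable.union (Set.Countable.union (Set.Countable.union
      (Set.Countable.union ?_ ?_) ?_) ?_) ?_) ?_ <;> exact Set.countable_range _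
  refine Holds.of (hS.and hO) R hR fun π hcl hcd hh => ?_
  obtain ⟨hsub, ho⟩ := hh
  intro n c hc hcn hcN
  have hu := hD n c hc
  have hR1 : dr (enc n) (F1 D n) ∈ R := Or.inl (Or.inl (Or.inl (Or.inl (Or.inl ⟨n, rfl⟩))))
  have hR2 : dr (enc n) (F2 n) ∈ R := Or.inl (Or.inl (Or.inl (Or.inl (Or.inr ⟨n, rfl⟩))))
  have hR3 : dr (enc n) (F3 n) ∈ R := Or.inl (Or.inl (Or.inl (Or.inr ⟨n, rfl⟩)))
  have hR4 : dr (enc n) (F4 D n) ∈ R := Or.inl (Or.inl (Or.inr ⟨n, rfl⟩))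
  have hR5 : dr (enc n) (F5 n) ∈ R := Or.inl (Or.inr ⟨n, rfl⟩)
  have hR6 : dr (enc n) (F6 n) ∈ R := Or.inr ⟨n, rfl⟩
  -- an element of `c`
  obtain ⟨β0, hβ0⟩ : ∃ β : c.ord.ToType, ck (ti β) ∈ π.N := by
    have h1 : (∅ : ZFSet.{0}) ∈ π.val (ck Ordinal.omega0) := by
      rw [ho.om.2]
      exact ZFSet.omega_zero
    obtain ⟨b, hb, hbN, -⟩ := (ho.mem _ ho.om.1 _).1 h1
    obtain ⟨β, rfl⟩ := ti_surj (c := c) (hb.trans_le (by
      rw [← Cardinal.ord_aleph0]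
      exact Cardinal.ord_le_ord.2 hc))
    exact ⟨β, hbN⟩
  -- closure properties
  have clc : ∀ w : c.ord.ToType → Set P, tau n c w ∈ π.N → tau n c (wc n w) ∈ π.N := by
    intro w hw
    obtain ⟨w', v', h1, h2, h3⟩ := spec hcl hR2 hcN hβ0 hw hw (π.gC 0)
    change tau n c (wc n w') ∈ π.N at h3
    rwa [wc_congr h1] at h3
  have cli : ∀ w v : c.ord.ToType → Set P, tau n c w ∈ π.N → tau n c v ∈ π.N →
      tau n c (wi n w v) ∈ π.N := by
    intro w v hw hv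
    obtain ⟨w', v', h1, h2, h3⟩ := spec hcl hR3 hcN hβ0 hw hv (π.gC 0)
    change tau n c (wi n w' v') ∈ π.N at h3
    rwa [wi_congr h1 h2] at h3
  -- values
  have mt : ∀ (w : c.ord.ToType → Set P) (z : ZFSet.{0}), z ∈ π.val (tau n c w) ↔
      ∃ i : c.ord.ToType, ck (ti i) ∈ π.N ∧ (∃ t ∈ w i, lo n t = t ∧ ∃ k, π.g k ≤ t) ∧
        π.val (ck (ti i)) = z := by
    intro w z
    rw [π.mem_val]
    constructor
    · rintro ⟨y, hy, t, hel, hk, hz⟩
      obtain ⟨i, rfl, h1, h2⟩ := el_tau.1 hel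
      exact ⟨i, hy, ⟨t, h1, h2, hk⟩, hz⟩
    · rintro ⟨i, hi, ⟨t, h1, h2, hk⟩, hz⟩
      exact ⟨_, hi, t, el_tau.2 ⟨i, rfl, h1, h2⟩, hk, hz⟩
  have mti : ∀ (w : c.ord.ToType → Set P) (i : c.ord.ToType), ck (ti i) ∈ π.N →
      (π.val (ck (ti i)) ∈ π.val (tau n c w) ↔ ∃ t ∈ w i, lo n t = t ∧ ∃ k, π.g k ≤ t) := by
    intro w i hi
    rw [mt]
    constructor
    · rintro ⟨j, hj, h1, h2⟩
      rwa [ti_inj (ho.inj _ _ hj hi h2)] at h1
    · intro h
      exact ⟨i, hi, h, rfl⟩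
  have fm : ∀ (w : c.ord.ToType → Set P) (i : c.ord.ToType) (r : P), r ∈ Frc n w i →
      Fmem (ck (ti i)) (tau n c w) r := by
    intro w i r hr
    rw [fmem_iff]
    intro q hq
    obtain ⟨s, hs, t, ht, htl, hst⟩ := hr q hq
    exact ⟨s, hs, ck (ti i), t, el_tau.2 ⟨i, rfl, ht, htl⟩, hst, Feq.refl _ _⟩
  have mf : ∀ (w : c.ord.ToType → Set P) (i : c.ord.ToType), tau n c w ∈ π.N →
      ck (ti i) ∈ π.N →
      (π.val (ck (ti i)) ∈ π.val (tau n c w) ↔ ∃ k, π.g k ∈ Frc n w i) := by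
    intro w i hw hi
    constructor
    · intro h
      obtain ⟨t, h1, h2, k, hk⟩ := (mti w i hi).1 h
      exact ⟨k, frc_of h1 h2 hk⟩
    · rintro ⟨k, hk⟩
      exact (π.val_mem_iff hi hw).2 ⟨k, fm w i _ hk⟩
  have subκ : ∀ w : c.ord.ToType → Set P, π.val (tau n c w) ⊆ π.val (ck c.ord) := by
    intro w z hz
    obtain ⟨i, hi, -, rfl⟩ := (mt w z).1 hz
    exact (ho.mem _ hcN _).2 ⟨_, ti_lt i, hi, rfl⟩
  -- the name of the ultrafilter
  have hDN : dn n c (D n c) ∈ π.N := by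
    obtain ⟨w, hw, -⟩ := hsub n c hcn hcN (ck c.ord) hcN (sys.hs_check _) subset_rfl
    obtain ⟨w', v', -, -, h3⟩ := spec hcl hR1 hcN hβ0 hw hw (π.gC 0)
    exact h3
  have mD : ∀ Y, Y ∈ π.val (dn n c (D n c)) ↔ ∃ w r, (w, r) ∈ D n c ∧ tau n c w ∈ π.N ∧
      (∃ k, π.g k ≤ r) ∧ π.val (tau n c w) = Y := by
    intro Y
    rw [π.mem_val]
    constructor
    · rintro ⟨y, hy, t, hel, hk, hz⟩
      obtain ⟨w, h1, rfl⟩ := el_dn.1 hel
      exact ⟨w, t, h1, hy, hk, hz⟩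
    · rintro ⟨w, r, h1, hy, hk, hz⟩
      exact ⟨_, hy, r, el_dn.2 ⟨w, h1, rfl⟩, hk, hz⟩
  have lor : ∀ {w : c.ord.ToType → Set P} {r : P}, (w, r) ∈ D n c → lo n r = r :=
    fun h => hu.lo _ h
  -- unboundedness
  have unb : ∀ Y ∈ π.val (dn n c (D n c)), ∀ β ∈ π.val (ck c.ord), ∃ ξ ∈ Y, β ∈ ξ ∨ β = ξ := by
    intro Y hY β hβ
    obtain ⟨w, r, hwr, hw, ⟨k, hk⟩, rfl⟩ := (mD Y).1 hY
    obtain ⟨b, hb, hbN, rfl⟩ := (ho.mem _ hcN _).1 hβ
    obtain ⟨β, rfl⟩ := ti_surj hb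
    obtain ⟨w', v', h1, h2, h3⟩ := spec hcl hR5 hcN hbN hw hw (π.gC 0)
    change Sys.nm P {r | ∃ i, β ≤ i ∧ r ∈ Frc n w' i} ∈ π.N at h3
    simp only [frc_congr h1] at h3
    obtain ⟨l, hl⟩ := gen_nm h3 (by
      rintro r ⟨i, hi, hr⟩ s hs
      exact ⟨i, hi, frc_mono hr hs⟩)
    have h4 : ∃ i, β ≤ i ∧ π.g l ∈ Frc n w i := by
      rcases hl with hl | hl
      · exact hl
      · exfalso
        obtain ⟨i, hi, r', hr', hf⟩ := hu.ub {(w, r)} (by simpa using hwr) (π.g (max k l))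
          (by
            intro t ht
            rw [Finset.mem_singleton] at ht
            subst ht
            exact (π.g_le_left k l).trans hk) β
        exact hl r' (hr'.trans (π.g_le_right k l)) ⟨i, hi, hf _ (Finset.mem_singleton_self _)⟩
    obtain ⟨w'', v'', h5, h6, h7⟩ := spec hcl hR6 hcN hbN hw hw (π.gC l)
    have h8 : ∃ i, β ≤ i ∧ π.g l ∈ Frc n w'' i := by
      obtain ⟨i, hi, hf⟩ := h4
      refine ⟨i, hi, ?_⟩
      rw [frc_congr h5]
      exact hf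
    have h9 : F6 n ⟨c, w'', v'', β⟩ (π.g l) = ck (ti h8.choose) := dif_pos h8
    rw [h9] at h7
    obtain ⟨h10, h11⟩ := h8.choose_spec
    rw [frc_congr h5] at h11
    refine ⟨π.val (ck (ti h8.choose)), (mf w _ hw h7).2 ⟨l, h11⟩, ?_⟩
    rcases h10.lt_or_eq with h12 | h12
    · left
      exact (ho.lt _ _ hbN h7).2 (ti_lt_ti.2 h12)
    · right
      rw [← h12]
  have hemp : (∅ : ZFSet.{0}) ∉ π.val (dn n c (D n c)) := by
    intro h
    obtain ⟨ξ, hξ, -⟩ := unb ∅ h (π.val (ck (ti β0))) ((ho.mem _ hcN _).2 ⟨_, ti_lt β0, hβ0, rfl⟩)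
    exact ZFSet.notMem_empty _ hξ
  -- intersections
  have inter : ∀ Y ∈ π.val (dn n c (D n c)), ∀ Z ∈ π.val (dn n c (D n c)),
      Y ∩ Z ∈ π.val (dn n c (D n c)) := by
    intro Y hY Z hZ'
    obtain ⟨w, r, hwr, hw, ⟨k, hk⟩, rfl⟩ := (mD Y).1 hY
    obtain ⟨w', r', hwr', hw', ⟨k', hk'⟩, rfl⟩ := (mD Z).1 hZ'
    refine (mD _).2 ⟨wi n w w', lo n (π.g (max k k')), ?_, cli w w' hw hw', ⟨max k k', le_lo _ _⟩, ?_⟩
    · refine hu.int _ _ _ ?_ ?_
      · exact hu.mono _ _ _ hwr (lo_le_of (lor hwr) ((π.g_le_left k k').trans hk)) (lo_lo _ _)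
      · exact hu.mono _ _ _ hwr' (lo_le_of (lor hwr') ((π.g_le_right k k').trans hk')) (lo_lo _ _)
    · ext z
      rw [ZFSet.mem_inter]
      constructor
      · intro hz
        obtain ⟨i, hi, ⟨t, ht, htl, l, hl⟩, rfl⟩ := (mt _ _).1 hz
        exact ⟨(mf w i hw hi).2 ⟨l, frc_mono ht.2.1 hl⟩, (mf w' i hw' hi).2 ⟨l, frc_mono ht.2.2 hl⟩⟩
      · rintro ⟨hz1, hz2⟩
        obtain ⟨i, hi, -, rfl⟩ := (mt _ _).1 hz1
        obtain ⟨l, hl⟩ := (mf w i hw hi).1 hz1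
        obtain ⟨l', hl'⟩ := (mf w' i hw' hi).1 hz2
        refine (mti _ i hi).2 ⟨lo n (π.g (max l l')), ⟨lo_lo _ _, ?_, ?_⟩, lo_lo _ _,
          max l l', le_lo _ _⟩
        · exact frc_lo (frc_mono hl (π.g_le_left l l'))
        · exact frc_lo (frc_mono hl' (π.g_le_right l l'))
  -- complements
  have compl : ∀ w : c.ord.ToType → Set P, tau n c w ∈ π.N →
      π.val (tau n c (wc n w)) = π.val (ck c.ord) \ π.val (tau n c w) := by
    intro w hw
    ext z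
    rw [ZFSet.mem_sdiff]
    constructor
    · intro hz
      refine ⟨subκ _ hz, fun hz' => ?_⟩
      obtain ⟨i, hi, ⟨t, ht, htl, l, hl⟩, rfl⟩ := (mt _ _).1 hz
      obtain ⟨k, hk⟩ := (mf w i hw hi).1 hz'
      exact ht.2 (π.g (max l k)) ((π.g_le_left l k).trans hl) (frc_mono hk (π.g_le_right l k))
    · rintro ⟨hz1, hz2⟩
      obtain ⟨b, hb, hbN, rfl⟩ := (ho.mem _ hcN _).1 hz1
      obtain ⟨i, rfl⟩ := ti_surj hb
      obtain ⟨k, h1, -⟩ := π.gen ⟨0, .mem (Sum.inr (ck (ti i))) (Sum.inr (tau n c w)),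
        Fin.elim0, ⊤⟩ ⟨⟨tOver_inr.2 hbN, tOver_inr.2 hw⟩, fun i => i.elim0⟩
      rcases h1 with h1 | h1
      · exact absurd ((π.val_mem_iff hbN hw).2 ⟨k, h1⟩) hz2
      · refine (mti _ i hbN).2 ⟨lo n (π.g k), ⟨lo_lo _ _, ?_⟩, lo_lo _ _, k, le_lo _ _⟩
        intro q hq hf
        exact h1 (mix n q (π.g k)) (mix_le hq) (fm w i _ (frc_mono (frc_lo hf) mix_le_lo))
  have ultra : ∀ Y ∈ sys.Ms π, Y ⊆ π.val (ck c.ord) → (Y ∈ π.val (dn n c (D n c)) ↔
      π.val (ck c.ord) \ Y ∉ π.val (dn n c (D n c))) := by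
    intro Y hY hYκ
    constructor
    · intro h h'
      have h1 := inter _ h _ h'
      have h2 : Y ∩ (π.val (ck c.ord) \ Y) = ∅ := by
        rw [ZFSet.eq_empty]
        intro z hz
        rw [ZFSet.mem_inter, ZFSet.mem_sdiff] at hz
        exact hz.2.2 hz.1
      rw [h2] at h1
      exact hemp h1
    · intro h
      obtain ⟨x, ⟨hxN, hxS⟩, rfl⟩ := hY
      obtain ⟨w0, hw0, hval⟩ := hsub n c hcn hcN x hxN hxS hYκ
      obtain ⟨w, v, h1, -, h3⟩ := spec hcl hR4 hcN hβ0 hw0 hw0 (π.gC 0)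
      rw [← h1] at hw0 hval
      change Sys.nm P {r | (w, lo n r) ∈ D n c ∨ (wc n w, lo n r) ∈ D n c} ∈ π.N at h3
      obtain ⟨k, hk⟩ := gen_nm h3 (by
        rintro r hr s hs
        rcases hr with hr | hr
        · exact Or.inl (hu.mono _ _ _ hr (lo_mono hs) (lo_lo _ _))
        · exact Or.inr (hu.mono _ _ _ hr (lo_mono hs) (lo_lo _ _)))
      have h4 : (w, lo n (π.g k)) ∈ D n c ∨ (wc n w, lo n (π.g k)) ∈ D n c := by
        rcases hk with hk | hk
        · exact hk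
        · exfalso
          obtain ⟨r', hr', hl, h5⟩ := hu.ult w (lo n (π.g k)) (lo_lo _ _)
          refine hk (mix n r' (π.g k)) (mix_le hr') ?_
          change (w, lo n (mix n r' (π.g k))) ∈ D n c ∨ (wc n w, lo n (mix n r' (π.g k))) ∈ D n c
          rw [lo_mix, hl]
          exact h5
      rcases h4 with h4 | h4
      · rw [← hval]
        exact (mD _).2 ⟨w, _, h4, hw0, ⟨k, le_lo _ _⟩, rfl⟩
      · exfalso
        apply h
        rw [← hval, ← compl w hw0]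
        exact (mD _).2 ⟨wc n w, _, h4, clc w hw0, ⟨k, le_lo _ _⟩, rfl⟩
  refine ⟨π.val (dn n c (D n c)), ⟨dn n c (D n c), ⟨hDN, hs_dn hu.lo⟩, rfl⟩, ?_, ?_, inter, ?_,
    ultra, unb⟩
  · intro Y hY
    obtain ⟨w, r, -, -, -, rfl⟩ := (mD Y).1 hY
    exact subκ w
  · have h1 := ultra (π.val (ck c.ord)) (ho.ms _ hcN) (fun _ h => h)
    rw [h1]
    have h2 : π.val (ck c.ord) \ π.val (ck c.ord) = ∅ := by
      rw [ZFSet.eq_empty]
      intro z hz
      rw [ZFSet.mem_sdiff] at hz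
      exact hz.2 hz.1
    rw [h2]
    exact hemp
  · intro Y hY Z hZM hYZ hZκ
    rw [ultra Z hZM hZκ]
    intro h
    have h1 := inter _ hY _ h
    have h2 : Y ∩ (π.val (ck c.ord) \ Z) = ∅ := by
      rw [ZFSet.eq_empty]
      intro z hz
      rw [ZFSet.mem_inter, ZFSet.mem_sdiff] at hz
      exact hz.2.2 (hYZ hz.1)
    rw [h2] at h1
    exact hemp h1

end Pool.Agent.R602.UU
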