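import Pool.Agent.R602.UU.Defs
import Pool.Agent.W868.Base2

/-!
# Piece UFV: ultrafilters of the ground model stay uniform ultrafilters
-/

set_option autoImplicit false
set_option linter.all false

namespace Pool.Agent.R602.UU

open Pool.Agent.W868 Pool.Agent.W868.PName Pool.Agent.R598.SY Cardinal
open ZFSet (pair)

namespace Ufv

/-- A uniform ultrafilter on an infinite type. -/
theorem exists_uni (α : Type) (h : ℵ₀ ≤ #α) :
    ∃ U : Ultrafilter α, ∀ S ∈ U, #(S : Set α) = #α := by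
  let F : Filter α :=
    { sets := {S | #(Sᶜ : Set α) < #α}
      univ_sets := by
        show #((Set.univ : Set α)ᶜ : Set α) < #α
        rw [Set.compl_univ, Cardinal.mk_emptyCollection]
        exact aleph0_pos.trans_le h
      sets_of_superset := by
        intro S T hS hST
        exact (Cardinal.mk_le_mk_of_subset (Set.compl_subset_compl.2 hST)).trans_lt hS
      inter_sets := by
        intro S T hS hT
        show #((S ∩ T)ᶜ : Set α) < #α
        rw [Set.compl_inter]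
        exact (Cardinal.mk_union_le _ _).trans_lt (Cardinal.add_lt_of_lt h hS hT) }
  have hF : F.NeBot := by
    rw [Filter.neBot_iff]
    intro hb
    have h1 : (∅ : Set α) ∈ F := by rw [hb]; exact Filter.mem_bot
    have h2 : #((∅ : Set α)ᶜ : Set α) < #α := h1
    rw [Set.compl_empty, Cardinal.mk_univ] at h2
    exact lt_irrefl _ h2
  refine ⟨Ultrafilter.of F, fun S hS => ?_⟩
  by_contra hne
  have h1 : #(S : Set α) < #α := lt_of_le_of_ne (Cardinal.mk_set_le S) hne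
  have h2 : Sᶜ ∈ F := by
    show #((Sᶜ)ᶜ : Set α) < #α
    rw [compl_compl]
    exact h1
  have h3 : Sᶜ ∈ Ultrafilter.of F := Ultrafilter.of_le F h2
  exact (Ultrafilter.compl_notMem_iff.2 hS) h3

/-- The properties of a uniform ultrafilter on the set `κ`, as a set. -/
def Uni (κ u : ZFSet.{0}) : Prop :=
  (∀ y ∈ u, y ⊆ κ ∧ y.card = κ.card) ∧ κ ∈ u ∧ (∀ y ∈ u, ∀ z ∈ u, y ∩ z ∈ u) ∧
    (∀ y ∈ u, ∀ z, y ⊆ z → z ⊆ κ → z ∈ u) ∧ ∀ y, y ⊆ κ → (y ∈ u ↔ κ \ y ∉ u)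

theorem exists_ZU (κ : ZFSet.{0}) (h : ℵ₀ ≤ κ.card) : ∃ u : ZFSet.{0}, Uni κ u := by
  obtain ⟨U, hU⟩ := exists_uni (Shrink.{0} {z // z ∈ κ}) h
  let v : Shrink.{0} {z // z ∈ κ} → ZFSet.{0} := fun a => ((equivShrink {z // z ∈ κ}).symm a).1
  have hv : ∀ a, v a ∈ κ := fun a => ((equivShrink {z // z ∈ κ}).symm a).2
  have hv' : ∀ z ∈ κ, ∃ a, v a = z := fun z hz =>
    ⟨equivShrink {z // z ∈ κ} ⟨z, hz⟩, by simp only [v, Equiv.symm_apply_apply]⟩
  have hvi : Function.Injective v := fun a b hab =>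
    (equivShrink {z // z ∈ κ}).symm.injective (Subtype.ext hab)
  let S : ZFSet.{0} → Set (Shrink.{0} {z // z ∈ κ}) := fun y => {a | v a ∈ y}
  have hS : ∀ y, y ⊆ κ → #(S y) = y.card := by
    intro y hy
    have h1 : Function.Bijective
        (fun a : S y => (equivShrink.{0} {z // z ∈ y} ⟨v a.1, a.2⟩)) := by
      constructor
      · intro a b hab
        have h2 := (equivShrink.{0} {z // z ∈ y}).injective hab
        have h3 : v a.1 = v b.1 := Subtype.mk.inj h2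
        exact Subtype.ext (hvi h3)
      · intro b
        obtain ⟨a, ha⟩ := hv' ((equivShrink.{0} {z // z ∈ y}).symm b).1
          (hy ((equivShrink.{0} {z // z ∈ y}).symm b).2)
        refine ⟨⟨a, ?_⟩, ?_⟩
        · show v a ∈ y
          rw [ha]
          exact ((equivShrink.{0} {z // z ∈ y}).symm b).2
        · rw [← Equiv.eq_symm_apply]
          exact Subtype.ext ha
    exact Cardinal.mk_congr (Equiv.ofBijective _ h1)
  have hmem : ∀ y, y ∈ ZFSet.sep (fun y => S y ∈ U) (ZFSet.powerset κ) ↔ y ⊆ κ ∧ S y ∈ U := by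
    intro y
    rw [ZFSet.mem_sep, ZFSet.mem_powerset]
  refine ⟨ZFSet.sep (fun y => S y ∈ U) (ZFSet.powerset κ), ?_, ?_, ?_, ?_, ?_⟩
  · intro y hy
    rw [hmem] at hy
    exact ⟨hy.1, by rw [← hS y hy.1, hU _ hy.2]; rfl⟩
  · rw [hmem]
    refine ⟨fun z hz => hz, ?_⟩
    have : S κ = Set.univ := Set.eq_univ_of_forall hv
    rw [this]
    exact Filter.univ_mem
  · intro y hy z hz
    rw [hmem] at hy hz ⊢
    refine ⟨fun a ha => hy.1 (ZFSet.mem_inter.1 ha).1, ?_⟩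
    have : S (y ∩ z) = S y ∩ S z := by
      ext a
      exact ZFSet.mem_inter
    rw [this]
    exact Filter.inter_mem hy.2 hz.2
  · intro y hy z hyz hz
    rw [hmem] at hy ⊢
    exact ⟨hz, Filter.mem_of_superset hy.2 fun a ha => hyz ha⟩
  · intro y hy
    rw [hmem, hmem]
    have : S (κ \ y) = (S y)ᶜ := by
      ext a
      constructor
      · intro ha
        exact (ZFSet.mem_sdiff.1 ha).2
      · intro ha
        exact ZFSet.mem_sdiff.2 ⟨hv a, ha⟩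
    rw [this]
    constructor
    · rintro ⟨-, h1⟩ ⟨-, h2⟩
      exact (Ultrafilter.compl_notMem_iff.2 h1) h2
    · intro h1
      refine ⟨hy, ?_⟩
      by_contra h2
      exact h1 ⟨fun a ha => (ZFSet.mem_sdiff.1 ha).1, Ultrafilter.compl_mem_iff_notMem.2 h2⟩

open Classical in
/-- A uniform ultrafilter on `κ`. -/
noncomputable def ZU (κ : ZFSet.{0}) : ZFSet.{0} :=
  if h : ∃ u : ZFSet.{0}, Uni κ u then h.choose else ∅

theorem uni_ZU {κ : ZFSet.{0}} (h : ℵ₀ ≤ κ.card) : Uni κ (ZU κ) := by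
  have h1 := exists_ZU κ h
  unfold ZU
  rw [dif_pos h1]
  exact h1.choose_spec

variable [Base]

noncomputable def f1 (x : PName P) : PName P := check (ZU (dec x))
noncomputable def f2 (x y : PName P) (_ : P) : PName P := check (dec x ∩ dec y)
noncomputable def f3 (x y : PName P) (_ : P) : PName P := check (dec x \ dec y)
noncomputable def f4 (x : PName P) : PName P :=
  check (ZFSet.range fun j : x.idx => dec (x.chd j))

theorem hat_inter (π : Pkg P) {x y : ZFSet.{0}} (hx : x ∈ π.Z) (hy : y ∈ π.Z) :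
    π.hat (x ∩ y) = π.hat x ∩ π.hat y := by
  ext z
  rw [ZFSet.mem_inter, π.mem_hat, π.mem_hat, π.mem_hat]
  constructor
  · rintro ⟨a, ha, haZ, rfl⟩
    rw [ZFSet.mem_inter] at ha
    exact ⟨⟨a, ha.1, haZ, rfl⟩, ⟨a, ha.2, haZ, rfl⟩⟩
  · rintro ⟨⟨a, ha, haZ, rfl⟩, ⟨b, hb, hbZ, hab⟩⟩
    rw [π.hat_inj hbZ haZ] at hab
    subst hab
    exact ⟨b, ZFSet.mem_inter.2 ⟨ha, hb⟩, haZ, rfl⟩

theorem hat_diff (π : Pkg P) {x y : ZFSet.{0}} (hx : x ∈ π.Z) (hy : y ∈ π.Z) :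
    π.hat (x \ y) = π.hat x \ π.hat y := by
  ext z
  rw [ZFSet.mem_sdiff, π.mem_hat, π.mem_hat, π.mem_hat]
  constructor
  · rintro ⟨a, ha, haZ, rfl⟩
    rw [ZFSet.mem_sdiff] at ha
    refine ⟨⟨a, ha.1, haZ, rfl⟩, ?_⟩
    rintro ⟨b, hb, hbZ, hab⟩
    rw [π.hat_inj hbZ haZ] at hab
    subst hab
    exact ha.2 hb
  · rintro ⟨⟨a, ha, haZ, rfl⟩, h⟩
    exact ⟨a, ZFSet.mem_sdiff.2 ⟨ha, fun h1 => h ⟨a, h1, haZ, rfl⟩⟩, haZ, rfl⟩

theorem hat_Ms (π : Pkg P) {x : ZFSet.{0}} (hx : x ∈ π.Z) : π.hat x ∈ sys.Ms π :=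
  ⟨check x, ⟨hx, sys.hs_check x⟩, rfl⟩

theorem eq_top {p : P} (h : lo 0 p = p) : p = ⊤ := by
  refine Subtype.ext (funext fun m => funext fun x => ?_)
  have h1 : (lo 0 p).1 m x = p.1 m x := by rw [h]
  have h2 : (lo 0 p).1 m x = none := by
    change (if m < 0 then p.1 m x else none) = none
    rw [if_neg (Nat.not_lt_zero m)]
  rw [← h1, h2]
  rfl

/-- The value of a name `tau 0 c w` is a set of the ground model. -/
theorem val_tau {π : Pkg P} (c : Cardinal.{0}) (w : c.ord.ToType → Set P)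
    (hw : tau 0 c w ∈ π.N) :
    π.hat (ZFSet.range fun j : (tau 0 c w).idx => dec ((tau 0 c w).chd j)) =
      π.val (tau 0 c w) := by
  ext z
  rw [π.mem_hat, π.mem_val]
  constructor
  · rintro ⟨a, ha, haZ, rfl⟩
    obtain ⟨j, hj⟩ := ZFSet.mem_range.1 ha
    have h1 : (tau 0 c w).chd j = check a := by
      rw [← hj]
      change ck _ = check (dec (ck _))
      rw [ck, dec_check]
    refine ⟨check a, haZ, (tau 0 c w).cnd j, ⟨j, h1, rfl⟩, ⟨0, ?_⟩, rfl⟩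
    have h2 : (tau 0 c w).cnd j = ⊤ := eq_top (p := j.1.2) j.2.2
    rw [h2]
    exact le_top
  · rintro ⟨y, hy, p, ⟨j, hj, -⟩, -, rfl⟩
    have h1 : (tau 0 c w).chd j = check (dec ((tau 0 c w).chd j)) := by
      change ck _ = check (dec (ck _))
      rw [ck, dec_check]
    refine ⟨dec ((tau 0 c w).chd j), ZFSet.mem_range.2 ⟨j, rfl⟩, ?_, ?_⟩
    · change check (dec ((tau 0 c w).chd j)) ∈ π.N
      rw [← h1, hj]
      exact hy
    · rw [Pkg.hat, ← h1, hj]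

theorem range_sub (c : Cardinal.{0}) (w : c.ord.ToType → Set P) :
    (ZFSet.range fun j : (tau 0 c w).idx => dec ((tau 0 c w).chd j)) ⊆ c.ord.toZFSet := by
  intro a ha
  obtain ⟨j, rfl⟩ := ZFSet.mem_range.1 ha
  change dec (ck _) ∈ _
  rw [ck, dec_check, Ordinal.toZFSet_mem_toZFSet_iff]
  exact Ordinal.typein_lt_self _

end Ufv

variable [Base]

open Ufv in
theorem ufv_main (hS : S_SUB) (hO : S_ORD) (hG : S_GR) : S_UFV := by
  refine hS.of {rl f1, rl2 f2, rl2 f3, rl f4} (Set.Finite.countable (Set.toFinite _)) ?_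
  intro π hπ hcld hsub c hc0 hcb hcN
  have hg := π.gC 0
  set κ : ZFSet.{0} := c.ord.toZFSet with hκd
  have hκ : κ ∈ π.Z := hcN
  have hcard : κ.card = c := by rw [hκd, Ordinal.card_toZFSet, Cardinal.card_ord]
  have hF1 : ∀ x ∈ π.Z, ZU x ∈ π.Z := by
    intro x hx
    have h := hπ.rl (f := f1) (by simp) hx
    simp only [f1, dec_check] at h
    exact h
  have hF2 : ∀ x ∈ π.Z, ∀ y ∈ π.Z, x ∩ y ∈ π.Z := by
    intro x hx y hy
    have h := hπ.rl2 (f := f2) (by simp) hx hy hg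
    simp only [f2, dec_check] at h
    exact h
  have hF3 : ∀ x ∈ π.Z, ∀ y ∈ π.Z, x \ y ∈ π.Z := by
    intro x hx y hy
    have h := hπ.rl2 (f := f3) (by simp) hx hy hg
    simp only [f3, dec_check] at h
    exact h
  obtain ⟨hu1, hu2, hu3, hu4, hu5⟩ := uni_ZU (κ := κ) (by rw [hcard]; exact hc0)
  set u : ZFSet.{0} := ZU κ with hu
  have huZ : u ∈ π.Z := hF1 κ hκ
  -- subsets in the model are subsets of the ground model
  have hrep : ∀ Y ∈ sys.Ms π, Y ⊆ π.hat κ → ∃ y ∈ π.Z, y ⊆ κ ∧ π.hat y = Y := by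
    rintro _ ⟨x, ⟨hxN, hxS⟩, rfl⟩ hY
    obtain ⟨w, hw, hval⟩ := hsub 0 c hcb hcN x hxN hxS hY
    have h := hπ.rl (f := f4) (by simp) hw
    exact ⟨_, h, range_sub c w, (val_tau c w hw).trans hval⟩
  -- elements of the ultrafilter
  have hel : ∀ Y ∈ π.hat u, ∃ y ∈ π.Z, y ∈ u ∧ π.hat y = Y := by
    intro Y hY
    obtain ⟨y, hy, hyZ, rfl⟩ := π.mem_hat.1 hY
    exact ⟨y, hyZ, hy, rfl⟩
  refine ⟨π.hat u, hat_Ms π huZ, ?_, ?_, ?_, ?_, ?_, ?_⟩
  · intro Y hY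
    obtain ⟨y, hyZ, hy, rfl⟩ := hel Y hY
    exact π.hat_subset (hu1 y hy).1
  · exact (π.hat_mem_hat hκ huZ).2 hu2
  · intro Y hY Z hZ
    obtain ⟨y, hyZ, hy, rfl⟩ := hel Y hY
    obtain ⟨z, hzZ, hz, rfl⟩ := hel Z hZ
    rw [← hat_inter π hyZ hzZ]
    exact (π.hat_mem_hat (hF2 y hyZ z hzZ) huZ).2 (hu3 y hy z hz)
  · intro Y hY Z hZM hYZ hZκ
    obtain ⟨y, hyZ, hy, rfl⟩ := hel Y hY
    obtain ⟨z, hzZ, hzκ, rfl⟩ := hrep Z hZM hZκ
    exact (π.hat_mem_hat hzZ huZ).2 (hu4 y hy z (π.subset_of_hat hzZ hyZ hYZ) hzκ)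
  · intro Y hYM hYκ
    obtain ⟨y, hyZ, hyκ, rfl⟩ := hrep Y hYM hYκ
    change _ ↔ π.hat κ \ π.hat y ∉ π.hat u
    rw [← hat_diff π hκ hyZ, π.hat_mem_hat hyZ huZ, π.hat_mem_hat (hF3 κ hκ y hyZ) huZ]
    exact hu5 y hyκ
  · intro Y hY
    obtain ⟨y, hyZ, hy, rfl⟩ := hel Y hY
    obtain ⟨f, ⟨g, hg1, rfl⟩, hf⟩ := π.exists_bij_V hyZ hκ (exists_isBij (hu1 y hy).2)
    exact ⟨π.hat g, hat_Ms π hg1, hf⟩

end Pool.Agent.R602.UU
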