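import Pool.Agent.R602.UU.Defs

set_option autoImplicit false
set_option linter.all false

namespace Pool.Agent.R602.UU

open Pool.Agent.W868 Pool.Agent.W868.PName Pool.Agent.R598.SY Cardinal

variable [Base]

namespace UFZ

theorem lo_val (n : ℕ) (p : P) (m : ℕ) (x : X) :
    (lo n p).1 m x = if m < n then p.1 m x else none := rfl

theorem mix_val (n : ℕ) (r p : P) (m : ℕ) (x : X) :
    (mix n r p).1 m x = if m < n then r.1 m x else p.1 m x := rfl

theorem lo_lo (n : ℕ) (p : P) : lo n (lo n p) = lo n p := by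
  refine Subtype.ext (funext fun m => funext fun x => ?_)
  rw [lo_val, lo_val]
  split_ifs <;> rfl

theorem lo_mono {n : ℕ} {q p : P} (h : q ≤ p) : lo n q ≤ lo n p := by
  intro m x b hb
  rw [lo_val] at hb ⊢
  split_ifs at hb ⊢ with hm
  exact h m x b hb

theorem mix_le {n : ℕ} {q p : P} (h : q ≤ lo n p) : mix n q p ≤ p := by
  intro m x b hb
  rw [mix_val]
  split_ifs with hm
  · exact h m x b (by rw [lo_val, if_pos hm]; exact hb)
  · exact hb

theorem lo_mix (n : ℕ) (r p : P) : lo n (mix n r p) = lo n r := by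
  refine Subtype.ext (funext fun m => funext fun x => ?_)
  rw [lo_val, lo_val, mix_val]
  split_ifs <;> rfl

variable {n : ℕ} {c : Cardinal.{0}}

theorem frc_anti {w : c.ord.ToType → Set P} {i : c.ord.ToType} {r q : P}
    (h : r ∈ Frc n w i) (hq : q ≤ r) : q ∈ Frc n w i := fun s hs => h s (hs.trans hq)

theorem frc_lo {w : c.ord.ToType → Set P} {i : c.ord.ToType} {r : P}
    (h : r ∈ Frc n w i) : lo n r ∈ Frc n w i := by
  intro q hq
  obtain ⟨s, hs, t, ht, htl, hst⟩ := h (mix n q r) (mix_le hq)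
  refine ⟨mix n s q, ?_, t, ht, htl, ?_⟩
  · intro m x b hb
    rw [mix_val]
    split_ifs with hm
    · exact hs m x b (by rw [mix_val, if_pos hm]; exact hb)
    · exact hb
  · intro m x b hb
    rw [mix_val]
    have h1 := hb
    rw [← htl, lo_val] at h1
    split_ifs at h1 with hm
    rw [if_pos hm]
    exact hst m x b hb

theorem frc_of_lo {w : c.ord.ToType → Set P} {i : c.ord.ToType} {r q : P}
    (h : r ∈ Frc n w i) (e : lo n q = lo n r) : q ∈ Frc n w i := by
  have h1 := frc_lo h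
  rw [← e] at h1
  exact frc_anti h1 (le_lo n q)

/-- the two conditions kept in the Zorn argument -/
structure Pre (n : ℕ) (c : Cardinal.{0}) (𝒟 : Set ((c.ord.ToType → Set P) × P)) : Prop where
  lo : ∀ t ∈ 𝒟, UU.lo n t.2 = t.2
  ub : ∀ F : Finset ((c.ord.ToType → Set P) × P), ↑F ⊆ 𝒟 → ∀ r, (∀ t ∈ F, r ≤ t.2) →
    ∀ β : c.ord.ToType, ∃ i, β ≤ i ∧ ∃ r' ≤ r, ∀ t ∈ F, r' ∈ Frc n t.1 i

theorem exists_max (n : ℕ) (c : Cardinal.{0}) :
    ∃ 𝒟, Maximal (· ∈ {𝒟 : Set ((c.ord.ToType → Set P) × P) | Pre n c 𝒟}) 𝒟 := by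
  apply zorn_subset
  intro C hC hch
  rcases C.eq_empty_or_nonempty with rfl | hne
  · refine ⟨∅, ⟨fun t ht => absurd ht (Set.notMem_empty _), fun F hF r hr β => ⟨β, le_rfl, r, le_rfl,
      fun t ht => absurd (hF ht) (Set.notMem_empty _)⟩⟩, fun s hs => absurd hs (Set.notMem_empty _)⟩
  · refine ⟨⋃₀ C, ⟨?_, ?_⟩, fun s hs => Set.subset_sUnion_of_mem hs⟩
    · rintro t ⟨𝒟, h𝒟, ht⟩
      exact (hC h𝒟).lo t ht
    · intro F hF
      rw [Set.sUnion_eq_biUnion] at hF
      obtain ⟨𝒟, h𝒟, hF'⟩ := DirectedOn.exists_mem_subset_of_finset_subset_biUnion hne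
        (hch.directedOn) hF
      exact (hC h𝒟).ub F hF'

open Classical in
theorem add {𝒟 : Set ((c.ord.ToType → Set P) × P)}
    (hm : Maximal (· ∈ {𝒟 : Set ((c.ord.ToType → Set P) × P) | Pre n c 𝒟}) 𝒟)
    (w : c.ord.ToType → Set P) (r : P) (hr : lo n r = r)
    (h : ∀ F : Finset ((c.ord.ToType → Set P) × P), ↑F ⊆ 𝒟 → ∀ r₁ ≤ r, (∀ t ∈ F, r₁ ≤ t.2) →
      ∀ β : c.ord.ToType, ∃ i, β ≤ i ∧ ∃ r' ≤ r₁, (∀ t ∈ F, r' ∈ Frc n t.1 i) ∧ r' ∈ Frc n w i) :
    (w, r) ∈ 𝒟 := by
  have hp : Pre n c (insert (w, r) 𝒟) := by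
    refine ⟨?_, ?_⟩
    · rintro t (rfl | ht)
      · exact hr
      · exact hm.prop.lo t ht
    · intro F hF r₁ hr₁ β
      by_cases hx : (w, r) ∈ F
      · have hF' : (↑(F.erase (w, r)) : Set _) ⊆ 𝒟 := by
          intro t ht
          rw [Finset.mem_coe, Finset.mem_erase] at ht
          exact (hF (Finset.mem_coe.2 ht.2)).resolve_left ht.1
        obtain ⟨i, hi, r', hr', h1, h2⟩ := h _ hF' r₁ (hr₁ _ hx)
          (fun t ht => hr₁ t (Finset.mem_of_mem_erase ht)) β
        refine ⟨i, hi, r', hr', fun t ht => ?_⟩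
        by_cases hte : t = (w, r)
        · subst hte; exact h2
        · exact h1 t (Finset.mem_erase.2 ⟨hte, ht⟩)
      · refine hm.prop.ub F (fun t ht => ?_) r₁ hr₁ β
        refine (hF ht).resolve_left ?_
        rintro rfl
        exact hx ht
  exact hm.le_of_ge hp (Set.subset_insert _ _) (Set.mem_insert _ _)

end UFZ

open UFZ in
open Classical in
theorem ufz_main : S_UFZ := by
  intro n c _
  obtain ⟨𝒟, hm⟩ := exists_max n c
  have hlo := hm.prop.lo
  have hub := hm.prop.ub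
  refine ⟨𝒟, hlo, hub, ?_, ?_, ?_⟩
  · intro w r hr
    by_contra hcon
    have hcon' : ∀ r' ≤ r, lo n r' = r' → (w, r') ∉ 𝒟 ∧ (wc n w, r') ∉ 𝒟 := by
      intro r' h1 h2
      by_contra h3
      exact hcon ⟨r', h1, h2, by tauto⟩
    have n1 := mt (add hm w r hr) (hcon' r le_rfl hr).1
    push Not at n1
    obtain ⟨F, hF, r₁, hr₁, hFr, β₁, h1⟩ := n1
    have hr₁' : lo n r₁ ≤ r := by rw [← hr]; exact lo_mono hr₁
    have n2 := mt (add hm (wc n w) (lo n r₁) (lo_lo n r₁)) (hcon' _ hr₁' (lo_lo n r₁)).2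
    push Not at n2
    obtain ⟨F', hF', r₂, hr₂, hFr', β₂, h2⟩ := n2
    obtain ⟨i, hi, r', hr', h3⟩ := hub (F ∪ F') (by
        rw [Finset.coe_union]; exact Set.union_subset hF hF') r₂ (fun t ht => by
          rcases Finset.mem_union.1 ht with ht | ht
          · refine hr₂.trans ?_
            rw [← hlo t (hF ht)]
            exact lo_mono (hFr t ht)
          · exact hFr' t ht) (max β₁ β₂)
    have key : ∀ q ≤ r', q ∉ Frc n w i := by
      intro q hq hqw
      refine h1 i ((le_max_left _ _).trans hi) (mix n q r₁)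
        (mix_le (hq.trans (hr'.trans hr₂))) (fun t ht => ?_) ?_
      · exact frc_of_lo (frc_anti (h3 t (Finset.mem_union_left _ ht)) hq) (lo_mix n q r₁)
      · exact frc_of_lo hqw (lo_mix n q r₁)
    refine h2 i ((le_max_right _ _).trans hi) r' hr'
      (fun t ht => h3 t (Finset.mem_union_right _ ht)) ?_
    intro q hq
    refine ⟨q, le_rfl, lo n q, ⟨lo_lo n q, ?_⟩, lo_lo n q, le_lo n q⟩
    intro q' hq' hq'w
    exact key (mix n q' q) ((mix_le hq').trans hq) (frc_of_lo hq'w (lo_mix n q' q))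
  · intro w w' r hw hw'
    refine add hm _ r (hlo _ hw) ?_
    intro F hF r₁ hr₁ hFr β
    obtain ⟨i, hi, r', hr', h3⟩ := hub (insert (w, r) (insert (w', r) F)) (by
      intro t ht
      rw [Finset.mem_coe, Finset.mem_insert, Finset.mem_insert] at ht
      rcases ht with rfl | rfl | ht
      · exact hw
      · exact hw'
      · exact hF ht) r₁ (by
      intro t ht
      rw [Finset.mem_insert, Finset.mem_insert] at ht
      rcases ht with rfl | rfl | ht
      · exact hr₁
      · exact hr₁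
      · exact hFr t ht) β
    refine ⟨i, hi, r', hr', fun t ht => h3 t (by simp [ht]), ?_⟩
    have g1 := h3 (w, r) (by simp)
    have g2 := h3 (w', r) (by simp)
    intro q hq
    exact ⟨q, le_rfl, lo n q, ⟨lo_lo n q, frc_lo (frc_anti g1 hq), frc_lo (frc_anti g2 hq)⟩,
      lo_lo n q, le_lo n q⟩
  · intro w r r' hw hr' hlr'
    refine add hm _ r' hlr' ?_
    intro F hF r₁ hr₁ hFr β
    obtain ⟨i, hi, r'', hr'', h3⟩ := hub (insert (w, r) F) (by
      intro t ht
      rw [Finset.mem_coe, Finset.mem_insert] at ht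
      rcases ht with rfl | ht
      · exact hw
      · exact hF ht) r₁ (by
      intro t ht
      rw [Finset.mem_insert] at ht
      rcases ht with rfl | ht
      · exact hr₁.trans hr'
      · exact hFr t ht) β
    exact ⟨i, hi, r'', hr'', fun t ht => h3 t (by simp [ht]), h3 (w, r) (by simp)⟩

end Pool.Agent.R602.UU
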