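import Pool.Agent.R602.UU.Fin
import Pool.Agent.R602.UU.Ale
import Pool.Agent.R602.UU.Bnd
import Pool.Agent.R602.UU.Cc
import Pool.Agent.R602.UU.Cls
import Pool.Agent.R602.UU.Col
import Pool.Agent.R602.UU.Crd
import Pool.Agent.R602.UU.Ctm
import Pool.Agent.R602.UU.Gr
import Pool.Agent.R602.UU.Hom
import Pool.Agent.R602.UU.Key
import Pool.Agent.R602.UU.Nou
import Pool.Agent.R602.UU.Ord
import Pool.Agent.R602.UU.Oty
import Pool.Agent.R602.UU.Sub
import Pool.Agent.R602.UU.Suc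
import Pool.Agent.R602.UU.Ufn
import Pool.Agent.R602.UU.Ufv
import Pool.Agent.R602.UU.Ufz

/-!
# The two theorems
-/

set_option autoImplicit false
set_option linter.all false

namespace Pool.Agent.R602.UU

open Pool.Agent.W868 Cardinal

theorem key_m [Base] : S_KEY := key_main cc_main
theorem gr_m [Base] : S_GR := gr_main ord_main
theorem bnd_m [Base] : S_BND := bnd_main cc_main key_m hom_main ord_main
theorem sub_m [Base] : S_SUB := sub_main key_m ord_main
theorem col_m [Base] : S_COL := col_main ord_main gr_m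
theorem crd_m [Base] : S_CRD := crd_main ord_main gr_m bnd_m ctm_main
theorem cls_m [Base] : S_CLS := cls_main ord_main gr_m col_m ctm_main

theorem pcs [Base] : Pcs where
  ord := ord_main
  gr := gr_m
  nou := nou_main ord_main gr_m
  ufv := ufv_main sub_m ord_main gr_m
  ufn := ufn_main ufz_main sub_m ord_main
  oty := oty_main
  crd := crd_m
  cls := cls_m
  suc := suc_main ord_main gr_m crd_m cls_m

theorem ale_m [Base] : S_ALE := ale_main ord_main gr_m crd_m cls_m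

theorem final1 : ∃ M : Set ZFSet.{0}, M.Countable ∧ IsZF M ∧
    (∀ μ κ, IsSucc M μ κ → Regular M κ) ∧
      ∃ l, InfCard M l ∧ ¬ Regular M l ∧ (∀ n, ∃ κ ∈ l, IsAleph M n κ) ∧
        (∀ α ∈ l, ∃ n κ, IsAleph M n κ ∧ α ∈ κ) ∧
        (∀ κ ∈ l, InfCard M κ → ∃ D, UniUF M κ D) ∧ ¬ ∃ D, UniUF M l D := by
  letI : Base := ⟨ℵ₀, le_rfl⟩
  exact main1 rfl ale_m pcs

theorem final2 : ∃ M : Set ZFSet.{0}, M.Countable ∧ IsZF M ∧
    (∀ μ κ, IsSucc M μ κ → Regular M κ) ∧
      ∃ l m, (InfCard M l ∧ ¬ Regular M l ∧ CofOmega M l ∧ ∃ D, UniUF M l D) ∧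
        InfCard M m ∧ ¬ Regular M m ∧ CofOmega M m ∧ ¬ ∃ D, UniUF M m D := by
  letI : Base := ⟨Cardinal.aleph Ordinal.omega0, Cardinal.aleph0_le_aleph _⟩
  exact main2 rfl pcs

end Pool.Agent.R602.UU
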