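import Pool.Agent.R602.UU.Defs

/-!
# Piece SUC: the successor cardinals are regular
-/

set_option autoImplicit false
set_option linter.all false

namespace Pool.Agent.R602.UU

open Pool.Agent.W868 Pool.Agent.W868.PName Pool.Agent.R598.SY Cardinal
open ZFSet (pair)

variable [Base]

namespace SucAux

theorem bt_strictMono : StrictMono bt := strictMono_nat_of_lt_succ bt_lt_succ

theorem bt_bdd : BddAbove (Set.range bt) := Cardinal.bddAbove_range _

theorem bt_lt_lam (n : ℕ) : bt n < lam :=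
  (bt_lt_succ n).trans_le (le_ciSup bt_bdd (n + 1))

theorem bt_lt_kp (n : ℕ) : bt n < kp n := Order.lt_succ _

theorem kp_le_bt (n : ℕ) : kp n ≤ bt (n + 1) := Order.succ_le_of_lt (bt_lt_succ n)

theorem kp_lt_lam (n : ℕ) : kp n < lam := (kp_le_bt n).trans_lt (bt_lt_lam _)

theorem kp_lt_succ (n : ℕ) : kp n < kp (n + 1) := (kp_le_bt n).trans_lt (bt_lt_kp _)

theorem kp_strictMono : StrictMono kp := strictMono_nat_of_lt_succ kp_lt_succ

theorem aleph0_le_lam : ℵ₀ ≤ lam := (aleph0_le_bt 0).trans (bt_lt_lam 0).le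

theorem aleph0_le_kp (n : ℕ) : ℵ₀ ≤ kp n := (aleph0_le_bt n).trans (bt_lt_kp n).le

theorem exists_of_lt_lam {d : Cardinal.{0}} (h : d < lam) : ∃ n, d < bt n := by
  by_contra h'
  push_neg at h'
  exact absurd (ciSup_le h') (not_le.2 h)

theorem kp_reg (n : ℕ) : (kp n).IsRegular := Cardinal.isRegular_succ (aleph0_le_bt n)

/-- the smaller ordinals are subsets -/
theorem sub_of_le {π : Pkg P} (hO : OrdP π) {a b : Ordinal.{0}} (ha : ck a ∈ π.N)
    (hb : ck b ∈ π.N) (h : a ≤ b) : π.val (ck a) ⊆ π.val (ck b) := by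
  intro z hz
  obtain ⟨c, hc, hcN, rfl⟩ := (hO.mem a ha z).1 hz
  exact (hO.mem b hb _).2 ⟨c, hc.trans_le h, hcN, rfl⟩

/-- there is no cardinal of the model between a cardinal and its successor -/
theorem no_between {π : Pkg P} (hO : OrdP π) {c d e : Cardinal.{0}} (hc : ck c.ord ∈ π.N)
    (hd : ck d.ord ∈ π.N) (he : ck e.ord ∈ π.N) (hde : d < e) (hec : e < c)
    (hi : InfCard (sys.Ms π) (π.val (ck e.ord)))
    (hm : ∀ ν, InfCard (sys.Ms π) ν → π.val (ck d.ord) ∈ ν → π.val (ck c.ord) ⊆ ν) : False := by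
  have h1 := hm _ hi ((hO.lt _ _ hd he).2 (Cardinal.ord_lt_ord.2 hde))
  have h2 : π.val (ck e.ord) ∈ π.val (ck c.ord) := (hO.lt _ _ he hc).2 (Cardinal.ord_lt_ord.2 hec)
  exact absurd ((hO.lt _ _ he he).1 (h1 h2)) (lt_irrefl _)

end SucAux

open SucAux

theorem suc_main (hO : S_ORD) (hG : S_GR) (hR : S_CRD) (hL : S_CLS) : S_SUC := by
  refine (((hO.and hG).and (hR.and hL)).of ∅ Set.countable_empty ?_)
  rintro π - - ⟨⟨hO, hG⟩, hR, hL⟩ μ κ ⟨hμ, hκ, hμκ, hmin⟩
  obtain ⟨c, hc0, hcN, rfl, hc⟩ := hL κ hκ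
  obtain ⟨d, hd0, hdN, rfl, hd⟩ := hL μ hμ
  have hdc : d < c := Cardinal.ord_lt_ord.1 ((hO.lt _ _ hdN hcN).1 hμκ)
  by_cases hreg : c.IsRegular
  · rcases hc with hc | hc | hc
    · exact (hR c hc0 hcN).2 (Or.inl hc) hreg
    · exact (hR c hc0 hcN).2 (Or.inr (Or.inl hc)) hreg
    · rcases hc.eq_or_lt with h | h
      · exfalso
        obtain ⟨n, hn⟩ := exists_of_lt_lam (h ▸ hdc)
        exact no_between hO hcN hdN (hG.kp n) (hn.trans (bt_lt_kp n)) (h ▸ kp_lt_lam n)
          ((hR _ (aleph0_le_kp n) (hG.kp n)).1 (Or.inr (Or.inl ⟨n, rfl⟩))) hmin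
      · exact (hR c hc0 hcN).2 (Or.inr (Or.inr h)) hreg
  · exfalso
    rcases hc with hc | ⟨n, rfl⟩ | hc
    · -- e is the successor of d
      have heN : ck (Order.succ d).ord ∈ π.N := by
        have := hG.sc _ hdN
        rwa [Cardinal.card_ord] at this
      have he : Order.succ d < c := lt_of_le_of_ne (Order.succ_le_of_lt hdc) fun h =>
        hreg (h ▸ Cardinal.isRegular_succ hd0)
      exact no_between hO hcN hdN heN (Order.lt_succ d) he
        ((hR _ (hd0.trans (Order.le_succ d)) heN).1 (Or.inl (he.le.trans hc))) hmin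
    · exact hreg (kp_reg n)
    · rcases hc.eq_or_lt with h | h
      · obtain ⟨n, hn⟩ := exists_of_lt_lam (h ▸ hdc)
        exact no_between hO hcN hdN (hG.kp n) (hn.trans (bt_lt_kp n)) (h ▸ kp_lt_lam n)
          ((hR _ (aleph0_le_kp n) (hG.kp n)).1 (Or.inr (Or.inl ⟨n, rfl⟩))) hmin
      · have hmax0 : ℵ₀ ≤ max d lam := hd0.trans (le_max_left _ _)
        have heN : ck (Order.succ (max d lam)).ord ∈ π.N := by
          rcases le_total d lam with h' | h'
          · rw [max_eq_right h']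
            have := hG.sc _ hG.lam
            rwa [Cardinal.card_ord] at this
          · rw [max_eq_left h']
            have := hG.sc _ hdN
            rwa [Cardinal.card_ord] at this
        have he : Order.succ (max d lam) < c := lt_of_le_of_ne
          (Order.succ_le_of_lt (max_lt hdc h)) fun h' =>
            hreg (h' ▸ Cardinal.isRegular_succ hmax0)
        exact no_between hO hcN hdN heN ((le_max_left _ _).trans_lt (Order.lt_succ _)) he
          ((hR _ (hmax0.trans (Order.le_succ _)) heN).1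
            (Or.inr (Or.inr ((le_max_right d lam).trans (Order.le_succ _))))) hmin

end Pool.Agent.R602.UU
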